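import Pool.Agent.P.MP_aa4716_al.Basic

set_option autoImplicit false

namespace Pool.Agent.TorAN

/-- A system of quasi-axes with rotation subgroups in a hyperbolic normed group. -/
structure Sys {G : Type} [Group G] (M : Nm G) (A : Type) [MulAction G A] where
  θ : ℕ
  L : ℕ
  θ_pos : 1 ≤ θ
  L_big : 100000 * θ ≤ L
  hyp : M.Hyp θ
  On : A → G → Prop
  pr : A → G → G
  on_pr : ∀ a x, On a (pr a x)
  on_smul : ∀ (g : G) a p, On a p → On (g • a) (g * p)
  pr_smul : ∀ (g : G) a x, pr (g • a) (g * x) = g * pr a x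
  pr_min : ∀ a x p, On a p → M.d x (pr a x) ≤ M.d x p
  qc : ∀ a x p q, On a p → On a q → 2 * M.d x (pr a x) + M.d p q ≤ M.d x p + M.d x q + θ
  far : ∀ a x y, M.d (pr a x) (pr a y) ≤ θ ∨
    M.d x (pr a x) + M.d (pr a x) (pr a y) + M.d (pr a y) y ≤ M.d x y + θ
  bdd : ∀ a b p q, a ≠ b → On b p → On b q → M.d (pr a p) (pr a q) ≤ θ
  beh : ∀ a b p q x, a ≠ b → On b p → On a q →
    M.d (pr a x) (pr a p) ≤ θ ∨ M.d (pr b x) (pr b q) ≤ θ
  Rot : A → Subgroup G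
  rot_smul : ∀ a ρ, ρ ∈ Rot a → ρ • a = a
  rot_conj : ∀ (g : G) a ρ, ρ ∈ Rot a → g * ρ * g⁻¹ ∈ Rot (g • a)
  big : ∀ a ρ x, ρ ∈ Rot a → ρ ≠ 1 → L ≤ M.d (pr a x) (pr a (ρ * x)) + θ
  ht : ∀ a, ∃ η : G → ℤ, ∃ ρ ∈ Rot a,
    (∀ x y, η x - η y ≤ M.d (pr a x) (pr a y) + θ) ∧
    (∀ x y, (M.d (pr a x) (pr a y) : ℤ) ≤ η x - η y + θ ∨
      (M.d (pr a x) (pr a y) : ℤ) ≤ η y - η x + θ) ∧
    (∀ x, η (ρ * x) ≤ η x - L + θ ∧ η x - L ≤ η (ρ * x) + θ)

namespace Sys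

variable {G : Type} [Group G] {M : Nm G} {A : Type} [MulAction G A] (S : Sys M A)

/-- Distance between projections to the axis `a`. -/
def D (a : A) (x y : G) : ℕ := M.d (S.pr a x) (S.pr a y)

theorem D_self (a : A) (x : G) : S.D a x x = 0 := M.d_self _
theorem D_comm (a : A) (x y : G) : S.D a x y = S.D a y x := M.d_comm _ _
theorem D_tri (a : A) (x y z : G) : S.D a x z ≤ S.D a x y + S.D a y z := M.d_tri _ _ _

theorem D_smul (g : G) (a : A) (x y : G) : S.D (g • a) (g * x) (g * y) = S.D a x y := by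
  unfold D; rw [S.pr_smul, S.pr_smul, M.d_mul]

theorem D_inv (g : G) (a : A) (x y : G) : S.D (g⁻¹ • a) x y = S.D a (g * x) (g * y) := by
  rw [← S.D_smul g, smul_inv_smul]

theorem D_rot {a : A} {ρ : G} (h : ρ ∈ S.Rot a) (x y : G) :
    S.D a (ρ * x) (ρ * y) = S.D a x y := by
  conv_lhs => rw [← S.rot_smul a ρ h]
  exact S.D_smul _ _ _ _

theorem pr_rot {a : A} {ρ : G} (h : ρ ∈ S.Rot a) (x : G) :
    S.pr a (ρ * x) = ρ * S.pr a x := by
  conv_lhs => rw [← S.rot_smul a ρ h]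
  exact S.pr_smul _ _ _

theorem on_rot {a : A} {ρ p : G} (h : ρ ∈ S.Rot a) (hp : S.On a p) : S.On a (ρ * p) := by
  have := S.on_smul ρ a p hp
  rwa [S.rot_smul a ρ h] at this

theorem pr_on {a : A} {p : G} (h : S.On a p) : S.pr a p = p := by
  have := S.pr_min a p p h
  rw [M.d_self] at this
  exact (M.d_eq (Nat.le_zero.mp this)).symm

theorem pr_pr (a : A) (x : G) : S.pr a (S.pr a x) = S.pr a x := S.pr_on (S.on_pr a x)

theorem D_big {a : A} {ρ : G} (h : ρ ∈ S.Rot a) (h1 : ρ ≠ 1) (x : G) :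
    S.L ≤ S.D a x (ρ * x) + S.θ := S.big a ρ x h h1

theorem D_beh {a b : A} {p q : G} (hab : a ≠ b) (hp : S.On b p) (hq : S.On a q) (x : G) :
    S.D a x p ≤ S.θ ∨ S.D b x q ≤ S.θ := S.beh a b p q x hab hp hq

theorem D_bdd {a b : A} {p q : G} (hab : a ≠ b) (hp : S.On b p) (hq : S.On b q) :
    S.D a p q ≤ S.θ := S.bdd a b p q hab hp hq

theorem D_far (a : A) (x y : G) : S.D a x y ≤ S.θ ∨
    M.d x (S.pr a x) + S.D a x y + M.d (S.pr a y) y ≤ M.d x y + S.θ := S.far a x y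

theorem D_lip (a : A) (x y : G) : S.D a x y ≤ M.d x y + S.θ := by
  have := S.D_far a x y; omega

theorem D_pr (a : A) (x y : G) : S.D a (S.pr a x) y = S.D a x y := by
  unfold D; rw [pr_pr]

theorem D_pr' (a : A) (x y : G) : S.D a x (S.pr a y) = S.D a x y := by
  unfold D; rw [pr_pr]

/-- A height function on the axis `a` together with a rotation lowering it by about `L`. -/
structure Ht (a : A) (η : G → ℤ) (ρ : G) : Prop where
  mem : ρ ∈ S.Rot a
  le : ∀ x y, η x - η y ≤ S.D a x y + S.θ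
  ge : ∀ x y, (S.D a x y : ℤ) ≤ η x - η y + S.θ ∨ (S.D a x y : ℤ) ≤ η y - η x + S.θ
  sh : ∀ x, η (ρ * x) ≤ η x - S.L + S.θ ∧ η x - S.L ≤ η (ρ * x) + S.θ

theorem orient (a : A) (x y : G) : ∃ η ρ, S.Ht a η ρ ∧ η x ≤ η y := by
  obtain ⟨η, ρ, h0, h1, h2, h3⟩ := S.ht a
  by_cases h : η x ≤ η y
  · exact ⟨η, ρ, ⟨h0, h1, h2, h3⟩, h⟩
  · refine ⟨fun z => - η z, ρ⁻¹, ⟨(S.Rot a).inv_mem h0, ?_, ?_, ?_⟩, by simp only; omega⟩
    · intro u v; have := h1 v u; have := S.D_comm a u v; unfold D at *; omega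
    · intro u v; have := h2 u v; unfold D at *; omega
    · intro u; have := h3 (ρ⁻¹ * u); rw [mul_inv_cancel_left] at this; omega

theorem Ht.ne_one {S : Sys M A} {a : A} {η : G → ℤ} {ρ : G} (h : S.Ht a η ρ) : ρ ≠ 1 := by
  rintro rfl
  have := h.sh 1
  have := S.L_big
  have := S.θ_pos
  rw [one_mul] at *
  omega

/-- The subgroup generated by all rotations. -/
def N : Subgroup G := Subgroup.closure {g | ∃ a, g ∈ S.Rot a}

theorem rot_le_N {a : A} {ρ : G} (h : ρ ∈ S.Rot a) : ρ ∈ S.N := Subgroup.subset_closure ⟨a, h⟩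

instance N_normal : S.N.Normal := by
  constructor
  intro n hn g
  induction hn using Subgroup.closure_induction with
  | mem x hx => obtain ⟨a, ha⟩ := hx; exact S.rot_le_N (S.rot_conj g a x ha)
  | one => simp
  | mul x y _ _ hx hy =>
    have := S.N.mul_mem hx hy
    simpa [mul_assoc] using this
  | inv x _ hx =>
    have := S.N.inv_mem hx
    simpa [mul_assoc] using this

/-- Turning along an axis with a long arc shortens. -/
theorem shorten {a : A} {η : G → ℤ} {ρ : G} (h : S.Ht a η ρ) {x y : G} (hxy : η x ≤ η y)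
    (hD : S.L + 8 * S.θ ≤ 2 * S.D a x y) : M.d x (ρ * y) < M.d x y := by
  have f := S.D_far a x y
  have h1 := h.le x y
  have h1' := h.le y x
  have h2 := h.ge x y
  have h3 := h.ge x (ρ * y)
  have h4 := h.sh y
  have t1 := M.d_tri x (S.pr a x) (ρ * y)
  have t2 := M.d_tri (S.pr a x) (S.pr a (ρ * y)) (ρ * y)
  have e1 : M.d (S.pr a (ρ * y)) (ρ * y) = M.d (S.pr a y) y := by rw [S.pr_rot h.mem, M.d_mul]
  have e2 : S.D a x (ρ * y) = M.d (S.pr a x) (S.pr a (ρ * y)) := rfl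
  have := S.D_comm a x y
  have := S.L_big
  have := S.θ_pos
  omega

/-- A shortest representative modulo `N`. -/
def Sh (x : G) : Prop := ∀ n ∈ S.N, M.l x ≤ M.l (n * x)

theorem Sh.arc {S : Sys M A} {x : G} (h : S.Sh x) (a : A) : 2 * S.D a 1 x < S.L + 8 * S.θ := by
  by_contra hc
  obtain ⟨η, ρ, h1, h2⟩ := S.orient a 1 x
  have := S.shorten h1 h2 (by omega)
  have := h ρ (S.rot_le_N h1.mem)
  rw [M.d_one, M.d_one] at *
  omega

end Sys

end Pool.Agent.TorAN
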