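import Pool.Agent.P.MP_aa4716_al.Lox
import Pool.Agent.P.MP_aa4716_al.Sys

set_option autoImplicit false

namespace Pool.Agent.TorAN

namespace Nm

variable {G : Type} [Group G] (M : Nm G) (E : Subgroup G)

theorem exists_min (a : G ⧸ E) : ∃ p : G, (p : G ⧸ E) = a ∧ ∀ q : G, (q : G ⧸ E) = a →
    M.l p ≤ M.l q := by
  obtain ⟨p, hp⟩ := QuotientGroup.mk_surjective a
  obtain ⟨p', h1, h2⟩ := Nat.sInf_mem (s := {n | ∃ p : G, (p : G ⧸ E) = a ∧ M.l p = n})
    ⟨_, p, hp, rfl⟩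
  exact ⟨p', h1, fun q hq => h2 ▸ Nat.sInf_le ⟨q, hq, rfl⟩⟩

/-- An equivariant nearest point projection to left cosets. -/
noncomputable def prj (a : G ⧸ E) (x : G) : G := x * (M.exists_min E (x⁻¹ • a)).choose

theorem prj_on (a : G ⧸ E) (x : G) : (M.prj E a x : G ⧸ E) = a := by
  have := (M.exists_min E (x⁻¹ • a)).choose_spec.1
  change x • (((M.exists_min E (x⁻¹ • a)).choose : G) : G ⧸ E) = a
  rw [this, smul_inv_smul]

theorem prj_smul (g : G) (a : G ⧸ E) (x : G) : M.prj E (g • a) (g * x) = g * M.prj E a x := by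
  unfold prj
  have : (g * x)⁻¹ • g • a = x⁻¹ • a := by rw [mul_inv_rev, mul_smul, inv_smul_smul]
  simp only [this, mul_assoc]

theorem prj_min (a : G ⧸ E) (x p : G) (hp : (p : G ⧸ E) = a) : M.d x (M.prj E a x) ≤ M.d x p := by
  unfold prj
  rw [M.d_right]
  apply (M.exists_min E (x⁻¹ • a)).choose_spec.2
  rw [← hp]; rfl

namespace Lox

variable {M} {δ : ℕ} {h : G} (X : M.Lox δ h)
include X

theorem near' {a : G ⧸ Com h} {p q : G} (hp : (p : G ⧸ Com h) = a) (hq : (q : G ⧸ Com h) = a) :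
    ∃ j : ℤ, M.d q (p * h ^ j) ≤ 2 * M.l h + 2 * δ := by
  obtain ⟨j, hj⟩ := X.near (QuotientGroup.eq.mp (hp.trans hq.symm))
  exact ⟨j, by rwa [← M.d_mul p, mul_inv_cancel_left] at hj⟩

theorem qc' {a : G ⧸ Com h} {p q : G} (hp : (p : G ⧸ Com h) = a) (hq : (q : G ⧸ Com h) = a)
    (x : G) : ∃ j : ℤ, 2 * M.d x (p * h ^ j) + M.d p q ≤
      M.d x p + M.d x q + 7 * M.l h + 6 * δ := by
  obtain ⟨k, hk⟩ := X.near' hp hq
  obtain ⟨j, hj⟩ := X.qc (p⁻¹ * x) k
  refine ⟨j, ?_⟩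
  rw [← M.d_mul p, ← M.d_mul p 1, ← M.d_mul p _ 1, ← M.d_mul p _ (h ^ k), mul_inv_cancel_left,
    mul_one] at hj
  have := M.d_tri p (p * h ^ k) q
  have := M.d_tri x q (p * h ^ k)
  have := M.d_comm q (p * h ^ k)
  omega

omit X in
theorem on_pow {a : G ⧸ Com h} {p : G} (hp : (p : G ⧸ Com h) = a) (j : ℤ) :
    ((p * h ^ j : G) : G ⧸ Com h) = a := by
  rw [← hp]; exact QuotientGroup.mk_mul_of_mem p (zpow_mem_com h j)

theorem qc'' {a : G ⧸ Com h} {p q : G} (hp : (p : G ⧸ Com h) = a) (hq : (q : G ⧸ Com h) = a)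
    (x : G) : 2 * M.d x (M.prj _ a x) + M.d p q ≤ M.d x p + M.d x q + 7 * M.l h + 6 * δ := by
  obtain ⟨j, hj⟩ := X.qc' hp hq x
  have := M.prj_min _ a x _ (on_pow hp j)
  omega

theorem far (a : G ⧸ Com h) (x y : G) :
    M.d (M.prj _ a x) (M.prj _ a y) ≤ 14 * M.l h + 13 * δ ∨
    M.d x (M.prj _ a x) + M.d (M.prj _ a x) (M.prj _ a y) + M.d (M.prj _ a y) y ≤
      M.d x y + 14 * M.l h + 13 * δ := by
  have k1 := X.qc'' (M.prj_on _ a x) (M.prj_on _ a y) x
  have k2 := X.qc'' (M.prj_on _ a x) (M.prj_on _ a y) y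
  have k3 := X.hyp x (M.prj _ a y) y (M.prj _ a x)
  simp only [M.d_comm] at *
  omega

theorem bdd {a b : G ⧸ Com h} (hab : a ≠ b) {p q : G} (hp : (p : G ⧸ Com h) = b)
    (hq : (q : G ⧸ Com h) = b) : M.d (M.prj _ a p) (M.prj _ a q) ≤
      14 * M.l h + 13 * δ + M.l h * (M.ball (13 * M.l h + 12 * δ)).card := by
  by_contra hc
  have k1 := X.far a p q
  have hP := M.prj_on _ a p
  have hQ := M.prj_on _ a q
  set P := M.prj _ a p
  set Q := M.prj _ a q
  set B := M.ball (13 * M.l h + 12 * δ) with hB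
  obtain ⟨j, hj⟩ := X.near' hP hQ
  have k2 : B.card ≤ j.natAbs := by
    have t := M.d_tri P (P * h ^ j) Q
    rw [M.d_right, l_zpow, M.d_comm (P * h ^ j) Q] at t
    have := M.l_pow_le h j.natAbs
    by_contra hn
    have := Nat.mul_le_mul_left (M.l h) (le_of_lt (not_le.mp hn))
    omega
  let e : ℕ → ℤ := fun t => if 0 ≤ j then t else -t
  have k3 : ∀ t, ∃ i : ℤ, t ≤ B.card → (P * h ^ e t)⁻¹ * (p * h ^ i) ∈ B := by
    intro t
    obtain ⟨i, hi⟩ := X.qc' hp hq (P * h ^ e t)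
    refine ⟨i, fun ht => ?_⟩
    rw [hB, M.mem_ball]
    change M.d _ _ ≤ _
    have b := X.btw (i := 0) (j := e t) (k := j) (by simp only [e]; split_ifs <;> omega)
    rw [← M.d_mul P, ← M.d_mul P (h ^ e t), ← M.d_mul P _ (h ^ j), zpow_zero, mul_one] at b
    have t1 := M.d_tri (P * h ^ e t) P p
    have t2 := M.d_tri (P * h ^ e t) (P * h ^ j) q
    have t3 := M.d_tri (P * h ^ j) Q q
    have t4 := M.d_tri P Q (P * h ^ j)
    simp only [M.d_comm] at *
    omega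
  choose f hf using k3
  obtain ⟨t, ht, t', ht', hne, heq⟩ := Finset.exists_ne_map_eq_of_card_lt_of_maps_to
    (s := Finset.range (B.card + 1)) (t := B) (by simp)
    (f := fun t => (P * h ^ e t)⁻¹ * (p * h ^ f t))
    (fun t ht => hf t (by simpa [Nat.lt_succ_iff] using ht))
  have k4 : P⁻¹ * p * h ^ (f t - f t') * (P⁻¹ * p)⁻¹ = h ^ (e t - e t') := by
    calc P⁻¹ * p * h ^ (f t - f t') * (P⁻¹ * p)⁻¹
        = h ^ e t * ((P * h ^ e t)⁻¹ * (p * h ^ f t)) * (h ^ f t')⁻¹ * (P⁻¹ * p)⁻¹ := by group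
      _ = h ^ e t * ((P * h ^ e t')⁻¹ * (p * h ^ f t')) * (h ^ f t')⁻¹ * (P⁻¹ * p)⁻¹ := by
          rw [heq]
      _ = h ^ (e t - e t') := by group
  have k5 : e t - e t' ≠ 0 := by simp only [e]; split_ifs <;> omega
  have k6 : f t - f t' ≠ 0 := by
    intro h0
    have := X.ge (e t - e t')
    rw [← k4, h0, zpow_zero, mul_one, mul_inv_cancel, M.l_one] at this
    omega
  have k7 : P⁻¹ * p ∈ Com h := ⟨_, _, k6, k5, k4⟩
  exact hab (hP.symm.trans ((QuotientGroup.eq.mpr k7).trans hp))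

end Lox

theorem exists_sys {δ : ℕ} (hyp : M.Hyp δ) {g : G} (hg : ¬ IsOfFinOrder g) :
    ∃ (A : Type) (_ : MulAction G A) (θ K : ℕ) (h : G), (∀ i : ℤ, i.natAbs ≤ M.l (h ^ i)) ∧
      ∀ L₀, ∃ S : Sys M A, S.θ = θ ∧ L₀ ≤ S.L ∧ (∃ n, 0 < n ∧ g ^ n ∈ S.N) ∧
        ∀ a p q, S.On a p → S.On a q → ∃ i : ℤ, M.d q (p * h ^ i) ≤ K := by
  obtain ⟨k, hk, hl⟩ := exists_lox hyp hg
  have X : M.Lox δ (g ^ k) := ⟨hyp, hl⟩
  set h := g ^ k with hh
  obtain ⟨m, hm, hn⟩ := X.exists_normal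
  obtain ⟨η, hη⟩ := X.height
  set c := M.l h * (M.ball (13 * M.l h + 12 * δ)).card with hc
  set θ := 28 * M.l h + 26 * δ + c + 1 with hθ
  refine ⟨G ⧸ Com h, inferInstance, θ, 2 * M.l h + 2 * δ, h, X.ge, fun L₀ => ?_⟩
  set n := m * (L₀ + 100000 * θ) with hn'
  have hL : L₀ + 100000 * θ ≤ M.l (h ^ n) := by
    have := X.mono 0 n
    have := Nat.le_mul_of_pos_left (L₀ + 100000 * θ) hm
    simp only [zero_add] at *
    omega
  let Rot : G ⧸ Com h → Subgroup G := fun a =>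
    { carrier := {ρ | ∀ p : G, (p : G ⧸ Com h) = a → p⁻¹ * ρ * p ∈ Subgroup.zpowers (h ^ n)}
      one_mem' := fun p _ => by simp
      mul_mem' := fun {x y} hx hy p hp => by
        have := Subgroup.mul_mem _ (hx p hp) (hy p hp)
        simpa [mul_assoc] using this
      inv_mem' := fun {x} hx p hp => by
        have := Subgroup.inv_mem _ (hx p hp)
        simpa [mul_assoc] using this }
  have r0 : ∀ ρ ∈ Subgroup.zpowers (h ^ n), ρ ∈ Com h := by
    rintro _ ⟨t, rfl⟩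
    simp only
    rw [← zpow_natCast, ← zpow_mul]; exact zpow_mem_com _ _
  have r1 : ∀ a ρ, ρ ∈ Rot a → ρ • a = a := by
    intro a ρ hρ
    obtain ⟨p, rfl⟩ := QuotientGroup.mk_surjective a
    change ((ρ * p : G) : G ⧸ Com h) = p
    exact (QuotientGroup.eq.mpr (by simpa [mul_assoc] using r0 _ (hρ p rfl))).symm
  have r2 : ∀ (b : G) ρ, ρ ∈ Subgroup.zpowers (h ^ n) → b * ρ * b⁻¹ ∈ Rot (b : G ⧸ Com h) := by
    intro b ρ hρ p hp
    have := hn _ (QuotientGroup.eq.mp hp) _ ρ hρ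
    simpa [mul_assoc] using this
  have r3 : ∀ a ρ x, ρ ∈ Rot a → M.prj _ a (ρ * x) = ρ * M.prj _ a x := by
    intro a ρ x hρ
    conv_lhs => rw [← r1 a ρ hρ]
    exact M.prj_smul _ _ _ _
  have a1 : 1 ≤ θ := by omega
  have a2 : 100000 * θ ≤ M.l (h ^ n) := le_trans (Nat.le_add_left _ _) hL
  have a3 : L₀ ≤ M.l (h ^ n) := le_trans (Nat.le_add_right _ _) hL
  have a4 : δ ≤ θ := by omega
  refine ⟨{ θ := θ, L := M.l (h ^ n), θ_pos := a1, L_big := a2,
            hyp := hyp.mono a4, On := fun a p => (p : G ⧸ Com h) = a,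
            pr := M.prj _, on_pr := M.prj_on _, on_smul := ?_, pr_smul := M.prj_smul _,
            pr_min := M.prj_min _, qc := ?_, far := ?_, bdd := ?_, beh := ?_, Rot := Rot,
            rot_smul := r1, rot_conj := ?_, big := ?_, ht := ?_ }, rfl, a3, ?_,
    fun a p q hp hq => X.near' hp hq⟩
  · rintro g _ p rfl; rfl
  · intro a x p q hp hq; have := X.qc'' hp hq x; omega
  · intro a x y; have := X.far a x y; omega
  · intro a b p q hab hp hq; have := X.bdd hab hp hq; omega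
  · intro a b p q x hab hp hq
    have k1 := X.bdd hab hp (M.prj_on _ b x)
    have k2 := X.bdd hab.symm hq (M.prj_on _ a x)
    have k3 := X.far a x (M.prj _ b x)
    have k4 := X.far b x (M.prj _ a x)
    have t1 := M.d_tri (M.prj _ a x) (M.prj _ a (M.prj _ b x)) (M.prj _ a p)
    have t2 := M.d_tri (M.prj _ b x) (M.prj _ b (M.prj _ a x)) (M.prj _ b q)
    simp only [M.d_comm] at *
    omega
  · intro g a ρ hρ p hp
    have := hρ (g⁻¹ * p) (by
      change g⁻¹ • (p : G ⧸ Com h) = a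
      rw [hp, inv_smul_smul])
    simpa [mul_assoc] using this
  · intro a ρ x hρ h1
    rw [r3 a ρ x hρ]
    obtain ⟨t, ht⟩ := hρ _ (M.prj_on _ a x)
    simp only at ht
    have t0 : t ≠ 0 := by
      rintro rfl
      apply h1
      have : ρ = M.prj _ a x * ((M.prj _ a x)⁻¹ * ρ * M.prj _ a x) * (M.prj _ a x)⁻¹ := by group
      rw [this, ← ht]; simp
    unfold d
    rw [← mul_assoc, ← ht, ← zpow_natCast, ← zpow_mul, l_zpow, l_zpow, Int.natAbs_mul,
      Int.natAbs_natCast]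
    obtain ⟨u, hu⟩ : ∃ u, t.natAbs = u + 1 := ⟨t.natAbs - 1, by omega⟩
    have := X.mono n (n * u)
    rw [hu, mul_add, mul_one, add_comm (n * u)]
    omega
  · intro a
    obtain ⟨b, rfl⟩ := QuotientGroup.mk_surjective a
    have hj : ∀ x, ∃ j : ℤ, M.d (M.prj _ (b : G ⧸ Com h) x) (b * h ^ j) ≤ 2 * M.l h + 2 * δ :=
      fun x => X.near' rfl (M.prj_on _ _ x)
    choose j hj using hj
    have hρ := r2 b _ (Subgroup.inv_mem _ (Subgroup.mem_zpowers (h ^ n)))
    have key : ∀ x y, M.d (h ^ j x) (h ^ j y) ≤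
        M.d (M.prj _ (b : G ⧸ Com h) x) (M.prj _ (b : G ⧸ Com h) y) + 4 * M.l h + 4 * δ ∧
        M.d (M.prj _ (b : G ⧸ Com h) x) (M.prj _ (b : G ⧸ Com h) y) ≤
        M.d (h ^ j x) (h ^ j y) + 4 * M.l h + 4 * δ := by
      intro x y
      rw [← M.d_mul b (h ^ j x)]
      have k1 := hj x
      have k2 := hj y
      have t1 := M.d_tri (b * h ^ j x) (M.prj _ (b : G ⧸ Com h) x) (b * h ^ j y)
      have t2 := M.d_tri (M.prj _ (b : G ⧸ Com h) x) (M.prj _ (b : G ⧸ Com h) y) (b * h ^ j y)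
      have t3 := M.d_tri (M.prj _ (b : G ⧸ Com h) x) (b * h ^ j x) (M.prj _ (b : G ⧸ Com h) y)
      have t4 := M.d_tri (b * h ^ j x) (b * h ^ j y) (M.prj _ (b : G ⧸ Com h) y)
      simp only [M.d_comm] at *
      omega
    refine ⟨fun x => η (j x), b * (h ^ n)⁻¹ * b⁻¹, hρ, ?_, ?_, ?_⟩
    · intro x y
      have := (hη (j y) (j x)).1
      have := (key y x).1
      have := M.d_comm (M.prj _ (b : G ⧸ Com h) x) (M.prj _ (b : G ⧸ Com h) y)
      simp only
      omega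
    · intro x y
      have := (hη (j y) (j x)).2
      have := (hη (j x) (j y)).2
      have := (key x y).2
      have := M.d_comm (h ^ j x) (h ^ j y)
      simp only
      omega
    · intro x
      have k1 := hj (b * (h ^ n)⁻¹ * b⁻¹ * x)
      rw [r3 _ _ _ hρ] at k1
      have k2 := hj x
      rw [← M.d_mul (b * (h ^ n)⁻¹ * b⁻¹),
        show b * (h ^ n)⁻¹ * b⁻¹ * (b * h ^ j x) = b * h ^ (j x - n) by group] at k2
      simp only
      generalize j (b * (h ^ n)⁻¹ * b⁻¹ * x) = i at *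
      have t1 := M.d_tri (b * h ^ i) (b * (h ^ n)⁻¹ * b⁻¹ * M.prj _ (b : G ⧸ Com h) x)
        (b * h ^ (j x - n))
      rw [M.d_mul, M.d_comm (b * h ^ i)] at t1
      have k3 := (hη i (j x - n)).1
      have k4 := (hη (j x - n) i).1
      have k5 := (hη (j x - n) (j x)).1
      have k6 := (hη (j x - n) (j x)).2 (by omega)
      rw [d_zpow, show (j x - (j x - n)).natAbs = n by omega] at k5 k6
      have := M.d_comm (h ^ i) (h ^ (j x - n))
      omega
  · refine ⟨k * n, Nat.mul_pos hk (Nat.mul_pos hm (by omega)), ?_⟩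
    apply Sys.rot_le_N (a := ((1 : G) : G ⧸ Com h))
    have := r2 1 _ (Subgroup.mem_zpowers (h ^ n))
    rw [one_mul, inv_one, mul_one] at this
    change g ^ (k * n) ∈ Rot _
    rw [pow_mul]
    exact this

end Nm

end Pool.Agent.TorAN
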