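import Mathlib

set_option autoImplicit false

namespace Pool.Agent.TorAN

/-- A proper geodesic integer valued norm on a group. -/
structure Nm (G : Type) [Group G] where
  l : G → ℕ
  l_one : l 1 = 0
  l_inv : ∀ x, l x⁻¹ = l x
  l_mul : ∀ x y, l (x * y) ≤ l x + l y
  l_eq : ∀ x, l x = 0 → x = 1
  fin : ∀ R, {x | l x ≤ R}.Finite
  geo : ∀ x s, s ≤ l x → ∃ z, l z = s ∧ l z + l (z⁻¹ * x) = l x

namespace Nm

variable {G : Type} [Group G] (M : Nm G)

/-- The left invariant metric of a norm. -/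
def d (x y : G) : ℕ := M.l (x⁻¹ * y)

theorem d_self (x : G) : M.d x x = 0 := by simp [d, M.l_one]

theorem d_comm (x y : G) : M.d x y = M.d y x := by
  unfold d; rw [← M.l_inv]; simp

theorem d_tri (x y z : G) : M.d x z ≤ M.d x y + M.d y z := by
  unfold d
  have := M.l_mul (x⁻¹ * y) (y⁻¹ * z)
  simpa [mul_assoc] using this

theorem d_mul (g x y : G) : M.d (g * x) (g * y) = M.d x y := by
  unfold d; simp [mul_assoc]

theorem d_one (x : G) : M.d 1 x = M.l x := by simp [d]

theorem d_right (x y : G) : M.d x (x * y) = M.l y := by simp [d]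

theorem d_eq {x y : G} (h : M.d x y = 0) : x = y := by
  have := M.l_eq _ h
  exact inv_mul_eq_one.mp this

theorem d_geo (x y : G) (s : ℕ) (h : s ≤ M.d x y) :
    ∃ z, M.d x z = s ∧ M.d x z + M.d z y = M.d x y := by
  obtain ⟨z, h1, h2⟩ := M.geo (x⁻¹ * y) s h
  refine ⟨x * z, by rw [d_right]; exact h1, ?_⟩
  rw [d_right]; unfold d; simpa [mul_assoc] using h2

/-- The four point condition. -/
def Hyp (δ : ℕ) : Prop :=
  ∀ x y z w, M.d x y + M.d z w ≤ M.d x z + M.d y w + δ ∨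
    M.d x y + M.d z w ≤ M.d x w + M.d y z + δ

theorem Hyp.mono {M : Nm G} {δ δ' : ℕ} (h : M.Hyp δ) (hd : δ ≤ δ') : M.Hyp δ' := by
  intro x y z w; have := h x y z w; omega

theorem hyp_of_thin (K : ℕ)
    (h : ∀ x y w z, M.d x z + M.d z y = M.d x y →
      M.d x z + M.d z w ≤ M.d x w + K ∨ M.d y z + M.d z w ≤ M.d y w + K) :
    M.Hyp (2 * K + 1) := by
  intro x y v w
  have t1 := M.d_tri x y w
  have t2 := M.d_tri y x w
  have c1 := M.d_comm x y
  obtain ⟨z, hz1, hz2⟩ := M.d_geo x y ((M.d x y + M.d x w - M.d y w) / 2) (by omega)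
  have h1 := h x y w z hz2
  have h2 := h x y v z hz2
  have t3 := M.d_tri v z w
  have c2 := M.d_comm y z
  have c3 := M.d_comm v z
  omega

/-- Moving an endpoint keeps a far point between the endpoints. -/
theorem Hyp.stab {M : Nm G} {δ : ℕ} (h : M.Hyp δ) {u u' z v : G} {c R : ℕ}
    (hb : M.d u z + M.d z v ≤ M.d u v + c) (hR : M.d u u' ≤ R)
    (hf : 2 * R + c + δ < 2 * M.d u z) : M.d u' z + M.d z v ≤ M.d u' v + c + δ := by
  have h1 := h z u' u v
  have t1 := M.d_tri u u' z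
  have c1 := M.d_comm z u'
  have c2 := M.d_comm z u
  have c3 := M.d_comm u' u
  omega

/-- The ball as a finite set. -/
noncomputable def ball (R : ℕ) : Finset G := (M.fin R).toFinset

theorem mem_ball {R : ℕ} {x : G} : x ∈ M.ball R ↔ M.l x ≤ R := by simp [ball]

end Nm

theorem exists_lin_lt_pow (a b : ℕ) : ∃ j, a * j + b < 2 ^ j := by
  refine ⟨2 * (2 * a + b), ?_⟩
  have h : 2 * a + b < 2 ^ (2 * a + b) := Nat.lt_two_pow_self
  rw [mul_comm 2 (2 * a + b), pow_mul]
  nlinarith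

end Pool.Agent.TorAN
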