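import Pool.Agent.P.MP_aa4716_al.Tower3

set_option autoImplicit false

namespace Pool.Agent.TorAN

theorem Stage.exists_inf (s : Stage) : ∃ y, ¬ IsOfFinOrder (s.π y) := by
  obtain ⟨k, A, k1, k2, -⟩ := s.free
  obtain ⟨y, hy⟩ := s.surj (k [true])
  refine ⟨y, fun h => ?_⟩
  obtain ⟨n, hn, h1⟩ := isOfFinOrder_iff_pow_eq_one.mp h
  have k0 : k [] = 1 := by simpa using k1 [] []
  have k3 : ∀ m, k (List.replicate m true) = k [true] ^ m := by
    intro m
    induction m with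
    | zero => simpa using k0
    | succ m ih => rw [List.replicate_succ', k1, ih, pow_succ]
  have := congrArg List.length (k2 ((k3 n).trans ((hy ▸ h1).trans k0.symm)))
  simp at this
  omega

/-- A step either makes a given element torsion or moves the kernel away from a given subgroup. -/
theorem Stage.step2 (N : ℕ → Subgroup (FreeGroup Bool)) (C : ℕ) (s : Stage)
    (t : FreeGroup Bool ⊕ ℕ) (I : ℕ) : ∃ u : Stage × ℕ, I + C * u.1.D ≤ u.2 ∧
    (∀ w, u.1.p w ≤ s.p w) ∧ (∀ w, ∃ w', u.1.π w' = u.1.π w ∧ s.p w' = u.1.p w) ∧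
    (∀ w, s.p w ≤ u.2 → u.1.p w = s.p w) ∧ (∀ x, t = Sum.inl x → IsOfFinOrder (u.1.π x)) ∧
    ∀ k, t = Sum.inr k → ∃ w, (u.1.π w = 1 ∧ w ∉ N k) ∨ (w ∈ N k ∧ s.p w ≠ 0 ∧ s.p w ≤ u.2) := by
  rcases t with x | k
  · obtain ⟨s', h1, h2, h3, h4⟩ := s.step x I C
    exact ⟨(s', I + C * s'.D), le_rfl, h1, h2, h3, fun y e => Sum.inl.inj e ▸ h4, by simp⟩
  obtain ⟨y, hy⟩ := s.exists_inf
  obtain ⟨s', h1, h2, h3, h4⟩ := s.step y I C
  obtain ⟨n, hn, h5⟩ := isOfFinOrder_iff_pow_eq_one.mp h4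
  by_cases c : y ^ n ∈ N k
  · obtain ⟨s'', g1, g2, g3, -⟩ := s.step y (I + s.p (y ^ n)) C
    refine ⟨(s'', I + s.p (y ^ n) + C * s''.D), by simp only; omega, g1, g2, g3, by simp,
      fun k' e => ⟨y ^ n, Or.inr ⟨Sum.inr.inj e ▸ c, fun h => hy ?_, by simp only; omega⟩⟩⟩
    exact isOfFinOrder_iff_pow_eq_one.mpr ⟨n, hn, by rw [← map_pow]; exact s.p_zero.mp h⟩
  · exact ⟨(s', I + C * s'.D), le_rfl, h1, h2, h3, by simp,
      fun k' e => ⟨y ^ n, Or.inl ⟨by rw [map_pow]; exact h5, Sum.inr.inj e ▸ c⟩⟩⟩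

theorem exists_tower3 (N : ℕ → Subgroup (FreeGroup Bool)) :
    ∃ T : Tower, T.Big ∧ T.s 0 = stage0 ∧ ∀ k, T.K ≠ N k := by
  obtain ⟨e, he⟩ := exists_surjective_nat (FreeGroup Bool ⊕ ℕ)
  choose f f0 f1 f2 f3 f4 f5 using Stage.step2 N
    (2 * (KK 80 4 * (KK 80 4 + 2)) + 2 * (KK 62000 3 * (KK 62000 3 + 2)))
  let U : ℕ → Stage × ℕ := fun j => Nat.rec (stage0, 0) (fun j t => f t.1 (e j) (t.2 + 1)) j
  have hU : ∀ j, U (j + 1) = f (U j).1 (e j) ((U j).2 + 1) := fun _ => rfl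
  have g0 : ∀ j, (U j).2 + 1 + (2 * (KK 80 4 * (KK 80 4 + 2)) +
      2 * (KK 62000 3 * (KK 62000 3 + 2))) * (U (j + 1)).1.D ≤ (U (j + 1)).2 := fun j => f0 _ _ _
  let T : Tower := ⟨fun j => (U j).1, fun j => (U j).2, rfl, fun j => by have := g0 j; omega,
    fun j => by have := g0 j; rw [add_mul] at this; omega,
    fun j => f1 _ _ _, fun j => f2 _ _ _, fun j => f3 _ _ _, fun x => by
      obtain ⟨j, hj⟩ := he (Sum.inl x)
      exact ⟨j + 1, f4 _ _ _ x hj⟩⟩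
  refine ⟨T, fun j => ?_, rfl, fun k hk => ?_⟩
  · have := g0 j
    rw [add_mul] at this
    change _ * (U (j + 1)).1.D ≤ (U (j + 1)).2
    omega
  · obtain ⟨j, hj⟩ := he (Sum.inr k)
    obtain ⟨w, ⟨h1, h2⟩ | ⟨h1, h2, h3⟩⟩ := f5 (U j).1 (e j) ((U j).2 + 1) k hj
    · exact h2 (hk ▸ T.p_of_eq (j := j + 1) h1)
    · have h4 : T.p w = 0 := (hk ▸ h1 : w ∈ T.K)
      exact h2 ((T.p_iso (j := j) h3).symm.trans h4)

/-- Countably many groups have countably many markings by two generators. -/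
theorem exists_kernels (H : ℕ → Type) [∀ i, Group (H i)] : ∃ N : ℕ → Subgroup (FreeGroup Bool),
    ∀ (i : ℕ) (φ : FreeGroup Bool →* H i), Function.Surjective φ → ∃ k, N k = φ.ker := by
  have h : (insert ⊤ (⋃ i, {K : Subgroup (FreeGroup Bool) | ∃ φ : FreeGroup Bool →* H i,
      Function.Surjective φ ∧ φ.ker = K})).Countable := by
    refine Set.Countable.insert _ (Set.countable_iUnion fun i => ?_)
    by_cases c : ∃ φ : FreeGroup Bool →* H i, Function.Surjective φ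
    · obtain ⟨φ, hφ⟩ := c
      have := hφ.countable
      refine (Set.countable_range fun v : Bool → H i => (FreeGroup.lift v).ker).mono ?_
      rintro _ ⟨ψ, -, rfl⟩
      exact ⟨FreeGroup.lift.symm ψ, by simp⟩
    · exact Set.countable_empty.mono fun K ⟨φ, h1, _⟩ => c ⟨φ, h1⟩
  obtain ⟨N, hN⟩ := h.exists_eq_range ⟨⊤, Set.mem_insert _ _⟩
  refine ⟨N, fun i φ hφ => ?_⟩
  have : φ.ker ∈ Set.range N := hN ▸ Set.mem_insert_of_mem _ (Set.mem_iUnion.2 ⟨i, φ, hφ, rfl⟩)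
  exact this

namespace Tower

variable (T : Tower)

/-- The image of a free generator. -/
def gen (b : Bool) : FreeGroup Bool ⧸ T.K := (FreeGroup.of b : FreeGroup Bool)

theorem l_gen (h : T.s 0 = stage0) (b : Bool) : T.M.l (T.gen b) ≤ 1 := by
  have h1 := T.p_le 0 (FreeGroup.of b)
  rw [h] at h1
  exact (T.l_mk _).le.trans (h1.trans (FreeGroup.norm_of b).le)

theorem of_l (h : T.s 0 = stage0) {y : FreeGroup Bool ⧸ T.K} (hy : T.M.l y = 1) :
    ∃ b, y = T.gen b ∨ y⁻¹ = T.gen b := by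
  obtain ⟨x, rfl⟩ := QuotientGroup.mk_surjective y
  obtain ⟨j, hj⟩ := T.p_ev x
  obtain ⟨w, h1, h2⟩ := T.lift' (Nat.zero_le j) x
  rw [hj j le_rfl, ← T.l_mk, h] at h2
  have h3 : w.toWord.length = 1 := h2.trans hy
  obtain ⟨⟨b, c⟩, h4⟩ := List.length_eq_one_iff.mp h3
  have h5 : w = FreeGroup.mk [(b, c)] := by rw [← h4, FreeGroup.mk_toWord]
  rw [← T.mk_eq h1, h5]
  cases c
  · exact ⟨b, Or.inr (by rw [← QuotientGroup.mk_inv]; rfl)⟩
  · exact ⟨b, Or.inl rfl⟩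

theorem word (h : T.s 0 = stage0) (g : FreeGroup Bool ⧸ T.K) :
    IsLeast {k : ℕ | ∃ w : List (FreeGroup Bool ⧸ T.K), (∀ s ∈ w, s = T.gen true ∨ s = T.gen false ∨
      s = (T.gen true)⁻¹ ∨ s = (T.gen false)⁻¹) ∧ w.prod = g ∧ w.length = k} (T.M.l g) := by
  constructor
  · induction e : T.M.l g generalizing g with
    | zero => exact ⟨[], by simp, by rw [T.M.l_eq g e]; rfl, rfl⟩
    | succ n ih =>
      obtain ⟨z, h1, h2⟩ := T.M.geo g n (by omega)
      obtain ⟨w, w1, w2, w3⟩ := ih z h1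
      refine ⟨w ++ [z⁻¹ * g], fun s hs => ?_, by simp [w2], by simp [w3]⟩
      rcases List.mem_append.1 hs with c | c
      · exact w1 s c
      · obtain ⟨b, hb⟩ := T.of_l h (y := z⁻¹ * g) (by omega)
        rw [List.mem_singleton.1 c]
        rw [inv_eq_iff_eq_inv] at hb
        cases b <;> tauto
  · rintro k ⟨w, w1, rfl, rfl⟩
    induction w with
    | nil => simp [T.M.l_one]
    | cons a w ih =>
      have h1 := ih (fun s hs => w1 s (List.mem_cons_of_mem _ hs))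
      have h2 : T.M.l a ≤ 1 := by
        rcases w1 a List.mem_cons_self with c | c | c | c <;> rw [c] <;>
          simp only [T.M.l_inv, T.l_gen h]
      have h3 := T.M.l_mul a w.prod
      rw [List.prod_cons, List.length_cons]
      omega

end Tower

end Pool.Agent.TorAN
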