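import Pool.Agent.P.MP_aa4716_al.Basic

set_option autoImplicit false

namespace Pool.Agent.TorAN

/-- An integer valued pseudo-metric. -/
structure PM {α : Type} (d : α → α → ℕ) : Prop where
  self : ∀ x, d x x = 0
  comm : ∀ x y, d x y = d y x
  tri : ∀ x y z, d x z ≤ d x y + d y z

theorem Nm.pm {G : Type} [Group G] (M : Nm G) : PM M.d := ⟨M.d_self, M.d_comm, M.d_tri⟩

section

variable {α : Type} {d : α → α → ℕ}

/-- Chains in `X` with steps at most `ρ`. -/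
def Ch (d : α → α → ℕ) (X : Set α) (ρ : ℕ) : α → α → Prop :=
  Relation.ReflTransGen (fun a b => a ∈ X ∧ b ∈ X ∧ d a b ≤ ρ)

/-- The `ρ`-components of `X` are `D`-bounded. -/
def Bd (d : α → α → ℕ) (X : Set α) (ρ D : ℕ) : Prop :=
  ∀ x ∈ X, ∀ y, Ch d X ρ x y → d x y ≤ D

/-- `X` has a colouring whose colour classes have `D`-bounded `ρ`-components. -/
def Col (d : α → α → ℕ) (ι : Type) (X : Set α) (ρ D : ℕ) : Prop :=
  ∃ χ : α → ι, ∀ i, Bd d {x | x ∈ X ∧ χ x = i} ρ D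

theorem Ch.mono {X Y : Set α} {ρ ρ' : ℕ} (h : X ⊆ Y) (hρ : ρ ≤ ρ') {x y : α}
    (hc : Ch d X ρ x y) : Ch d Y ρ' x y := by
  induction hc with
  | refl => exact Relation.ReflTransGen.refl
  | tail _ hh ih => exact ih.tail ⟨h hh.1, h hh.2.1, hh.2.2.trans hρ⟩

theorem Ch.mem {X : Set α} {ρ : ℕ} {x y : α} (hx : x ∈ X) (hc : Ch d X ρ x y) : y ∈ X := by
  induction hc with
  | refl => exact hx
  | tail _ h _ => exact h.2.1

theorem Ch.symm (hd : PM d) {X : Set α} {ρ : ℕ} {x y : α} (hc : Ch d X ρ x y) : Ch d X ρ y x := by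
  induction hc with
  | refl => exact Relation.ReflTransGen.refl
  | tail _ h ih =>
    exact Relation.ReflTransGen.head ⟨h.2.1, h.1, by rw [hd.comm]; exact h.2.2⟩ ih

theorem Ch.comp_eq (hd : PM d) {X : Set α} {ρ : ℕ} {x y : α} (hc : Ch d X ρ x y) :
    {z | Ch d X ρ x z} = {z | Ch d X ρ y z} := by
  ext z
  exact ⟨fun h => Relation.ReflTransGen.trans (hc.symm hd) h,
    fun h => Relation.ReflTransGen.trans hc h⟩

theorem Bd.mono {X Y : Set α} {ρ ρ' D D' : ℕ} (hb : Bd d Y ρ' D') (h : X ⊆ Y) (hρ : ρ ≤ ρ')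
    (hD : D' ≤ D) : Bd d X ρ D :=
  fun x hx y hc => (hb x (h hx) y (hc.mono h hρ)).trans hD

theorem Bd.union (hd : PM d) {A B : Set α} {ρ DA DB : ℕ} (hA : Bd d A ρ DA)
    (hB : Bd d B (DA + 2 * ρ) DB) : Bd d (A ∪ B) ρ (DB + 2 * (DA + ρ)) := by
  intro x hx y hc
  let Q : α → Prop := fun b => ∃ b₀ ∈ B, d x b₀ ≤ DA + ρ ∧ Ch d B (DA + 2 * ρ) b₀ b
  have key : (y ∈ B ∧ Q y) ∨ (y ∈ A ∧ ∃ a₀ ∈ A, Ch d A ρ a₀ y ∧
      (a₀ = x ∨ ∃ b ∈ B, Q b ∧ d b a₀ ≤ ρ)) := by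
    induction hc with
    | refl =>
      rcases hx with hx | hx
      · exact Or.inr ⟨hx, x, hx, Relation.ReflTransGen.refl, Or.inl rfl⟩
      · exact Or.inl ⟨hx, x, hx, by rw [hd.self]; omega, Relation.ReflTransGen.refl⟩
    | @tail u v _ h ih =>
      obtain ⟨-, hv, huv⟩ := h
      rcases ih with ⟨hu, hq⟩ | ⟨hu, a₀, ha₀, hc, h0⟩
      · rcases hv with hv | hv
        · exact Or.inr ⟨hv, v, hv, Relation.ReflTransGen.refl, Or.inr ⟨u, hu, hq, huv⟩⟩
        · obtain ⟨b₀, h1, h2, h3⟩ := hq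
          exact Or.inl ⟨hv, b₀, h1, h2, h3.tail ⟨hu, hv, by omega⟩⟩
      · rcases hv with hv | hv
        · exact Or.inr ⟨hv, a₀, ha₀, hc.tail ⟨hu, hv, huv⟩, h0⟩
        · have k1 := hA a₀ ha₀ u hc
          have t1 := hd.tri a₀ u v
          rcases h0 with rfl | ⟨b, hb, ⟨b₀, h1, h2, h3⟩, h4⟩
          · exact Or.inl ⟨hv, v, hv, by omega, Relation.ReflTransGen.refl⟩
          · have t2 := hd.tri b a₀ v
            exact Or.inl ⟨hv, b₀, h1, h2, h3.tail ⟨hb, hv, by omega⟩⟩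
  rcases key with ⟨-, b₀, h1, h2, h3⟩ | ⟨-, a₀, ha₀, hc', rfl | ⟨b, -, ⟨b₀, h1, h2, h3⟩, h4⟩⟩
  · have := hB b₀ h1 y h3
    have := hd.tri x b₀ y
    omega
  · have := hA a₀ ha₀ y hc'
    omega
  · have := hA a₀ ha₀ y hc'
    have := hB b₀ h1 b h3
    have := hd.tri x b₀ y
    have := hd.tri b₀ b y
    have := hd.tri b a₀ y
    omega

variable {ι : Type}

theorem Col.mono {X Y : Set α} {ρ ρ' D D' : ℕ} (hb : Col d ι Y ρ' D') (h : X ⊆ Y) (hρ : ρ ≤ ρ')
    (hD : D' ≤ D) : Col d ι X ρ D := by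
  obtain ⟨χ, hχ⟩ := hb
  exact ⟨χ, fun i => (hχ i).mono (fun _ hx => ⟨h hx.1, hx.2⟩) hρ hD⟩

theorem Col.union (hd : PM d) {A B : Set α} {ρ DA DB : ℕ} (hA : Col d ι A ρ DA)
    (hB : Col d ι B (DA + 2 * ρ) DB) : Col d ι (A ∪ B) ρ (DB + 2 * (DA + ρ)) := by
  classical
  obtain ⟨χ, hχ⟩ := hA
  obtain ⟨ψ, hψ⟩ := hB
  refine ⟨fun x => if x ∈ A then χ x else ψ x, fun i => ?_⟩
  refine ((hχ i).union hd (hψ i)).mono ?_ le_rfl le_rfl
  rintro x ⟨hx, h⟩
  by_cases hA : x ∈ A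
  · left; exact ⟨hA, by simpa [hA] using h⟩
  · right; exact ⟨hx.resolve_left hA, by simpa [hA] using h⟩

theorem Col.of_bdd [Inhabited ι] {X : Set α} {ρ D : ℕ} (h : ∀ x ∈ X, ∀ y ∈ X, d x y ≤ D) :
    Col d ι X ρ D :=
  ⟨fun _ => default, fun _ x hx y hc => h x hx.1 y (hc.mem hx).1⟩

theorem Col.zero [Inhabited ι] (hd : PM d) (X : Set α) (D : ℕ) : Col d ι X 0 D := by
  refine ⟨fun _ => default, fun _ x _ y hc => ?_⟩
  have : d x y = 0 := by
    induction hc with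
    | refl => exact hd.self x
    | @tail u v _ h ih => have := hd.tri x u v; have := h.2.2; omega
  omega

theorem Col.pull {β : Type} {d' : β → β → ℕ} {X : Set α} {X' : Set β} {ρ ρ' D D' : ℕ}
    (hc : Col d' ι X' ρ' D') (f : α → β) (h0 : ∀ x ∈ X, f x ∈ X')
    (h1 : ∀ x ∈ X, ∀ y ∈ X, d x y ≤ ρ → d' (f x) (f y) ≤ ρ')
    (h2 : ∀ x ∈ X, ∀ y ∈ X, d' (f x) (f y) ≤ D' → d x y ≤ D) : Col d ι X ρ D := by
  obtain ⟨χ, hχ⟩ := hc
  refine ⟨fun x => χ (f x), fun i x hx y hc => h2 x hx.1 y (hc.mem hx).1 ?_⟩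
  refine hχ i (f x) ⟨h0 x hx.1, hx.2⟩ (f y) ?_
  induction hc with
  | refl => exact Relation.ReflTransGen.refl
  | @tail a b _ h ih =>
    exact ih.tail ⟨⟨h0 a h.1.1, h.1.2⟩, ⟨h0 b h.2.1.1, h.2.1.2⟩, h1 a h.1.1 b h.2.1.1 h.2.2⟩

theorem Col.comp [Inhabited ι] (hd : PM d) {X : Set α} {ρ R D : ℕ} (hρ : ρ ≤ R)
    (h : ∀ x ∈ X, Col d ι {y | Ch d X R x y} ρ D) : Col d ι X ρ D := by
  classical
  have h' : ∀ K : Set α, ∃ χ : α → ι, (∃ x ∈ X, K = {y | Ch d X R x y}) →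
      ∀ i, Bd d {x | x ∈ K ∧ χ x = i} ρ D := by
    intro K
    by_cases hK : ∃ x ∈ X, K = {y | Ch d X R x y}
    · obtain ⟨x, hx, rfl⟩ := hK
      obtain ⟨χ, hχ⟩ := h x hx
      exact ⟨χ, fun _ => hχ⟩
    · exact ⟨fun _ => default, fun hh => absurd hh hK⟩
  choose χ hχ using h'
  refine ⟨fun x => χ {y | Ch d X R x y} x, fun i x hx y hc => ?_⟩
  refine hχ {y | Ch d X R x y} ⟨x, hx.1, rfl⟩ i x ⟨Relation.ReflTransGen.refl, hx.2⟩ y ?_
  have key : Ch d X R x y ∧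
      Ch d {z | z ∈ {y | Ch d X R x y} ∧ χ {y | Ch d X R x y} z = i} ρ x y := by
    induction hc with
    | refl => exact ⟨Relation.ReflTransGen.refl, Relation.ReflTransGen.refl⟩
    | @tail u v _ h ih =>
      have h1 : Ch d X R x v := ih.1.tail ⟨h.1.1, h.2.1.1, h.2.2.trans hρ⟩
      refine ⟨h1, ih.2.tail ⟨⟨ih.1, ?_⟩, ⟨h1, ?_⟩, h.2.2⟩⟩
      · rw [ih.1.comp_eq hd]; exact h.1.2
      · rw [h1.comp_eq hd]; exact h.2.1.2
  exact key.2

theorem Col.prod {κ : Type} {X : Set α} {ρ D : ℕ} (ψ : α → κ)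
    (h : ∀ j, Col d ι {x | x ∈ X ∧ ψ x = j} ρ D) : Col d (κ × ι) X ρ D := by
  choose χ hχ using h
  refine ⟨fun x => (ψ x, χ (ψ x) x), fun i => (hχ i.1 i.2).mono ?_ le_rfl le_rfl⟩
  rintro x ⟨hx, rfl⟩
  exact ⟨⟨hx, rfl⟩, rfl⟩

/-- The constants of the finite union theorem. -/
def KK (C : ℕ) : ℕ → ℕ
  | 0 => 0
  | m + 1 => C * (KK C m + 2) + 2 * (KK C m + 1)

theorem KK_le (C m : ℕ) : KK C m ≤ KK C (m + 1) := by
  simp only [KK]; omega

theorem Col.fin_union [Inhabited ι] (hd : PM d) (ψ : α → ℕ) {ρ R C : ℕ} (m : ℕ) :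
    ∀ X : Set α, (∀ x ∈ X, ψ x < m) → (KK C m + 2) * ρ ≤ R →
      (∀ i r, ρ ≤ r → r ≤ R → Col d ι {x | x ∈ X ∧ ψ x = i} r (C * r)) →
      Col d ι X ρ (KK C m * ρ) := by
  induction m with
  | zero => intro X h _ _; exact Col.of_bdd (fun x hx => absurd (h x hx) (by omega))
  | succ m ih =>
    intro X h hR hc
    have k0 : (KK C m + 2) * ρ ≤ R :=
      le_trans (Nat.mul_le_mul_right _ (by have := KK_le C m; omega)) hR
    have k1 := ih {x | x ∈ X ∧ ψ x < m} (fun x hx => hx.2) k0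
      (fun i r h1 h2 => (hc i r h1 h2).mono (fun x hx => ⟨hx.1.1, hx.2⟩) le_rfl le_rfl)
    have k2 := hc m (KK C m * ρ + 2 * ρ) (by omega) (by rw [← add_mul]; exact k0)
    refine (k1.union hd k2).mono ?_ le_rfl (le_of_eq (by simp only [KK]; ring))
    intro x hx
    have := h x hx
    by_cases h' : ψ x < m
    · exact Or.inl ⟨hx, h'⟩
    · exact Or.inr ⟨hx, by omega⟩

theorem label3 (hd : PM d) {β : Type} {X : Set α} {r : ℕ} (f : α → β)
    (h : ∀ x ∈ X, ∀ y ∈ X, ∀ z ∈ X, d x y ≤ 3 * r → d x z ≤ 3 * r → d y z ≤ 3 * r →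
      f x = f y ∨ f x = f z ∨ f y = f z) :
    ∃ χ : α → Bool, ∀ i x, x ∈ X → χ x = i → ∃ x' ∈ X, d x x' ≤ r ∧
      ∀ y, Ch d {z | z ∈ X ∧ χ z = i} r x y → f y = f x ∨ f y = f x' := by
  classical
  refine ⟨fun x => decide (∃ x' ∈ X, d x x' ≤ r ∧ f x' ≠ f x), fun i x hx hi => ?_⟩
  cases i with
  | false =>
    refine ⟨x, hx, by rw [hd.self]; omega, fun y hc => Or.inl ?_⟩
    induction hc with
    | refl => rfl
    | @tail u v _ h ih =>
      rw [← ih]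
      by_contra hne
      have := h.1.2
      simp only [decide_eq_false_iff_not] at this
      exact this ⟨v, h.2.1.1, h.2.2, hne⟩
  | true =>
    simp only [decide_eq_true_eq] at hi
    obtain ⟨x', hx', h1, h2⟩ := hi
    refine ⟨x', hx', h1, fun y hc => ?_⟩
    have key : ∀ y' ∈ X, d y y' ≤ r → f y' = f x ∨ f y' = f x' := by
      induction hc with
      | refl =>
        intro y' hy' h3
        have := hd.tri x' x y'
        have := hd.comm x' x
        rcases h x hx x' hx' y' hy' (by omega) (by omega) (by omega) with k | k | k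
        · exact absurd k.symm h2
        · exact Or.inl k.symm
        · exact Or.inr k.symm
      | @tail u v _ hs ih =>
        intro y' hy' h3
        have hu := hs.1.2
        simp only [decide_eq_true_eq] at hu
        obtain ⟨u', hu', h4, h5⟩ := hu
        have h6 := hs.2.2
        have := hd.tri u v y'
        have := hd.tri u' u y'
        have := hd.comm u' u
        rcases h u hs.1.1 u' hu' y' hy' (by omega) (by omega) (by omega) with k | k | k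
        · exact absurd k.symm h5
        · rw [← k]; exact ih u hs.1.1 (by rw [hd.self]; omega)
        · rw [← k]; exact ih u' hu' h4
    have hy := Ch.mem (by exact ⟨hx, decide_eq_true ⟨x', hx', h1, h2⟩⟩) hc
    exact key y hy.1 (by rw [hd.self]; omega)

theorem Col.labels (hd : PM d) {X : Set α} {ρ D : ℕ} (h : Col d Bool X ρ D) :
    ∃ g : α → Set α, (∀ x ∈ X, ∀ y ∈ X, ∀ z ∈ X, d x y ≤ ρ → d x z ≤ ρ → d y z ≤ ρ →
      g x = g y ∨ g x = g z ∨ g y = g z) ∧ ∀ x ∈ X, ∀ y, g x = g y → d x y ≤ D := by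
  obtain ⟨χ, hχ⟩ := h
  have key : ∀ x ∈ X, ∀ y ∈ X, d x y ≤ ρ → χ x = χ y →
      {z | Ch d {w | w ∈ X ∧ χ w = χ x} ρ x z} = {z | Ch d {w | w ∈ X ∧ χ w = χ y} ρ y z} := by
    intro x hx y hy h1 h2
    rw [← h2]
    exact Ch.comp_eq hd (Relation.ReflTransGen.single ⟨⟨hx, rfl⟩, ⟨hy, h2.symm⟩, h1⟩)
  refine ⟨fun x => {z | Ch d {w | w ∈ X ∧ χ w = χ x} ρ x z}, ?_, ?_⟩
  · intro x hx y hy z hz h1 h2 h3
    have : χ x = χ y ∨ χ x = χ z ∨ χ y = χ z := by
      cases χ x <;> cases χ y <;> cases χ z <;> simp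
    rcases this with k | k | k
    · exact Or.inl (key x hx y hy h1 k)
    · exact Or.inr (Or.inl (key x hx z hz h2 k))
    · exact Or.inr (Or.inr (key y hy z hz h3 k))
  · intro x hx y h
    refine hχ (χ x) x ⟨hx, rfl⟩ y ?_
    have : y ∈ {z | Ch d {w | w ∈ X ∧ χ w = χ y} ρ y z} := Relation.ReflTransGen.refl
    exact (Set.ext_iff.mp h y).mpr this

theorem greedy (Nb : α → Finset α) (m : ℕ) (hm : ∀ x, (Nb x).card < m)
    (hs : ∀ x y, y ∈ Nb x → x ∈ Nb y) :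
    ∃ ψ : α → ℕ, (∀ x, ψ x < m) ∧ ∀ x y, y ∈ Nb x → ψ x = ψ y → x = y := by
  classical
  obtain ⟨_, _⟩ := exists_wellFoundedLT α
  let F : (x : α) → ((y : α) → y < x → ℕ) → ℕ := fun x IH =>
    sInf {n | ∀ y (h : y < x), y ∈ Nb x → IH y h ≠ n}
  let ψ : α → ℕ := (wellFounded_lt (α := α)).fix F
  have e : ∀ x, ψ x = sInf {n | ∀ y, y < x → y ∈ Nb x → ψ y ≠ n} := fun x =>
    WellFounded.fix_eq _ F x
  have ex : ∀ x, ∃ n, n < m ∧ n ∈ {n | ∀ y, y < x → y ∈ Nb x → ψ y ≠ n} := by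
    intro x
    obtain ⟨n, h1, h2⟩ := Finset.exists_mem_notMem_of_card_lt_card
      (s := (Nb x).image ψ) (t := Finset.range m)
      (lt_of_le_of_lt Finset.card_image_le (by simpa using hm x))
    exact ⟨n, by simpa using h1, fun y _ hy h => h2 (Finset.mem_image.mpr ⟨y, hy, h⟩)⟩
  have k : ∀ x y, y < x → y ∈ Nb x → ψ y ≠ ψ x := by
    intro x
    obtain ⟨n, _, h2⟩ := ex x
    rw [e x]
    exact Nat.sInf_mem (s := {n | ∀ y, y < x → y ∈ Nb x → ψ y ≠ n}) ⟨n, h2⟩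
  refine ⟨ψ, fun x => ?_, fun x y hy h => ?_⟩
  · obtain ⟨n, h1, h2⟩ := ex x
    rw [e x]
    exact lt_of_le_of_lt (Nat.sInf_le h2) h1
  · rcases lt_trichotomy x y with h' | h' | h'
    · exact absurd h (k y x h' (hs x y hy))
    · exact h'
    · exact absurd h.symm (k x y h' hy)

end

namespace Nm

variable {G : Type} [Group G] (M : Nm G)

theorem annuli {r D : ℕ} (h : ∀ t, Col M.d Bool {x | M.l x = t} (3 * r) D) :
    Col M.d (Bool × Bool) Set.univ r (D + 2 * r) := by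
  rcases Nat.eq_zero_or_pos r with rfl | hr
  · exact Col.zero M.pm _ _
  refine Col.prod (fun x => decide (M.l x / r % 2 = 0)) (fun j => Col.comp M.pm le_rfl ?_)
  intro x hx
  have k1 : ∀ a b, M.d a b ≤ r → M.l b / r ≤ M.l a / r + 1 := by
    intro a b hab
    have := M.d_tri 1 a b
    rw [M.d_one, M.d_one] at this
    rw [← Nat.add_div_right _ hr]
    exact Nat.div_le_div_right (by omega)
  have k2 : ∀ y, Ch M.d {x | x ∈ Set.univ ∧ decide (M.l x / r % 2 = 0) = j} r x y →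
      M.l y / r = M.l x / r := by
    intro y hc
    induction hc with
    | refl => rfl
    | @tail u v _ hs ih =>
      have h1 := k1 u v hs.2.2
      have h2 := k1 v u (by rw [M.d_comm]; exact hs.2.2)
      have h3 := hs.1.2.trans hs.2.1.2.symm
      simp only [decide_eq_decide] at h3
      omega
  have k3 : ∀ y, ∃ z, M.l z = M.l y / r * r ∧ M.d z y < r := by
    intro y
    obtain ⟨z, h1, h2⟩ := M.geo y (M.l y / r * r) (Nat.div_mul_le_self _ _)
    refine ⟨z, h1, ?_⟩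
    have := Nat.div_add_mod' (M.l y) r
    have := Nat.mod_lt (M.l y) hr
    unfold d
    omega
  choose p p1 p2 using k3
  refine (h (M.l x / r * r)).pull p (fun y hy => ?_) (fun a _ b _ hab => ?_)
    (fun a _ b _ hab => ?_)
  · change M.l (p y) = _
    rw [p1, k2 y hy]
  · have := p2 a
    have := p2 b
    have := M.d_tri (p a) a (p b)
    have := M.d_tri a b (p b)
    have := M.d_comm b (p b)
    omega
  · have := p2 a
    have := p2 b
    have := M.d_tri a (p a) b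
    have := M.d_tri (p a) (p b) b
    have := M.d_comm a (p a)
    omega

/-- Spheres are two-colourable at all scales from `D` on, with a uniform constant. -/
def Sph (D : ℕ) : Prop := ∀ r, D ≤ r → ∀ t, Col M.d Bool {x | M.l x = t} r (26 * r)

theorem Sph.all {M : Nm G} {D : ℕ} (h : M.Sph D) {r : ℕ} (hr : D ≤ r) :
    Col M.d (Bool × Bool) Set.univ r (80 * r) :=
  (M.annuli (h (3 * r) (by omega))).mono le_rfl le_rfl (by omega)

end Nm

end Pool.Agent.TorAN
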