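import Pool.Agent.P.MP_aa4716_al.Special
import Pool.Agent.P.MP_aa4716_al.Dim

set_option autoImplicit false

namespace Pool.Agent.TorAN

namespace Sys

variable {G : Type} [Group G] {M : Nm G} {A : Type} [MulAction G A] {S : Sys M A}

theorem lift_col {D : ℕ} (hD : M.Sph D) (ζ : G ⧸ S.N) {T r : ℕ} (hT : 4 * T + 15 * S.θ < S.L)
    (hr : D ≤ r) : Col S.Mq.d Bool {ξ | S.Mq.d ζ ξ = T} r (26 * r) := by
  choose lf h1 h2 using S.lq_lift
  have key : ∀ a b, S.Mq.d ζ a = T → S.Mq.d ζ b = T →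
      M.d (lf (ζ⁻¹ * a)) (lf (ζ⁻¹ * b)) = S.Mq.d a b := by
    intro a b ha hb
    have k1 := M.d_tri (lf (ζ⁻¹ * a)) 1 (lf (ζ⁻¹ * b))
    rw [M.d_comm _ 1, M.d_one, M.d_one, h2, h2] at k1
    change S.lq (ζ⁻¹ * a) = T at ha
    change S.lq (ζ⁻¹ * b) = T at hb
    rw [← iso (S := S) (by omega)]
    unfold dq
    rw [h1, h1, Nm.d_mul]
  refine (hD r hr T).pull (fun ξ => lf (ζ⁻¹ * ξ)) (fun ξ hξ => ?_) (fun a ha b hb h => ?_)
    (fun a ha b hb h => ?_)
  · change M.l _ = T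
    rw [h2]; exact hξ
  · rw [key a b ha hb]; exact h
  · rw [← key a b ha hb]; exact h

theorem down {D ρ m : ℕ} (hD : M.Sph D) (hρ : D ≤ ρ) (hm : (M.ball (1000 * S.θ)).card < m)
    (hL : 4 * (12 * (784 * ((KK 614654 m + 2) * ρ)) + 30 * S.θ) + 15 * S.θ < S.L) (t : ℕ) :
    Col S.Mq.d Bool {ξ | S.Mq.l ξ = t} ρ (KK 614654 m * ρ + 26 * ρ) := by
  classical
  set R := (KK 614654 m + 2) * ρ with hR
  set T := 12 * (784 * R) + 30 * S.θ with hT
  have pm := S.Mq.pm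
  by_cases ht : t ≤ T
  · refine (lift_col hD 1 (T := t) (by omega) hρ).mono (fun ξ hξ => ?_) le_rfl (by omega)
    change S.Mq.d 1 ξ = t
    rw [Nm.d_one]; exact hξ
  obtain ⟨f, f1, f2, -⟩ := S.exists_proj (t - T)
  have nb : ∀ x y : G ⧸ S.N, y ∈ (M.ball (1000 * S.θ)).image (fun g => x * S.q g) ↔
      S.Mq.d x y ≤ 1000 * S.θ := by
    intro x y
    simp only [Finset.mem_image, M.mem_ball]
    constructor
    · rintro ⟨g, hg, rfl⟩
      rw [Nm.d_right]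
      exact (S.lq_le g).trans hg
    · intro h
      obtain ⟨g, h1, h2⟩ := S.lq_lift (x⁻¹ * y)
      exact ⟨g, by rw [h2]; exact h, by rw [h1]; simp⟩
  obtain ⟨ψ, ψ1, ψ2⟩ := greedy (fun x => (M.ball (1000 * S.θ)).image (fun g => x * S.q g)) m
    (fun x => lt_of_le_of_lt Finset.card_image_le hm)
    (fun x y h => by rw [nb] at *; rwa [Nm.d_comm])
  refine (Col.fin_union pm (fun x => ψ (f x)) (R := R) (C := 614654) m _ (fun x _ => ψ1 _) le_rfl
    ?_).mono le_rfl le_rfl (by omega)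
  intro i r hr1 hr2
  obtain ⟨χ, hχ⟩ := label3 pm (X := {x | x ∈ {ξ | S.Mq.l ξ = t} ∧ ψ (f x) = i}) (r := 784 * R) f
    (by
      rintro x ⟨hx, hx'⟩ y ⟨hy, hy'⟩ z ⟨hz, hz'⟩ h1 h2 -
      simp only [Set.mem_ofPred_eq] at hx hy hz
      rcases f2 _ x y z (by omega) (by omega) (by omega) h1 h2 with k | k | k
      · exact Or.inl (ψ2 _ _ ((nb _ _).mpr k) (by omega))
      · exact Or.inr (Or.inl (ψ2 _ _ ((nb _ _).mpr k) (by omega)))
      · exact Or.inr (Or.inr (ψ2 _ _ ((nb _ _).mpr k) (by omega))))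
  have key : ∀ b r', ρ ≤ r' → r' ≤ 784 * R → Col S.Mq.d Bool
      {z | z ∈ {x | x ∈ {ξ | S.Mq.l ξ = t} ∧ ψ (f x) = i} ∧ χ z = b} r' (782 * r') := by
    intro b r' h1 h2
    refine Col.comp pm h2 (fun x hx => ?_)
    obtain ⟨x', -, -, h3⟩ := hχ b x hx.1 hx.2
    have k1 := lift_col hD (f x) (T := T) (r := r') (by omega) (by omega)
    have k2 := lift_col hD (f x') (T := T) (r := 26 * r' + 2 * r') (by omega) (by omega)
    refine (k1.union pm k2).mono (fun y hy => ?_) le_rfl (by omega)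
    have hy' : S.Mq.l y = t := (Ch.mem hx hy).1.1
    have k3 := (f1 y (by omega)).2
    rcases h3 y hy with k | k
    · left; change S.Mq.d _ _ = T; rw [← k]; omega
    · right; change S.Mq.d _ _ = T; rw [← k]; omega
  refine ((key true r hr1 (by omega)).union pm
    (key false (782 * r + 2 * r) (by omega) (by omega))).mono (fun x hx => ?_) le_rfl (by omega)
  cases h : χ x
  · exact Or.inr ⟨hx, h⟩
  · exact Or.inl ⟨hx, h⟩

theorem up {E : ℕ} (h : ∀ t, Col S.Mq.d Bool {ξ | S.Mq.l ξ = t} (44000 * S.θ) E) :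
    S.Mq.Sph (E + 2060 * S.θ) := by
  classical
  intro r hr t
  have pm := S.Mq.pm
  by_cases ht : t < 12 * r + 30 * S.θ
  · refine Col.of_bdd (fun x hx y hy => ?_)
    have := S.Mq.d_tri x 1 y
    rw [Nm.d_comm _ _ 1, Nm.d_one, Nm.d_one] at this
    simp only [Set.mem_ofPred_eq] at hx hy
    omega
  set s := t - (12 * r + 30 * S.θ) with hs
  obtain ⟨f, f1, f2, f3⟩ := S.exists_proj s
  obtain ⟨g, g1, g2⟩ := (h s).labels pm
  let cl : G ⧸ S.N → G ⧸ S.N → Prop := fun ζ ζ' =>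
    S.Special ζ' ∧ S.Mq.l ζ' = s ∧ S.Mq.d ζ ζ' ≤ 1000 * S.θ
  let φ : G ⧸ S.N → G ⧸ S.N := fun ζ => if S.Special ζ then Classical.epsilon (cl ζ) else ζ
  have φ1 : ∀ ζ, S.Mq.l ζ = s → S.Mq.l (φ ζ) = s ∧ S.Mq.d ζ (φ ζ) ≤ 1000 * S.θ := by
    intro ζ hζ
    by_cases hsp : S.Special ζ
    · have : cl ζ (Classical.epsilon (cl ζ)) :=
        Classical.epsilon_spec ⟨ζ, hsp, hζ, by rw [Nm.d_self]; omega⟩
      simp only [φ, hsp, if_true]
      exact this.2
    · simp only [φ, hsp, if_false]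
      exact ⟨hζ, by rw [Nm.d_self]; omega⟩
  have φ2 : ∀ ζ ζ', S.Mq.l ζ = s → S.Mq.l ζ' = s → S.Special ζ → S.Special ζ' →
      S.Mq.d ζ ζ' ≤ 1000 * S.θ → φ ζ = φ ζ' := by
    intro ζ ζ' h1 h2 h3 h4 h5
    simp only [φ, h3, h4, if_true]
    congr 1
    ext w
    constructor
    · rintro ⟨k1, k2, k3⟩
      refine ⟨k1, k2, h4.sparse k1 (h2.trans k2.symm) ?_⟩
      have := S.Mq.d_tri ζ' ζ w
      have := S.Mq.d_comm ζ ζ'
      omega
    · rintro ⟨k1, k2, k3⟩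
      refine ⟨k1, k2, h3.sparse k1 (h1.trans k2.symm) ?_⟩
      have := S.Mq.d_tri ζ ζ' w
      omega
  have tri : ∀ x y z, S.Mq.l x = t → S.Mq.l y = t → S.Mq.l z = t → S.Mq.d x z ≤ 3 * r →
      S.Mq.d y z ≤ 3 * r → S.Mq.d (f x) (f y) ≤ 1000 * S.θ →
      g (φ (f x)) = g (φ (f y)) ∨ g (φ (f x)) = g (φ (f z)) ∨ g (φ (f y)) = g (φ (f z)) := by
    intro x y z hx hy hz h1 h2 h3
    have lx := (f1 x (by omega)).1
    have ly := (f1 y (by omega)).1
    have lz := (f1 z (by omega)).1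
    have near : S.Mq.d (f x) (f z) ≤ 42000 * S.θ → S.Mq.d (f y) (f z) ≤ 42000 * S.θ →
        g (φ (f x)) = g (φ (f y)) ∨ g (φ (f x)) = g (φ (f z)) ∨ g (φ (f y)) = g (φ (f z)) := by
      intro k1 k2
      have key : ∀ a b, S.Mq.l a = s → S.Mq.l b = s → S.Mq.d a b ≤ 42000 * S.θ →
          S.Mq.d (φ a) (φ b) ≤ 44000 * S.θ := by
        intro a b ha hb hab
        have := (φ1 a ha).2
        have := (φ1 b hb).2
        have := S.Mq.d_tri (φ a) a (φ b)
        have := S.Mq.d_tri a b (φ b)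
        have := S.Mq.d_comm a (φ a)
        omega
      exact g1 _ (φ1 _ lx).1 _ (φ1 _ ly).1 _ (φ1 _ lz).1 (key _ _ lx ly (by omega))
        (key _ _ lx lz k1) (key _ _ ly lz k2)
    have t1 := S.Mq.d_tri (f x) (f y) (f z)
    have t2 := S.Mq.d_tri (f y) (f x) (f z)
    have c1 := S.Mq.d_comm (f x) (f y)
    rcases f3 _ x z (by omega) (by omega) h1 with k1 | k1
    · exact near (by omega) (by omega)
    rcases f3 _ y z (by omega) (by omega) h2 with k2 | k2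
    · exact near (by omega) (by omega)
    left
    rw [φ2 _ _ lx ly k1 k2 h3]
  obtain ⟨χ, hχ⟩ := label3 pm (X := {ξ | S.Mq.l ξ = t}) (r := r) (fun x => g (φ (f x))) (by
    intro x hx y hy z hz h1 h2 h3
    simp only [Set.mem_ofPred_eq] at hx hy hz
    have c1 := S.Mq.d_comm x y
    have c2 := S.Mq.d_comm x z
    have c3 := S.Mq.d_comm y z
    rcases f2 _ x y z (by omega) (by omega) (by omega) h1 h2 with k | k | k
    · exact tri x y z hx hy hz h2 h3 k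
    · have := tri x z y hx hz hy h1 (by omega) k
      tauto
    · have := tri y z x hy hz hx (by omega) (by omega) k
      tauto)
  have fib : ∀ x y, S.Mq.l x = t → S.Mq.l y = t → g (φ (f y)) = g (φ (f x)) →
      S.Mq.d x y ≤ 25 * r := by
    intro x y hx hy hg
    obtain ⟨lx, dx⟩ := f1 x (by omega)
    obtain ⟨ly, dy⟩ := f1 y (by omega)
    have k1 := g2 _ (φ1 _ lx).1 _ hg.symm
    have k2 := (φ1 _ lx).2
    have k3 := (φ1 _ ly).2
    have := S.Mq.d_tri x (f x) y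
    have := S.Mq.d_tri (f x) (φ (f x)) y
    have := S.Mq.d_tri (φ (f x)) (φ (f y)) y
    have := S.Mq.d_tri (φ (f y)) (f y) y
    have := S.Mq.d_comm x (f x)
    have := S.Mq.d_comm (φ (f y)) (f y)
    omega
  refine ⟨χ, fun i x hx y hc => ?_⟩
  obtain ⟨x', hx', h1, h2⟩ := hχ i x hx.1 hx.2
  have hy : S.Mq.l y = t := (Ch.mem hx hc).1
  rcases h2 y hc with k | k
  · have := fib x y hx.1 hy k; omega
  · have := fib x' y hx' hy k
    have := S.Mq.d_tri x x' y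
    omega

end Sys

theorem sph_step {G : Type} [Group G] {M : Nm G} {D : ℕ} (hD : M.Sph D) (θ : ℕ) :
    ∃ D' L₀, D ≤ D' ∧ ∀ (A : Type) [MulAction G A] (S : Sys M A), S.θ = θ → L₀ ≤ S.L →
      S.Mq.Sph D' := by
  let m := (M.ball (1000 * θ)).card + 1
  let ρ := 44000 * θ + D
  refine ⟨KK 614654 m * ρ + 26 * ρ + 2060 * θ,
    4 * (12 * (784 * ((KK 614654 m + 2) * ρ)) + 30 * θ) + 15 * θ + 1, by omega, ?_⟩
  intro A _ S hθ hL
  subst hθ
  refine Sys.up (fun t => ?_)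
  exact (Sys.down hD (ρ := ρ) (m := m) (by omega) (by omega) (by omega) t).mono le_rfl
    (by omega) le_rfl

end Pool.Agent.TorAN
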