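import Pool.Agent.P.MP_aa4716_al.Tight
import Pool.Agent.P.MP_aa4716_al.Dim

set_option autoImplicit false

namespace Pool.Agent.TorAN

/-- The group contains a free monoid of rank two whose words are uniformly straight. -/
def Nm.Free {G : Type} [Group G] (M : Nm G) : Prop :=
  ∃ (k : List Bool → G) (A : ℕ), (∀ w w', k (w ++ w') = k w * k w') ∧ Function.Injective k ∧
    ∀ w w', M.l (k w) + M.l (k w') ≤ M.l (k (w ++ w')) + A

section step

variable {G : Type} [Group G] {M : Nm G}

theorem avoid {k : List Bool → G} (k1 : ∀ w w', k (w ++ w') = k w * k w')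
    (k2 : Function.Injective k) {h : G} (hh : ∀ i : ℤ, i.natAbs ≤ M.l (h ^ i)) (K : ℕ) :
    ∃ c : Bool → List Bool, c true ≠ c false ∧ (c true).length = (c false).length ∧
      ∀ b β β' (i : ℤ), M.l β ≤ K → M.l β' ≤ K → k (c b) ≠ β * h ^ i * β' := by
  classical
  have k0 : k [] = 1 := by simpa using k1 [] []
  set A := M.l (k [true]) + M.l (k [false]) with hA
  have k3 : ∀ w, M.l (k w) ≤ A * w.length := by
    intro w
    induction w with
    | nil => rw [k0, M.l_one]; omega
    | cons b w ih =>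
      have := M.l_mul (k [b]) (k w)
      rw [← k1, List.singleton_append] at this
      rw [List.length_cons, mul_add]
      cases b <;> omega
  set m := (M.ball K).card
  obtain ⟨n, hn⟩ := exists_lin_lt_pow (m * m * (2 * A)) (m * m * (4 * K + 1) + 1)
  let B : Finset G := ((M.ball K ×ˢ M.ball K) ×ˢ
    Finset.Icc (-(A * n + 2 * K : ℕ) : ℤ) (A * n + 2 * K : ℕ)).image
      (fun t => t.1.1 * h ^ t.2 * t.1.2)
  have hB : B.card ≤ m * m * (2 * A) * n + m * m * (4 * K + 1) := by
    refine Finset.card_image_le.trans (le_of_eq ?_)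
    rw [Finset.card_product, Finset.card_product, Int.card_Icc,
      show ((A * n + 2 * K : ℕ) + 1 - -(A * n + 2 * K : ℕ) : ℤ).toNat = 2 * (A * n) + (4 * K + 1) by
        omega]
    ring
  have h1 : (Finset.univ.filter (fun f : Fin n → Bool => k (List.ofFn f) ∈ B)).card ≤ B.card :=
    Finset.card_le_card_of_injOn (fun f => k (List.ofFn f)) (fun f hf => by simpa using hf)
      (fun f _ g _ h => List.ofFn_injective (k2 h))
  have h2 := Finset.card_filter_add_card_filter_not (s := (Finset.univ : Finset (Fin n → Bool)))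
    (fun f : Fin n → Bool => k (List.ofFn f) ∈ B)
  rw [Finset.card_univ, Fintype.card_fun, Fintype.card_bool, Fintype.card_fin] at h2
  obtain ⟨f, hf, g, hg, hne⟩ := Finset.one_lt_card.mp (show 1 < (Finset.univ.filter
    (fun f : Fin n → Bool => ¬ k (List.ofFn f) ∈ B)).card by omega)
  have key : ∀ f : Fin n → Bool, k (List.ofFn f) ∉ B → ∀ β β' (i : ℤ), M.l β ≤ K → M.l β' ≤ K →
      k (List.ofFn f) ≠ β * h ^ i * β' := by
    intro f hf β β' i h1 h2 h3
    apply hf
    refine Finset.mem_image.mpr ⟨((β, β'), i), ?_, h3.symm⟩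
    simp only [Finset.mem_product, M.mem_ball, Finset.mem_Icc]
    have e : h ^ i = β⁻¹ * k (List.ofFn f) * β'⁻¹ := by rw [h3]; group
    have t1 := M.l_mul (β⁻¹ * k (List.ofFn f)) β'⁻¹
    have t2 := M.l_mul β⁻¹ (k (List.ofFn f))
    have t3 := k3 (List.ofFn f)
    have t4 := hh i
    rw [← e, M.l_inv] at t1
    rw [M.l_inv] at t2
    rw [List.length_ofFn] at t3
    omega
  refine ⟨fun b => if b then List.ofFn f else List.ofFn g, ?_, by simp, ?_⟩
  · simpa [List.ofFn_injective.ne_iff] using hne
  · intro b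
    cases b
    · exact key g (by simpa using hg)
    · exact key f (by simpa using hf)

theorem flatMap_inj {c : Bool → List Bool} (h1 : c true ≠ c false)
    (h2 : (c true).length = (c false).length) :
    Function.Injective (fun w : List Bool => w.flatMap c) := by
  have h3 : ∀ b b', (c b).length = (c b').length := by
    intro b b'; cases b <;> cases b' <;> simp [h2]
  have h4 : ∀ b, c b ≠ [] := by
    intro b hb
    apply h1
    rw [List.eq_nil_of_length_eq_zero ((h3 true b).trans (by simp [hb])),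
      List.eq_nil_of_length_eq_zero ((h3 false b).trans (by simp [hb]))]
  intro w
  induction w with
  | nil =>
    intro w' h
    cases w' with
    | nil => rfl
    | cons b w' => simp [h4 b] at h
  | cons b w ih =>
    intro w' h
    cases w' with
    | nil => simp [h4 b] at h
    | cons b' w' =>
      simp only [List.flatMap_cons] at h
      obtain ⟨e1, e2⟩ := List.append_inj h (h3 b b')
      rw [ih e2]
      congr 1
      cases b <;> cases b' <;> simp_all

theorem free_step (hF : M.Free) (θ K : ℕ) {h : G} (hh : ∀ i : ℤ, i.natAbs ≤ M.l (h ^ i)) :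
    ∃ L₀, ∀ (A : Type) [MulAction G A] (S : Sys M A), S.θ = θ → L₀ ≤ S.L →
      (∀ a p q, S.On a p → S.On a q → ∃ i : ℤ, M.d q (p * h ^ i) ≤ K) → S.Mq.Free := by
  obtain ⟨k, A, k1, k2, k3⟩ := hF
  obtain ⟨c, c1, c2, c3⟩ := avoid k1 k2 hh (K + A + 3 * θ)
  let k' : List Bool → G := fun w => k (w.flatMap c)
  have j1 : ∀ w w', k' (w ++ w') = k' w * k' w' := by
    intro w w'; simp only [k', List.flatMap_append, k1]
  have j3 : ∀ w w', M.l (k' w) + M.l (k' w') ≤ M.l (k' (w ++ w')) + A := by
    intro w w'; simp only [k', List.flatMap_append, k3]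
  have j4 : ∀ b, k' [b] = k (c b) := by intro b; simp [k']
  set σ := M.l (k' [true]) + M.l (k' [false]) with hσ
  have j5 : ∀ b, M.l (k' [b]) ≤ σ := by intro b; cases b <;> omega
  have cut : ∀ w s, s + σ < M.l (k' w) → ∃ w₁ b w₂, w = w₁ ++ b :: w₂ ∧ s ≤ M.l (k' w₁) ∧
      M.l (k' w₁) ≤ s + σ := by
    intro w s
    induction w using List.reverseRecOn with
    | nil => intro hs; have := j1 [] []; simp at this; rw [this, M.l_one] at hs; omega
    | append_singleton w b ih =>
      intro hs
      by_cases h' : s + σ < M.l (k' w)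
      · obtain ⟨w₁, b', w₂, e, h1⟩ := ih h'
        exact ⟨w₁, b', w₂ ++ [b], by simp [e], h1⟩
      · have := M.l_mul (k' w) (k' [b])
        have := j5 b
        rw [j1] at hs
        exact ⟨w, b, [], rfl, by omega, by omega⟩
  refine ⟨4 * (A + 2 * σ + 2 * θ), fun T _ S hθ hL hK => ?_⟩
  subst hθ
  have arc : ∀ w a, 4 * S.D a 1 (k' w) ≤ S.L := by
    intro w a
    by_contra hc
    have f1 := S.D_far a 1 (k' w)
    have f2 := Sys.proj a 1 (S.on_pr a (k' w))
    have e0 : S.D a 1 (k' w) = M.d (S.pr a 1) (S.pr a (k' w)) := rfl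
    have hθ := S.θ_pos
    obtain ⟨w₁, b, w₂, e, h1, h2⟩ := cut w (M.d 1 (S.pr a 1) + A) (by rw [← M.d_one]; omega)
    have near : ∀ u v, w = u ++ v → M.d 1 (S.pr a 1) ≤ M.l (k' u) →
        M.l (k' u) ≤ M.d 1 (S.pr a 1) + A + 2 * σ → M.d (k' u) (S.pr a (k' u)) ≤ A + 3 * S.θ := by
      intro u v e h1 h2
      have b0 := j3 u v
      rw [← M.d_right (k' u) (k' v), ← j1, ← e, ← M.d_one, ← M.d_one] at b0
      rw [← M.d_one] at h1 h2
      have t := M.d_tri 1 (S.pr a 1) (S.pr a (k' w))
      have b1 := S.hyp.bt_left (q := S.pr a (k' w)) (e := S.θ) b0 (by omega) (by omega)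
      have b2 := S.hyp.bt_right (c := A + 2 * S.θ) (y := S.pr a (k' w)) (by omega) h1
      have b3 := S.qc a (k' u) _ _ (S.on_pr a 1) (S.on_pr a (k' w))
      have := M.d_comm (S.pr a 1) (k' u)
      omega
    have n1 := near w₁ (b :: w₂) e (by omega) (by omega)
    have n2 := near (w₁ ++ [b]) w₂ (by simp [e]) (by have := j3 w₁ [b]; omega) (by
      have := M.l_mul (k' w₁) (k' [b])
      have := j5 b
      rw [j1]; omega)
    rw [j1, j4] at n2
    obtain ⟨i, hi⟩ := hK a _ _ (S.on_pr a (k' w₁)) (S.on_pr a (k' w₁ * k (c b)))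
    refine c3 b ((k' w₁)⁻¹ * S.pr a (k' w₁)) ((S.pr a (k' w₁) * h ^ i)⁻¹ * (k' w₁ * k (c b))) i
      (by change M.d _ _ ≤ _; omega) ?_ (by group)
    change M.d _ _ ≤ _
    have := M.d_tri (S.pr a (k' w₁) * h ^ i) (S.pr a (k' w₁ * k (c b))) (k' w₁ * k (c b))
    simp only [M.d_comm] at *
    omega
  refine ⟨fun w => S.q (k' w), A, fun w w' => by simp only [j1, map_mul], fun w w' hw => ?_,
    fun w w' => ?_⟩
  · have := S.L_big
    have := S.θ_pos
    have e : k' w = k' w' := Sys.inj_of_arc (arc w) (fun a => by have := arc w' a; omega) hw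
    exact flatMap_inj c1 c2 (k2 e)
  · simp only [Sys.Mq_l, Sys.lq_of_arc (arc _)]
    exact j3 w w'

end step

section free

open FreeGroup

/-- The length of the longest common initial segment. -/
def lcp {α : Type} [DecidableEq α] : List α → List α → ℕ
  | a :: X, b :: Y => if a = b then lcp X Y + 1 else 0
  | _, _ => 0

theorem lcp_ultra {α : Type} [DecidableEq α] : ∀ X Y Z : List α,
    lcp X Y ≤ lcp X Z ∨ lcp Y Z ≤ lcp X Z
  | [], _, _ => by simp [lcp]
  | _ :: _, [], _ => by simp [lcp]
  | _ :: _, _ :: _, [] => by simp [lcp]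
  | a :: X, b :: Y, c :: Z => by
    have := lcp_ultra X Y Z
    simp only [lcp]
    split_ifs <;> simp_all

theorem lcp_take {α : Type} [DecidableEq α] : ∀ (s : ℕ) (X : List α), s ≤ X.length →
    lcp (X.take s) X = s
  | 0, _, _ => by simp [lcp]
  | _ + 1, [], h => by simp at h
  | s + 1, a :: X, h => by simp [lcp, lcp_take s X (by simpa using h)]

theorem norm_red {X : List (Bool × Bool)} (h : IsReduced X) : norm (mk X) = X.length := by
  rw [FreeGroup.norm, toWord_mk, h.reduce_eq]

theorem isReduced_invRev {X : List (Bool × Bool)} (h : IsReduced X) : IsReduced (invRev X) := by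
  rw [isReduced_iff_reduce_eq, reduce_invRev, h.reduce_eq]

theorem norm_lcp : ∀ X Y : List (Bool × Bool), IsReduced X → IsReduced Y →
    norm ((mk X)⁻¹ * mk Y) + 2 * lcp X Y = X.length + Y.length
  | [], Y, _, hY => by simp [lcp, ← one_eq_mk, norm_red hY]
  | a :: X, [], hX, _ => by
    rw [← one_eq_mk, mul_one, norm_inv_eq, norm_red hX]; simp [lcp]
  | a :: X, b :: Y, hX, hY => by
    by_cases hab : a = b
    · subst hab
      have := norm_lcp X Y (List.IsChain.tail hX) (List.IsChain.tail hY)
      have e : (mk (a :: X))⁻¹ * mk (a :: Y) = (mk X)⁻¹ * mk Y := by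
        rw [← List.singleton_append, ← List.singleton_append (l := Y), ← mul_mk, ← mul_mk]
        group
      simp only [e, lcp, if_true, List.length_cons]
      omega
    · rw [inv_mk, mul_mk, norm_red]
      · simp [lcp, hab]
      · refine List.IsChain.append (isReduced_invRev hX) hY ?_
        obtain ⟨a1, a2⟩ := a
        obtain ⟨b1, b2⟩ := b
        simp only [invRev, List.map_cons, List.reverse_cons, List.getLast?_append,
          List.getLast?_singleton, Option.some_or, Option.mem_def, Option.some.injEq,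
          List.head?_cons, forall_eq']
        rintro rfl
        cases a2 <;> cases b2 <;> simp_all

theorem norm_lcp' (x y : FreeGroup Bool) :
    norm (x⁻¹ * y) + 2 * lcp x.toWord y.toWord = norm x + norm y := by
  have := norm_lcp _ _ (isReduced_toWord (x := x)) (isReduced_toWord (x := y))
  rwa [mk_toWord, mk_toWord] at this

/-- The free group of rank two with its word norm. -/
def MF : Nm (FreeGroup Bool) where
  l := norm
  l_one := norm_one
  l_inv := fun _ => norm_inv_eq
  l_mul := norm_mul_le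
  l_eq := fun _ h => norm_eq_zero.mp h
  fin := fun R => ((List.finite_length_le (Bool × Bool) R).image mk).subset
    (fun x hx => ⟨x.toWord, hx, mk_toWord⟩)
  geo := by
    intro x s hs
    have h1 : IsReduced (x.toWord.take s) := List.IsChain.take isReduced_toWord s
    have h2 := norm_lcp _ _ h1 (isReduced_toWord (x := x))
    have h3 : (x.toWord.take s).length = s := List.length_take_of_le hs
    rw [lcp_take s _ hs, mk_toWord, h3] at h2
    refine ⟨mk (x.toWord.take s), by rw [norm_red h1, h3], ?_⟩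
    rw [norm_red h1, h3]
    change _ = x.toWord.length
    omega

theorem MF_hyp : MF.Hyp 0 := by
  intro x y z w
  rw [← MF.d_mul w⁻¹ x y, ← MF.d_mul w⁻¹ z w, ← MF.d_mul w⁻¹ x z, ← MF.d_mul w⁻¹ y w,
    ← MF.d_mul w⁻¹ x w, ← MF.d_mul w⁻¹ y z, inv_mul_cancel, MF.d_comm (w⁻¹ * y) (w⁻¹ * z),
    MF.d_comm _ 1, MF.d_comm _ 1, MF.d_comm _ 1, MF.d_one, MF.d_one, MF.d_one]
  have h1 := norm_lcp' (w⁻¹ * x) (w⁻¹ * y)
  have h2 := norm_lcp' (w⁻¹ * x) (w⁻¹ * z)
  have h3 := norm_lcp' (w⁻¹ * z) (w⁻¹ * y)
  have h4 := lcp_ultra (w⁻¹ * x).toWord (w⁻¹ * z).toWord (w⁻¹ * y).toWord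
  simp only [Nm.d, MF]
  omega

theorem MF_free : MF.Free := by
  have h : ∀ w : List Bool, IsReduced (w.map (fun b => (b, true))) := by
    intro w
    induction w with
    | nil => simp
    | cons b w ih => cases w <;> simp_all
  refine ⟨fun w => mk (w.map (fun b => (b, true))), 0, fun w w' => by simp, fun w w' hw => ?_,
    fun w w' => ?_⟩
  · have := congrArg toWord hw
    simp only [toWord_mk, (h _).reduce_eq] at this
    exact List.map_injective_iff.mpr (fun a b hab => (Prod.mk.inj hab).1) this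
  · simp only [MF, norm_red (h _)]; simp

theorem MF_sph : MF.Sph 0 := by
  intro r _ t
  have hp : ∀ x, ∃ z, t - r ≤ MF.d 1 x → MF.d 1 z = t - r ∧ MF.d 1 z + MF.d z x = MF.d 1 x := by
    intro x
    by_cases h : t - r ≤ MF.d 1 x
    · obtain ⟨z, hz⟩ := MF.d_geo 1 x _ h
      exact ⟨z, fun _ => hz⟩
    · exact ⟨1, fun h' => absurd h' h⟩
  choose p hp using hp
  refine (Col.zero MF.pm Set.univ 0).pull p (by simp) (fun x hx y hy h => ?_)
    (fun x hx y hy h => ?_)
  all_goals
    simp only [Set.mem_ofPred_eq, ← MF.d_one] at hx hy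
    obtain ⟨a1, a2⟩ := hp x (by omega)
    obtain ⟨b1, b2⟩ := hp y (by omega)
  · have k1 := MF_hyp (p x) y 1 x
    have k2 := MF_hyp (p x) (p y) 1 y
    have k3 := MF.d_tri (p x) 1 (p y)
    have k4 := MF.d_tri 1 (p x) y
    simp only [MF.d_comm] at *
    omega
  · have := MF.d_tri x (p x) y
    have := MF.d_tri (p x) (p y) y
    have := MF.d_comm x (p x)
    omega

end free

end Pool.Agent.TorAN
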