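import Pool.Agent.P.MP_aa4716_al.Free
import Pool.Agent.P.MP_aa4716_al.Axis
import Pool.Agent.P.MP_aa4716_al.DimStep

set_option autoImplicit false

namespace Pool.Agent.TorAN

/-- One stage of the construction: a hyperbolic quotient of the free group with invariants. -/
structure Stage where
  G : Type
  [grp : Group G]
  M : Nm G
  π : FreeGroup Bool →* G
  surj : Function.Surjective π
  δ : ℕ
  hyp : M.Hyp δ
  D : ℕ
  sph : M.Sph D
  free : M.Free

attribute [instance] Stage.grp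

namespace Stage

/-- The pseudo-norm on the free group. -/
def p (s : Stage) (w : FreeGroup Bool) : ℕ := s.M.l (s.π w)

/-- The pseudo-metric on the free group. -/
def d (s : Stage) (x y : FreeGroup Bool) : ℕ := s.p (x⁻¹ * y)

theorem d_eq (s : Stage) (x y : FreeGroup Bool) : s.d x y = s.M.d (s.π x) (s.π y) := by
  simp [d, p, Nm.d]

theorem pm (s : Stage) : PM s.d :=
  ⟨fun x => by rw [d_eq, Nm.d_self], fun x y => by rw [d_eq, d_eq, Nm.d_comm],
    fun x y z => by rw [d_eq, d_eq, d_eq]; exact s.M.d_tri _ _ _⟩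

theorem p_mul (s : Stage) (x y : FreeGroup Bool) : s.p (x * y) ≤ s.p x + s.p y := by
  unfold p; rw [map_mul]; exact s.M.l_mul _ _

theorem p_inv (s : Stage) (x : FreeGroup Bool) : s.p x⁻¹ = s.p x := by
  unfold p; rw [map_inv, s.M.l_inv]

theorem p_zero (s : Stage) {x : FreeGroup Bool} : s.p x = 0 ↔ s.π x = 1 :=
  ⟨s.M.l_eq _, fun h => by unfold p; rw [h, s.M.l_one]⟩

theorem step (s : Stage) (x : FreeGroup Bool) (I C : ℕ) : ∃ s' : Stage,
    (∀ w, s'.p w ≤ s.p w) ∧ (∀ w, ∃ w', s'.π w' = s'.π w ∧ s.p w' = s'.p w) ∧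
    (∀ w, s.p w ≤ I + C * s'.D → s'.p w = s.p w) ∧ IsOfFinOrder (s'.π x) := by
  by_cases hx : IsOfFinOrder (s.π x)
  · exact ⟨s, fun _ => le_rfl, fun w => ⟨w, rfl, rfl⟩, fun _ _ => rfl, hx⟩
  obtain ⟨A, _, θ, K, h, hh, hS⟩ := s.M.exists_sys s.hyp hx
  obtain ⟨D', L₁, -, h1⟩ := sph_step s.sph θ
  obtain ⟨L₂, h2⟩ := free_step s.free θ K hh
  obtain ⟨S, e, hL, ⟨n, hn, hN⟩, hK⟩ := hS (L₁ + L₂ + 2 * (I + C * D') + 15 * θ + 1)
  refine ⟨{ G := s.G ⧸ S.N, M := S.Mq, π := S.q.comp s.π, surj := ?_, δ := _, hyp := Sys.hyp_q,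
            D := D', sph := h1 A S e (by omega), free := h2 A S e (by omega) hK }, ?_, ?_, ?_, ?_⟩
  · intro y
    obtain ⟨g, rfl⟩ := S.q_surj y
    obtain ⟨w, rfl⟩ := s.surj g
    exact ⟨w, rfl⟩
  · intro w; exact S.lq_le _
  · intro w
    obtain ⟨g, h3, h4⟩ := S.lq_lift (S.q (s.π w))
    obtain ⟨w', rfl⟩ := s.surj g
    exact ⟨w', h3, h4⟩
  · intro w hw
    have := Sys.iso (S := S) (x := 1) (y := s.π w) (by
      rw [Nm.d_one]; unfold p at hw; simp only at hw; omega)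
    rwa [S.dq_one, Nm.d_one] at this
  · exact isOfFinOrder_iff_pow_eq_one.mpr ⟨n, hn, by
      change S.q (s.π x) ^ n = 1
      rw [← map_pow]; exact S.q_N hN⟩

end Stage

/-- The base stage. -/
def stage0 : Stage :=
  { G := FreeGroup Bool, M := MF, π := MonoidHom.id _, surj := Function.surjective_id, δ := 0,
    hyp := MF_hyp, D := 0, sph := MF_sph, free := MF_free }

/-- An infinite sequence of stages with growing injectivity radii. -/
structure Tower where
  s : ℕ → Stage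
  I : ℕ → ℕ
  D0 : (s 0).D = 0
  inc : ∀ j, I j < I (j + 1)
  big : ∀ j, 2 * (KK 80 4 * (KK 80 4 + 2)) * (s (j + 1)).D ≤ I (j + 1)
  le : ∀ j w, (s (j + 1)).p w ≤ (s j).p w
  lift : ∀ j w, ∃ w', (s (j + 1)).π w' = (s (j + 1)).π w ∧ (s j).p w' = (s (j + 1)).p w
  iso : ∀ j w, (s j).p w ≤ I (j + 1) → (s (j + 1)).p w = (s j).p w
  tor : ∀ x, ∃ j, IsOfFinOrder ((s j).π x)

theorem exists_tower : Nonempty Tower := by
  obtain ⟨e, he⟩ := exists_surjective_nat (FreeGroup Bool)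
  choose f f1 f2 f3 f4 using fun (s : Stage) x I =>
    s.step x I (2 * (KK 80 4 * (KK 80 4 + 2)))
  let T : ℕ → Stage × ℕ := fun j => Nat.rec (stage0, 0) (fun j t =>
    (f t.1 (e j) (t.2 + 1), t.2 + 1 + 2 * (KK 80 4 * (KK 80 4 + 2)) * (f t.1 (e j) (t.2 + 1)).D)) j
  refine ⟨⟨fun j => (T j).1, fun j => (T j).2, rfl, fun j => ?_, fun j => Nat.le_add_left _ _,
    fun j => f1 _ _ _, fun j => f2 _ _ _, fun j => f3 _ _ _, fun x => ?_⟩⟩
  · exact lt_of_lt_of_le (Nat.lt_succ_self _) (Nat.le_add_right _ _)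
  · obtain ⟨j, rfl⟩ := he x
    exact ⟨j + 1, f4 _ _ _⟩

namespace Tower

variable (T : Tower)

theorem le' {j l : ℕ} (h : j ≤ l) (w : FreeGroup Bool) : (T.s l).p w ≤ (T.s j).p w := by
  induction h with
  | refl => rfl
  | step _ ih => exact (T.le _ w).trans ih

theorem eq' {j l : ℕ} (h : j ≤ l) {w w' : FreeGroup Bool} (e : (T.s j).π w' = (T.s j).π w) :
    (T.s l).π w' = (T.s l).π w := by
  have h1 : (T.s j).p (w⁻¹ * w') = 0 := by rw [Stage.p_zero, map_mul, map_inv, e, inv_mul_cancel]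
  have h2 := T.le' h (w⁻¹ * w')
  rw [h1, Nat.le_zero, Stage.p_zero, map_mul, map_inv, inv_mul_eq_one] at h2
  exact h2.symm

theorem lift' {j l : ℕ} (h : j ≤ l) (w : FreeGroup Bool) :
    ∃ w', (T.s l).π w' = (T.s l).π w ∧ (T.s j).p w' = (T.s l).p w := by
  induction h generalizing w with
  | refl => exact ⟨w, rfl, rfl⟩
  | step _ ih =>
    obtain ⟨w1, h1, h2⟩ := T.lift _ w
    obtain ⟨w2, h3, h4⟩ := ih w1
    exact ⟨w2, (T.eq' (Nat.le_succ _) h3).trans h1, h4.trans h2⟩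

theorem inc' : StrictMono T.I := strictMono_nat_of_lt_succ T.inc

theorem iso' {j l : ℕ} (h : j ≤ l) {w : FreeGroup Bool} (hw : (T.s j).p w ≤ T.I (j + 1)) :
    (T.s l).p w = (T.s j).p w := by
  induction h with
  | refl => rfl
  | step h ih =>
    rw [T.iso _ w (by rw [ih]; exact hw.trans (T.inc'.monotone (Nat.succ_le_succ h))), ih]

theorem col0 (l : ℕ) {r : ℕ} (hr : (T.s l).D ≤ r) :
    Col (T.s l).d (Bool × Bool) Set.univ r (80 * r) :=
  ((T.s l).sph.all hr).pull (T.s l).π (by simp) (fun x _ y _ h => by rwa [← Stage.d_eq])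
    (fun x _ y _ h => by rwa [Stage.d_eq])

theorem col (l k : ℕ) : ∀ j, j + k = l → ∀ r, (T.s j).D ≤ r →
    Col (T.s l).d (Bool × Bool) Set.univ r (KK 80 4 * r) := by
  have h80 : 80 ≤ KK 80 4 := by simp [KK]
  induction k with
  | zero =>
    rintro j rfl r hr
    exact (T.col0 j hr).mono le_rfl le_rfl (Nat.mul_le_mul_right _ h80)
  | succ k ih =>
    intro j hj r hr
    by_cases h1 : (T.s (j + 1)).D ≤ r
    · exact ih (j + 1) (by omega) r h1
    have hb := T.big j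
    set R := (KK 80 4 + 2) * (T.s (j + 1)).D with hR
    obtain ⟨χ, hχ⟩ := ih (j + 1) (by omega) R (Nat.le_mul_of_pos_left _ (by omega))
    let enc : Bool × Bool → ℕ := fun c => 2 * c.1.toNat + c.2.toNat
    have enc1 : ∀ c, enc c < 4 := by decide
    have enc2 : ∀ c c', enc c = enc c' → c = c' := by decide
    have pm := (T.s l).pm
    refine Col.fin_union pm (fun x => enc (χ x)) (R := R) 4 _ (fun x _ => enc1 _)
      (Nat.mul_le_mul_left _ (by omega)) (fun i r' h2 h3 => Col.comp pm h3 (fun x hx => ?_))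
    choose w w1 w2 using fun y => T.lift' (j := j) (l := l) (by omega) (x⁻¹ * y)
    have key : ∀ y z, Ch (T.s l).d {x | x ∈ Set.univ ∧ enc (χ x) = i} R x y →
        Ch (T.s l).d {x | x ∈ Set.univ ∧ enc (χ x) = i} R x z →
        (T.s j).d (w y) (w z) = (T.s l).d y z := by
      have k0 : ∀ y, Ch (T.s l).d {x | x ∈ Set.univ ∧ enc (χ x) = i} R x y →
          (T.s j).p (w y) ≤ KK 80 4 * R := by
        intro y hy
        rw [w2]
        exact hχ (χ x) x ⟨trivial, rfl⟩ y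
          (hy.mono (fun z hz => by exact ⟨trivial, enc2 _ _ (hz.2.trans hx.2.symm)⟩) le_rfl)
      intro y z hy hz
      have k1 := k0 y hy
      have k2 := k0 z hz
      have k3 := (T.s j).p_mul (w y)⁻¹ (w z)
      rw [Stage.p_inv] at k3
      have k4 : 2 * (KK 80 4 * R) ≤ T.I (j + 1) := by
        rw [hR, ← mul_assoc (KK 80 4), ← mul_assoc]; exact hb
      unfold Stage.d
      rw [← T.iso' (j := j) (l := l) (by omega) (by omega)]
      unfold Stage.p
      rw [map_mul, map_inv, w1, w1]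
      simp [mul_assoc]
    exact (T.col0 j (r := r') (by omega)).pull w (by simp)
      (fun y hy z hz h => by rw [key y z hy hz]; exact h)
      (fun y hy z hz h => by rw [← key y z hy hz]; exact h)

/-- The limit pseudo-norm. -/
noncomputable def p (w : FreeGroup Bool) : ℕ := sInf {n | ∃ j, (T.s j).p w = n}

theorem p_le (j : ℕ) (w : FreeGroup Bool) : T.p w ≤ (T.s j).p w := Nat.sInf_le ⟨j, rfl⟩

theorem p_ev (w : FreeGroup Bool) : ∃ j, ∀ l, j ≤ l → (T.s l).p w = T.p w := by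
  obtain ⟨j, hj⟩ := Nat.sInf_mem (s := {n | ∃ j, (T.s j).p w = n}) ⟨_, 0, rfl⟩
  exact ⟨j, fun l hl => le_antisymm ((T.le' hl w).trans (le_of_eq hj)) (T.p_le l w)⟩

theorem p_iso {j : ℕ} {w : FreeGroup Bool} (hw : (T.s j).p w ≤ T.I (j + 1)) :
    T.p w = (T.s j).p w := by
  obtain ⟨l, hl⟩ := T.p_ev w
  rw [← hl (l + j) (by omega), T.iso' (by omega) hw]

theorem p_mul (x y : FreeGroup Bool) : T.p (x * y) ≤ T.p x + T.p y := by
  obtain ⟨j, hj⟩ := T.p_ev x
  obtain ⟨l, hl⟩ := T.p_ev y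
  rw [← hj (j + l) (by omega), ← hl (j + l) (by omega)]
  exact (T.p_le _ _).trans (Stage.p_mul _ _ _)

theorem p_inv (x : FreeGroup Bool) : T.p x⁻¹ = T.p x := by
  simp only [p, Stage.p_inv]

theorem p_of_eq {j : ℕ} {x : FreeGroup Bool} (h : (T.s j).π x = 1) : T.p x = 0 := by
  have := T.p_le j x
  rw [(T.s j).p_zero.mpr h] at this
  omega

/-- The kernel of the limit pseudo-norm. -/
def K : Subgroup (FreeGroup Bool) where
  carrier := {w | T.p w = 0}
  one_mem' := T.p_of_eq (j := 0) (map_one _)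
  mul_mem' := fun {x y} hx hy => by
    have := T.p_mul x y
    simp only [Set.mem_ofPred_eq] at *
    omega
  inv_mem' := fun {x} hx => by simpa only [Set.mem_ofPred_eq, p_inv] using hx

instance K_normal : T.K.Normal := by
  constructor
  intro n hn g
  obtain ⟨j, hj⟩ := T.p_ev n
  have h1 : (T.s j).π n = 1 := (T.s j).p_zero.mp ((hj j le_rfl).trans hn)
  exact T.p_of_eq (j := j) (by simp [h1])

/-- The norm on the limit group. -/
noncomputable def l (y : FreeGroup Bool ⧸ T.K) : ℕ := T.p y.out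

theorem l_mk (w : FreeGroup Bool) : T.l (w : FreeGroup Bool ⧸ T.K) = T.p w := by
  have h1 : T.p (w⁻¹ * (w : FreeGroup Bool ⧸ T.K).out) = 0 :=
    QuotientGroup.eq.mp (QuotientGroup.out_eq' (w : FreeGroup Bool ⧸ T.K)).symm
  have h2 := T.p_mul w (w⁻¹ * (w : FreeGroup Bool ⧸ T.K).out)
  have h3 := T.p_mul ((w : FreeGroup Bool ⧸ T.K).out) (w⁻¹ * (w : FreeGroup Bool ⧸ T.K).out)⁻¹
  rw [p_inv] at h3
  simp only [mul_inv_rev, inv_inv, mul_inv_cancel_left] at h2 h3
  unfold l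
  omega

theorem mk_eq {j : ℕ} {x y : FreeGroup Bool} (h : (T.s j).π x = (T.s j).π y) :
    (x : FreeGroup Bool ⧸ T.K) = y :=
  QuotientGroup.eq.mpr (T.p_of_eq (j := j) (by rw [map_mul, map_inv, h, inv_mul_cancel]))

/-- The limit group as a normed group. -/
noncomputable def M : Nm (FreeGroup Bool ⧸ T.K) where
  l := T.l
  l_one := by rw [← QuotientGroup.mk_one, l_mk]; exact T.K.one_mem
  l_inv := by
    intro y
    obtain ⟨x, rfl⟩ := QuotientGroup.mk_surjective y
    rw [← QuotientGroup.mk_inv, l_mk, l_mk, p_inv]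
  l_mul := by
    intro y y'
    obtain ⟨x, rfl⟩ := QuotientGroup.mk_surjective y
    obtain ⟨x', rfl⟩ := QuotientGroup.mk_surjective y'
    rw [← QuotientGroup.mk_mul, l_mk, l_mk, l_mk]
    exact T.p_mul _ _
  l_eq := by
    intro y hy
    obtain ⟨x, rfl⟩ := QuotientGroup.mk_surjective y
    rw [l_mk] at hy
    exact (QuotientGroup.eq_one_iff x).mpr hy
  fin := by
    intro R
    choose σ hσ using (T.s 0).surj
    refine (((T.s 0).M.fin R).image (fun g => (σ g : FreeGroup Bool ⧸ T.K))).subset ?_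
    intro y hy
    obtain ⟨x, rfl⟩ := QuotientGroup.mk_surjective y
    obtain ⟨j, hj⟩ := T.p_ev x
    obtain ⟨w, h1, h2⟩ := T.lift' (Nat.zero_le j) x
    refine ⟨(T.s 0).π w, ?_, (T.mk_eq (hσ _)).trans (T.mk_eq h1)⟩
    simp only [Set.mem_ofPred_eq, l_mk] at hy
    exact le_trans (le_of_eq (h2.trans (hj j le_rfl))) hy
  geo := by
    intro y s hs
    obtain ⟨x, rfl⟩ := QuotientGroup.mk_surjective y
    rw [l_mk] at hs
    obtain ⟨j, hj⟩ := T.p_ev x
    have h1 := hj (j + T.p x) (by omega)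
    have h2 := T.inc'.le_apply (x := j + T.p x + 1)
    obtain ⟨z, h3, h4⟩ := (T.s (j + T.p x)).M.geo ((T.s (j + T.p x)).π x) s (le_trans hs (le_of_eq h1.symm))
    obtain ⟨v, rfl⟩ := (T.s (j + T.p x)).surj z
    rw [← map_inv, ← map_mul] at h4
    change (T.s (j + T.p x)).p v = s at h3
    change (T.s (j + T.p x)).p v + (T.s (j + T.p x)).p (v⁻¹ * x) = (T.s (j + T.p x)).p x at h4
    refine ⟨v, by rw [l_mk, T.p_iso (j := j + T.p x) (by omega), h3], ?_⟩
    rw [← QuotientGroup.mk_inv, ← QuotientGroup.mk_mul, l_mk, l_mk, l_mk,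
      T.p_iso (j := j + T.p x) (w := v) (by omega),
      T.p_iso (j := j + T.p x) (w := v⁻¹ * x) (by omega), h4, h1]

theorem infinite : Infinite (FreeGroup Bool ⧸ T.K) := by
  refine Infinite.of_surjective T.l (fun t => ?_)
  obtain ⟨k, A, -, k2, -⟩ := (T.s t).free
  obtain ⟨w, hw⟩ : ∃ w, t ≤ (T.s t).M.l (k w) := by
    by_contra hn
    push Not at hn
    exact Set.infinite_of_injective_forall_mem k2 (s := {x | (T.s t).M.l x ≤ t})
      (fun n => (hn n).le) ((T.s t).M.fin _)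
  obtain ⟨z, h1, -⟩ := (T.s t).M.geo _ t hw
  obtain ⟨v, rfl⟩ := (T.s t).surj z
  have h2 := T.inc'.le_apply (x := t + 1)
  change (T.s t).p v = t at h1
  exact ⟨v, by rw [l_mk, T.p_iso (j := t) (by omega), h1]⟩

theorem torsion (y : FreeGroup Bool ⧸ T.K) : IsOfFinOrder y := by
  obtain ⟨x, rfl⟩ := QuotientGroup.mk_surjective y
  obtain ⟨j, hj⟩ := T.tor x
  obtain ⟨n, hn, h⟩ := isOfFinOrder_iff_pow_eq_one.mp hj
  refine isOfFinOrder_iff_pow_eq_one.mpr ⟨n, hn, ?_⟩
  rw [← QuotientGroup.mk_pow]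
  exact (QuotientGroup.eq_one_iff _).mpr (T.p_of_eq (j := j) (by rw [map_pow, h]))

theorem col_lim (r : ℕ) : Col T.M.d (Bool × Bool) Set.univ r (KK 80 4 * r) := by
  choose χ hχ using fun l => T.col l l 0 (by omega) r (by rw [T.D0]; omega)
  let U := Filter.hyperfilter ℕ
  have h1 : ∀ x, ∃ c, ∀ᶠ l in (U : Filter ℕ), χ l x = c := by
    intro x
    obtain ⟨c, hc⟩ := Ultrafilter.eq_pure_of_finite (U.map (fun l => χ l x))
    refine ⟨c, ?_⟩
    have : {c} ∈ U.map (fun l => χ l x) := by rw [hc]; simp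
    exact this
  choose c hc using h1
  have h2 : Col (fun x y => T.p (x⁻¹ * y)) (Bool × Bool) Set.univ r (KK 80 4 * r) := by
    refine ⟨c, fun i x hx y hy => ?_⟩
    have key : ∀ᶠ l in (U : Filter ℕ), Ch (T.s l).d {z | z ∈ Set.univ ∧ χ l z = i} r x y := by
      induction hy with
      | refl => exact Filter.Eventually.of_forall (fun _ => Relation.ReflTransGen.refl)
      | @tail u v _ hs ih =>
        obtain ⟨j, hj⟩ := T.p_ev (u⁻¹ * v)
        have h3 : ∀ᶠ l in (U : Filter ℕ), j ≤ l :=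
          Nat.hyperfilter_le_atTop (Filter.eventually_ge_atTop j)
        filter_upwards [ih, hc u, hc v, h3] with l a1 a2 a3 a4
        exact a1.tail ⟨⟨trivial, a2.trans hs.1.2⟩, ⟨trivial, a3.trans hs.2.1.2⟩,
          (le_of_eq (hj l a4)).trans hs.2.2⟩
    obtain ⟨l, a1, a2⟩ := (key.and (hc x)).exists
    exact (T.p_le l _).trans (hχ l i x ⟨trivial, a2.trans hx.2⟩ y a1)
  have h3 : ∀ x y : FreeGroup Bool ⧸ T.K, T.p (x.out⁻¹ * y.out) = T.M.d x y := by
    intro x y
    rw [← l_mk, QuotientGroup.mk_mul, QuotientGroup.mk_inv, QuotientGroup.out_eq',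
      QuotientGroup.out_eq']
    rfl
  exact h2.pull Quotient.out (by simp) (fun x _ y _ h => by rw [← h3] at h; exact h)
    (fun x _ y _ h => by rw [← h3]; exact h)

end Tower

namespace Nm

variable {G : Type} [Group G] (M : Nm G)

theorem exists_gen : ∃ S : Finset G, Subgroup.closure (S : Set G) = ⊤ ∧ ∀ x y,
    (SimpleGraph.fromRel (fun x y : G => x⁻¹ * y ∈ (S : Set G))).dist x y = M.d x y := by
  refine ⟨M.ball 1, ?_, ?_⟩
  · rw [eq_top_iff]
    rintro x -
    induction h : M.l x generalizing x with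
    | zero => rw [M.l_eq x h]; exact Subgroup.one_mem _
    | succ n ih =>
      obtain ⟨z, h1, h2⟩ := M.geo x n (by omega)
      have := Subgroup.mul_mem _ (ih h1)
        (Subgroup.subset_closure (show z⁻¹ * x ∈ (M.ball 1 : Set G) by
          rw [Finset.mem_coe, M.mem_ball]; omega))
      simpa using this
  · set Γ := SimpleGraph.fromRel (fun x y : G => x⁻¹ * y ∈ (M.ball 1 : Set G)) with hΓ
    have h1 : ∀ n x y, M.d x y = n → ∃ w : Γ.Walk x y, w.length = n := by
      intro n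
      induction n with
      | zero => intro x y h; obtain rfl := M.d_eq h; exact ⟨SimpleGraph.Walk.nil, rfl⟩
      | succ n ih =>
        intro x y h
        obtain ⟨z, h1, h2⟩ := M.d_geo x y 1 (by omega)
        obtain ⟨w, hw⟩ := ih z y (by omega)
        have : Γ.Adj x z := by
          rw [hΓ, SimpleGraph.fromRel_adj]
          refine ⟨?_, Or.inl ?_⟩
          · rintro rfl; rw [M.d_self] at h1; omega
          · rw [Finset.mem_coe, M.mem_ball]; exact le_of_eq h1
        exact ⟨SimpleGraph.Walk.cons this w, by simp [hw]⟩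
    have h2 : ∀ x y (w : Γ.Walk x y), M.d x y ≤ w.length := by
      intro x y w
      induction w with
      | nil => rw [M.d_self]; omega
      | @cons u v w h _ ih =>
        rw [hΓ, SimpleGraph.fromRel_adj] at h
        have := M.d_tri u v w
        have := M.d_comm u v
        have : M.d u v ≤ 1 ∨ M.d v u ≤ 1 := by
          simpa only [Finset.mem_coe, M.mem_ball, d] using h.2
        rw [SimpleGraph.Walk.length_cons]
        omega
    intro x y
    obtain ⟨w, hw⟩ := h1 _ x y rfl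
    obtain ⟨w', hw'⟩ := w.reachable.exists_walk_length_eq_dist
    exact le_antisymm (hw ▸ SimpleGraph.dist_le w) (hw' ▸ h2 x y w')

end Nm

theorem Col.cover {α : Type} {d : α → α → ℕ} (hd : PM d) {ρ D : ℕ}
    (h : Col d (Bool × Bool) Set.univ ρ D) : ∃ U : Fin (3 + 1) → Set (Set α),
      (∀ x, ∃ i, ∃ A ∈ U i, x ∈ A) ∧ (∀ i, ∀ A ∈ U i, ∀ x ∈ A, ∀ y ∈ A, d x y ≤ D) ∧
      (∀ i, ∀ A ∈ U i, ∀ B ∈ U i, A ≠ B → ∀ x ∈ A, ∀ y ∈ B, ρ < d x y) := by
  obtain ⟨χ, hχ⟩ := h
  let e : Bool × Bool ≃ Fin (3 + 1) := Fintype.equivFinOfCardEq (by simp)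
  refine ⟨fun i => {A | ∃ x, χ x = e.symm i ∧
    A = {y | Ch d {z | z ∈ Set.univ ∧ χ z = e.symm i} ρ x y}}, fun x => ?_, ?_, ?_⟩
  · exact ⟨e (χ x), _, ⟨x, by simp, rfl⟩, Relation.ReflTransGen.refl⟩
  · rintro i _ ⟨a, ha, rfl⟩ x hx y hy
    exact hχ _ x (Ch.mem (by exact ⟨trivial, ha⟩) hx) y
      (Relation.ReflTransGen.trans (Ch.symm hd hx) hy)
  · rintro i _ ⟨a, ha, rfl⟩ _ ⟨b, hb, rfl⟩ hne x hx y hy
    by_contra hc
    apply hne
    apply Ch.comp_eq hd
    exact Relation.ReflTransGen.trans (Relation.ReflTransGen.tail hx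
      ⟨Ch.mem (by exact ⟨trivial, ha⟩) hx, Ch.mem (by exact ⟨trivial, hb⟩) hy, by omega⟩)
      (Ch.symm hd hy)

end Pool.Agent.TorAN
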