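import Pool.Agent.P.MP_aa4716_al.Basic

set_option autoImplicit false

namespace Pool.Agent.TorAN

namespace Nm

variable {G : Type} [Group G] {M : Nm G} {δ : ℕ}

theorem exists_lox (hyp : M.Hyp δ) {g : G} (hg : ¬ IsOfFinOrder g) :
    ∃ k, 0 < k ∧ M.l (g ^ k) + 2 * δ + 1 ≤ M.l ((g ^ k) ^ 2) := by
  classical
  by_contra hc
  push Not at hc
  have inj : Function.Injective (fun n : ℕ => g ^ n) := injective_pow_iff_not_isOfFinOrder.mpr hg
  have h1 : ∀ j n, n < 2 ^ j → M.l (g ^ n) ≤ (2 * δ + M.l g) * j := by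
    intro j
    induction j with
    | zero =>
      intro n hn
      obtain rfl : n = 0 := by omega
      simp [M.l_one]
    | succ j ih =>
      intro n hn
      have k1 := ih (n / 2) (by rw [pow_succ] at hn; omega)
      have k2 : M.l ((g ^ (n / 2)) ^ 2) ≤ M.l (g ^ (n / 2)) + 2 * δ := by
        rcases Nat.eq_zero_or_pos (n / 2) with h | h
        · rw [h]; simp
        · have := hc _ h; omega
      have k3 : M.l (g ^ (n % 2)) ≤ M.l g := by
        rcases Nat.mod_two_eq_zero_or_one n with h | h <;> simp [h, M.l_one]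
      have k4 := M.l_mul ((g ^ (n / 2)) ^ 2) (g ^ (n % 2))
      rw [← pow_mul, ← pow_add, Nat.div_add_mod' n 2, pow_mul] at k4
      rw [mul_add, mul_one]
      omega
  obtain ⟨j, hj⟩ := exists_lin_lt_pow (2 * (2 * δ + M.l g) * (M.ball (3 * δ)).card)
    (M.ball (3 * δ)).card
  set R := (2 * δ + M.l g) * j with hR
  obtain ⟨K, hK⟩ : ∃ K : ℕ, 2 * R + 2 * δ + 2 ≤ M.l (g ^ K) := by
    by_contra hn
    push Not at hn
    exact Set.infinite_of_injective_forall_mem inj (s := {x | M.l x ≤ 2 * R + 2 * δ + 2})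
      (fun n => (hn n).le) (M.fin _)
  have hpt : ∀ s, ∃ z, s ≤ M.d 1 (g ^ K) →
      M.d 1 z = s ∧ M.d 1 z + M.d z (g ^ K) = M.d 1 (g ^ K) := by
    intro s
    by_cases h : s ≤ M.d 1 (g ^ K)
    · obtain ⟨z, hz⟩ := M.d_geo 1 (g ^ K) s h
      exact ⟨z, fun _ => hz⟩
    · exact ⟨1, fun h' => absurd h' h⟩
  choose pt hpt using hpt
  rw [← M.d_one] at hK
  set s := M.d 1 (g ^ K) / 2 with hs
  obtain ⟨m1, m2⟩ := hpt s (by omega)
  set m := pt s
  have key : ∀ n, n < 2 ^ j → s - R ≤ M.d 1 (g ^ n * m) ∧ M.d 1 (g ^ n * m) ≤ s + R ∧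
      M.d (pt (M.d 1 (g ^ n * m))) (g ^ n * m) ≤ 3 * δ := by
    intro n hn
    have k1 := h1 j n hn
    rw [← hR, ← M.d_one] at k1
    have e1 : M.d (g ^ n) (g ^ n * m) = M.d 1 m := by rw [M.d_right, M.d_one]
    have e2 : M.d (g ^ n * m) (g ^ n * g ^ K) = M.d m (g ^ K) := M.d_mul _ _ _
    have e3 : M.d (g ^ n) (g ^ n * g ^ K) = M.d 1 (g ^ K) := by rw [M.d_right, M.d_one]
    have e4 : M.d (g ^ n * g ^ K) (g ^ K) = M.d 1 (g ^ n) := by
      rw [← pow_add, add_comm, pow_add, M.d_comm, M.d_right, M.d_one]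
    have c1 := M.d_comm 1 (g ^ n)
    have k2 := hyp.stab (u := g ^ n) (u' := 1) (z := g ^ n * m) (v := g ^ n * g ^ K) (c := 0)
      (R := R) (by omega) (by omega) (by omega)
    have c2 := M.d_comm (g ^ n * m) (g ^ n * g ^ K)
    have c3 := M.d_comm (g ^ n * m) 1
    have c4 := M.d_comm (g ^ n * g ^ K) 1
    have k3 := hyp.stab (u := g ^ n * g ^ K) (u' := g ^ K) (z := g ^ n * m) (v := 1) (c := δ)
      (R := R) (by omega) (by omega) (by omega)
    have t1 := M.d_tri 1 (g ^ n) (g ^ n * m)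
    have t2 := M.d_tri (g ^ n) 1 (g ^ n * m)
    obtain ⟨p1, p2⟩ := hpt (M.d 1 (g ^ n * m)) (by omega)
    have k4 := hyp (pt (M.d 1 (g ^ n * m))) (g ^ n * m) 1 (g ^ K)
    have c5 := M.d_comm (pt (M.d 1 (g ^ n * m))) 1
    have c6 := M.d_comm (g ^ K) (g ^ n * m)
    have c7 := M.d_comm (g ^ K) 1
    omega
  have card := Finset.card_le_card_of_injOn (s := Finset.range (2 ^ j))
    (t := Finset.Icc (s - R) (s + R) ×ˢ M.ball (3 * δ))
    (fun n => (M.d 1 (g ^ n * m), (pt (M.d 1 (g ^ n * m)))⁻¹ * (g ^ n * m)))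
    (by
      intro n hn
      obtain ⟨k1, k2, k3⟩ := key n (by simpa using hn)
      simp only [Finset.coe_product, Set.mem_prod, Finset.mem_coe, Finset.mem_Icc, M.mem_ball]
      exact ⟨⟨k1, k2⟩, k3⟩)
    (by
      intro n _ n' _ h
      simp only [Prod.mk.injEq] at h
      obtain ⟨k1, k2⟩ := h
      rw [k1] at k2
      exact inj (mul_right_cancel (mul_left_cancel k2)))
  rw [Finset.card_range, Finset.card_product, Nat.card_Icc] at card
  have : (s + R + 1 - (s - R)) * (M.ball (3 * δ)).card ≤ (2 * R + 1) * (M.ball (3 * δ)).card :=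
    Nat.mul_le_mul_right _ (by omega)
  have e : (2 * R + 1) * (M.ball (3 * δ)).card =
      2 * (2 * δ + M.l g) * (M.ball (3 * δ)).card * j + (M.ball (3 * δ)).card := by
    rw [hR]; ring
  omega

/-- An element whose powers form a local chain. -/
structure Lox (M : Nm G) (δ : ℕ) (h : G) : Prop where
  hyp : M.Hyp δ
  sq : M.l h + 2 * δ + 1 ≤ M.l (h ^ 2)

theorem d_pow (M : Nm G) (h : G) (i j : ℕ) : M.d (h ^ i) (h ^ (i + j)) = M.l (h ^ j) := by
  rw [pow_add, M.d_right]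

theorem l_zpow (M : Nm G) (h : G) (i : ℤ) : M.l (h ^ i) = M.l (h ^ i.natAbs) := by
  rcases Int.natAbs_eq i with e | e
  · conv_lhs => rw [e, zpow_natCast]
  · conv_lhs => rw [e, zpow_neg, zpow_natCast, M.l_inv]

theorem d_zpow (M : Nm G) (h : G) (i j : ℤ) :
    M.d (h ^ i) (h ^ j) = M.l (h ^ (j - i).natAbs) := by
  rw [← l_zpow]; unfold d; congr 1; group

theorem l_pow_le (M : Nm G) (h : G) (n : ℕ) : M.l (h ^ n) ≤ M.l h * n := by
  induction n with
  | zero => simp [M.l_one]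
  | succ n ih => have := M.l_mul (h ^ n) h; rw [pow_succ, mul_add]; omega

namespace Lox

variable {h : G} (X : M.Lox δ h)
include X

theorem step (n : ℕ) : M.l (h ^ (n + 1)) + M.l (h ^ 2) ≤ M.l (h ^ (n + 2)) + M.l h + δ := by
  induction n with
  | zero => simp only [zero_add, pow_one]; omega
  | succ n ih =>
    have k := X.hyp 1 (h ^ (n + 2)) (h ^ (n + 1)) (h ^ (n + 3))
    have e1 := M.d_pow h (n + 1) 2
    have e2 := M.d_pow h (n + 2) 1
    have e3 := M.d_pow h (n + 1) 1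
    have := X.sq
    rw [M.d_comm] at e3
    simp only [M.d_one, pow_one, add_assoc, Nat.reduceAdd] at *
    omega

theorem succ (n : ℕ) : M.l (h ^ n) + 1 ≤ M.l (h ^ (n + 1)) := by
  have := X.sq
  cases n with
  | zero =>
    have := M.l_pow_le h 2
    simp only [pow_zero, M.l_one, zero_add, pow_one]; omega
  | succ n => have := X.step n; simp only [add_assoc, Nat.reduceAdd] at *; omega

theorem mono (i j : ℕ) : M.l (h ^ i) + j ≤ M.l (h ^ (i + j)) := by
  induction j with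
  | zero => simp
  | succ j ih => have := X.succ (i + j); rw [← add_assoc i j 1]; omega

theorem ge (i : ℤ) : i.natAbs ≤ M.l (h ^ i) := by
  have := X.mono 0 i.natAbs
  rw [l_zpow]
  simp only [zero_add] at this
  omega

theorem add (i j : ℕ) : M.l (h ^ i) + M.l (h ^ j) ≤ M.l (h ^ (i + j)) + M.l h := by
  rcases i with _ | i
  · simp [M.l_one]
  rcases j with _ | j
  · simp [M.l_one]
  rcases j with _ | j
  · have := X.succ (i + 1); simp only [zero_add, pow_one]; omega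
  have k := X.hyp 1 (h ^ (i + 2)) (h ^ (i + 1)) (h ^ (i + 1 + (j + 1 + 1)))
  have e1 := M.d_pow h (i + 1) (j + 1 + 1)
  have e2 := M.d_pow h (i + 2) (j + 1)
  have e3 := M.d_pow h (i + 1) 1
  rw [show i + 2 + (j + 1) = i + 1 + (j + 1 + 1) by ring] at e2
  rw [M.d_comm, pow_one] at e3
  have k1 := X.step i
  have k2 := X.step j
  have := X.sq
  simp only [M.d_one, add_assoc, Nat.reduceAdd] at *
  omega

theorem btw {i j k : ℤ} (hb : (i ≤ j ∧ j ≤ k) ∨ (k ≤ j ∧ j ≤ i)) :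
    M.d (h ^ i) (h ^ j) + M.d (h ^ j) (h ^ k) ≤ M.d (h ^ i) (h ^ k) + M.l h := by
  rw [d_zpow, d_zpow, d_zpow, show (k - i).natAbs = (j - i).natAbs + (k - j).natAbs by omega]
  exact X.add _ _

theorem qc (x : G) (k : ℤ) : ∃ j : ℤ,
    2 * M.d x (h ^ j) + M.d 1 (h ^ k) ≤ M.d x 1 + M.d x (h ^ k) + 3 * M.l h + 2 * δ := by
  let e : ℕ → ℤ := fun n => if 0 ≤ k then n else -n
  let P : ℕ → Prop := fun n =>
    M.d x (h ^ e n) + M.d 1 (h ^ k) ≤ M.d x 1 + M.d (h ^ e n) (h ^ k) + δ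
  have h0 : P 0 := by simp [P, e]
  by_cases hN : P k.natAbs
  · refine ⟨k, ?_⟩
    have : e k.natAbs = k := by simp only [e]; split_ifs <;> omega
    simp only [P, this, M.d_self] at hN
    omega
  have : ∀ N, ¬ P N → ∃ n, n < N ∧ P n ∧ ¬ P (n + 1) := by
    intro N
    induction N with
    | zero => intro h; exact absurd h0 h
    | succ N ih =>
      intro h
      by_cases h' : P N
      · exact ⟨N, by omega, h', h⟩
      · obtain ⟨n, h1, h2⟩ := ih h'
        exact ⟨n, by omega, h2⟩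
  obtain ⟨n, h1, h2, h3⟩ := this _ hN
  refine ⟨e n, ?_⟩
  simp only [P] at h2 h3
  have k1 := X.hyp x (h ^ e (n + 1)) 1 (h ^ k)
  have k2 := X.btw (i := 0) (j := e n) (k := k) (by simp only [e]; split_ifs <;> omega)
  have k3 : M.d (h ^ e n) (h ^ e (n + 1)) = M.l h := by
    rw [d_zpow, show (e (n + 1) - e n).natAbs = 1 by simp only [e]; split_ifs <;> omega, pow_one]
  have t1 := M.d_tri x (h ^ e (n + 1)) (h ^ e n)
  have t2 := M.d_tri 1 (h ^ e n) (h ^ e (n + 1))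
  rw [zpow_zero] at k2
  simp only [M.d_comm] at *
  omega

/-- A signed height along the powers. -/
theorem height : ∃ η : ℤ → ℤ, ∀ i j, η j - η i ≤ M.d (h ^ i) (h ^ j) + M.l h ∧
    (i ≤ j → (M.d (h ^ i) (h ^ j) : ℤ) ≤ η j - η i + M.l h) := by
  let η : ℤ → ℤ := fun i => if 0 ≤ i then M.d (h ^ (0 : ℤ)) (h ^ i) else
    -(M.d (h ^ (0 : ℤ)) (h ^ i) : ℤ)
  have key : ∀ i j, i ≤ j → η j - η i ≤ M.d (h ^ i) (h ^ j) + M.l h ∧
      (M.d (h ^ i) (h ^ j) : ℤ) ≤ η j - η i + M.l h := by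
    intro i j hij
    have t1 := M.d_tri (h ^ (0 : ℤ)) (h ^ i) (h ^ j)
    have t2 := M.d_tri (h ^ i) (h ^ (0 : ℤ)) (h ^ j)
    have t3 := M.d_tri (h ^ (0 : ℤ)) (h ^ j) (h ^ i)
    have c1 := M.d_comm (h ^ i) (h ^ (0 : ℤ))
    have c2 := M.d_comm (h ^ j) (h ^ (0 : ℤ))
    have c3 := M.d_comm (h ^ j) (h ^ i)
    simp only [η]
    split_ifs with h1 h2 h2
    · have := X.btw (i := 0) (j := i) (k := j) (by omega); omega
    · have := X.btw (i := i) (j := 0) (k := j) (by omega); omega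
    · omega
    · have := X.btw (i := i) (j := j) (k := 0) (by omega); omega
  refine ⟨η, fun i j => ⟨?_, fun h => (key i j h).2⟩⟩
  rcases le_total i j with h | h
  · exact (key i j h).1
  · have := (key j i h).2
    omega

end Lox

end Nm

/-- The commensurator of the cyclic group generated by `h`. -/
def Com {G : Type} [Group G] (h : G) : Subgroup G where
  carrier := {e | ∃ m n : ℤ, m ≠ 0 ∧ n ≠ 0 ∧ e * h ^ m * e⁻¹ = h ^ n}
  one_mem' := ⟨1, 1, one_ne_zero, one_ne_zero, by simp⟩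
  mul_mem' := by
    rintro e e' ⟨m, n, h1, h2, h3⟩ ⟨m', n', h1', h2', h3'⟩
    refine ⟨m' * m, n * n', mul_ne_zero h1' h1, mul_ne_zero h2 h2', ?_⟩
    calc e * e' * h ^ (m' * m) * (e * e')⁻¹ = e * (e' * h ^ m' * e'⁻¹) ^ m * e⁻¹ := by
          rw [conj_zpow, ← zpow_mul]; group
      _ = (e * h ^ m * e⁻¹) ^ n' := by rw [h3', conj_zpow, ← zpow_mul, ← zpow_mul, mul_comm n' m]
      _ = h ^ (n * n') := by rw [h3, ← zpow_mul]
  inv_mem' := by
    rintro e ⟨m, n, h1, h2, h3⟩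
    exact ⟨n, m, h2, h1, by rw [← h3]; group⟩

theorem zpow_mem_com {G : Type} [Group G] (h : G) (i : ℤ) : h ^ i ∈ Com h :=
  ⟨1, 1, one_ne_zero, one_ne_zero, by group⟩

namespace Nm.Lox

variable {G : Type} [Group G] {M : Nm G} {δ : ℕ} {h : G} (X : M.Lox δ h)
include X

theorem near {e : G} (he : e ∈ Com h) : ∃ j : ℤ, M.d e (h ^ j) ≤ 2 * M.l h + 2 * δ := by
  obtain ⟨m, n, h1, h2, h3⟩ := he
  set k : ℕ := M.l e + M.l h + δ + 1 with hk
  have e0 : ∀ t : ℤ, e * h ^ (m * t) = h ^ (n * t) * e := by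
    intro t; rw [zpow_mul, zpow_mul, ← h3, conj_zpow]; group
  have b := X.btw (i := m * (-k)) (j := 0) (k := m * k) (by
    rcases le_total 0 m with h | h
    · left; constructor <;> nlinarith
    · right; constructor <;> nlinarith)
  have g1 : k ≤ M.d (h ^ (m * (-k))) (h ^ (0 : ℤ)) := by
    rw [M.d_comm, zpow_zero, M.d_one]
    refine le_trans ?_ (X.ge _)
    rw [Int.natAbs_mul, Int.natAbs_neg, Int.natAbs_natCast]
    exact Nat.le_mul_of_pos_left _ (Int.natAbs_pos.mpr h1)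
  have g2 : k ≤ M.d (h ^ (0 : ℤ)) (h ^ (m * k)) := by
    rw [zpow_zero, M.d_one]
    refine le_trans ?_ (X.ge _)
    rw [Int.natAbs_mul, Int.natAbs_natCast]
    exact Nat.le_mul_of_pos_left _ (Int.natAbs_pos.mpr h1)
  rw [← M.d_mul e, e0, zpow_zero, mul_one] at g1 g2
  rw [← M.d_mul e, ← M.d_mul e (h ^ (0 : ℤ)), ← M.d_mul e (h ^ (m * (-k))), e0, e0, zpow_zero,
    mul_one] at b
  have r : ∀ t : ℤ, M.d (h ^ t * e) (h ^ t) = M.l e := fun t => by rw [M.d_comm, M.d_right]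
  have k1 := X.hyp.stab b (r _).le (by omega)
  have c1 := M.d_comm e (h ^ (n * k) * e)
  have c2 := M.d_comm e (h ^ (n * (-k)))
  have c3 := M.d_comm (h ^ (n * k) * e) (h ^ (n * (-k)))
  have k2 := X.hyp.stab (u := h ^ (n * k) * e) (z := e) (v := h ^ (n * (-k))) (c := M.l h + δ)
    (by omega) (r _).le (by omega)
  obtain ⟨j, hj⟩ := X.qc ((h ^ (n * k))⁻¹ * e) (n * (-k) - n * k)
  refine ⟨n * k + j, ?_⟩
  rw [← M.d_mul (h ^ (n * k)), ← M.d_mul (h ^ (n * k)) 1, ← M.d_mul (h ^ (n * k)) _ 1,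
    ← M.d_mul (h ^ (n * k)) _ (h ^ (n * (-k) - n * k)), mul_inv_cancel_left, mul_one, ← zpow_add,
    ← zpow_add, add_sub_cancel] at hj
  have c4 := M.d_comm e (h ^ (n * k))
  omega

theorem sign {e : G} (he : e ∈ Com h) : ∃ m : ℕ, 0 < m ∧
    (e * h ^ m * e⁻¹ = h ^ m ∨ e * h ^ m * e⁻¹ = (h ^ m)⁻¹) := by
  have key : ∀ (e : G) (m n : ℤ), e * h ^ m * e⁻¹ = h ^ n → n.natAbs ≤ m.natAbs := by
    intro e m n h3
    by_contra hc
    set k : ℕ := 2 * M.l e + 1 with hk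
    have e0 : e * h ^ (m * k) * e⁻¹ = h ^ (n * k) := by rw [zpow_mul, zpow_mul, ← h3, conj_zpow]
    have k1 := M.l_mul (e * h ^ (m * k)) e⁻¹
    have k2 := M.l_mul e (h ^ (m * k))
    rw [e0, M.l_inv, l_zpow] at k1
    rw [l_zpow] at k2
    obtain ⟨t, ht⟩ : ∃ t, n.natAbs = m.natAbs + (t + 1) := ⟨n.natAbs - m.natAbs - 1, by omega⟩
    have k3 := X.mono (m.natAbs * k) ((t + 1) * k)
    rw [Int.natAbs_mul, Int.natAbs_natCast] at k1 k2
    rw [← add_mul, ← ht] at k3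
    have : k ≤ (t + 1) * k := Nat.le_mul_of_pos_left _ (by omega)
    omega
  obtain ⟨m, n, h1, h2, h3⟩ := he
  have k1 := key e m n h3
  have k2 := key e⁻¹ n m (by rw [← h3]; group)
  refine ⟨m.natAbs, Int.natAbs_pos.mpr h1, ?_⟩
  rw [← zpow_natCast]
  have h4 : e * h ^ (-m) * e⁻¹ = h ^ (-n) := by rw [zpow_neg, zpow_neg, ← h3]; group
  rw [← zpow_neg]
  rcases Int.natAbs_eq m with a | a <;> rcases Int.natAbs_eq n with b | b
  · left; rw [← a, h3]; congr 1; omega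
  · right; rw [← a, h3]; congr 1; omega
  · right; rw [show (m.natAbs : ℤ) = -m by omega, h4]; congr 1; omega
  · left; rw [show (m.natAbs : ℤ) = -m by omega, h4]; congr 1; omega

theorem exists_normal : ∃ m : ℕ, 0 < m ∧ ∀ e ∈ Com h, ∀ n : ℕ,
    ∀ ρ ∈ Subgroup.zpowers (h ^ (m * n)), e * ρ * e⁻¹ ∈ Subgroup.zpowers (h ^ (m * n)) := by
  have h1 : ∀ e, ∃ m : ℕ, 0 < m ∧ (e ∈ Com h →
      (e * h ^ m * e⁻¹ = h ^ m ∨ e * h ^ m * e⁻¹ = (h ^ m)⁻¹)) := by
    intro e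
    by_cases he : e ∈ Com h
    · obtain ⟨m, h1, h2⟩ := X.sign he
      exact ⟨m, h1, fun _ => h2⟩
    · exact ⟨1, one_pos, fun h => absurd h he⟩
  choose f f1 f2 using h1
  refine ⟨∏ β ∈ M.ball (2 * M.l h + 2 * δ), f β, Finset.prod_pos (fun β _ => f1 β), ?_⟩
  rintro e he n _ ⟨k, rfl⟩
  obtain ⟨j, hj⟩ := X.near he
  have hβ : (h ^ j)⁻¹ * e ∈ M.ball (2 * M.l h + 2 * δ) := by
    rw [M.mem_ball]; rw [M.d_comm] at hj; exact hj
  obtain ⟨t, ht⟩ := Finset.dvd_prod_of_mem f hβ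
  have k1 := f2 _ ((Com h).mul_mem ((Com h).inv_mem (zpow_mem_com h j)) he)
  rw [ht]
  set β := (h ^ j)⁻¹ * e with hb
  have e1 : e = h ^ j * β := by rw [hb]; group
  have e2 : e * ((h ^ (f β * t * n)) ^ k) * e⁻¹ =
      h ^ j * ((β * h ^ f β * β⁻¹) ^ (t * n)) ^ k * (h ^ j)⁻¹ := by
    rw [e1, conj_pow, conj_zpow, ← pow_mul, mul_assoc (f β)]; group
  simp only
  rw [e2]
  rcases k1 with k1 | k1
  · exact ⟨k, by rw [k1, ← pow_mul, mul_assoc (f β)]; group⟩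
  · exact ⟨-k, by rw [k1, inv_pow, ← pow_mul, mul_assoc (f β)]; group⟩

end Nm.Lox

end Pool.Agent.TorAN
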