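import Pool.Agent.P.MP_aa4716_al.Tight

set_option autoImplicit false

namespace Pool.Agent.TorAN

namespace Sys

variable {G : Type} [Group G] {M : Nm G} {A : Type} [MulAction G A] {S : Sys M A}

theorem dq_congr {y y' : G} (h : S.q y = S.q y') (z : G) : S.dq z y = S.dq z y' := by
  unfold dq; rw [h]

theorem near_le (a : A) (x y : G) :
    M.d x y ≤ M.d x (S.pr a x) + S.D a x y + M.d y (S.pr a y) := by
  have := M.d_tri x (S.pr a x) y
  have := M.d_tri (S.pr a x) (S.pr a y) y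
  have := M.d_comm (S.pr a y) y
  unfold D
  omega

theorem near_ge (a : A) (x y : G) :
    S.D a x y ≤ M.d x (S.pr a x) + M.d x y + M.d y (S.pr a y) := by
  have := M.d_tri (S.pr a x) x (S.pr a y)
  have := M.d_tri x y (S.pr a y)
  have := M.d_comm (S.pr a x) x
  unfold D
  omega

theorem two_axes {a b : A} (hab : a ≠ b) (x z : G) :
    S.D a x z ≤ M.d z (S.pr b z) + 2 * S.θ ∨ S.D b x z ≤ M.d z (S.pr a z) + 2 * S.θ := by
  have k1 := S.D_beh hab (S.on_pr b z) (S.on_pr a z) x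
  have k2 := S.D_lip a z (S.pr b z)
  have k3 := S.D_lip b z (S.pr a z)
  have t1 := S.D_tri a x (S.pr b z) z
  have t2 := S.D_tri b x (S.pr a z) z
  simp only [S.D_comm] at *
  omega

theorem other_axis {a b : A} (hab : a ≠ b) (x y : G) :
    S.D a x y ≤ M.d x (S.pr b x) + M.d y (S.pr b y) + 3 * S.θ := by
  have k1 := S.D_bdd hab (S.on_pr b x) (S.on_pr b y)
  have k2 := S.D_lip a x (S.pr b x)
  have k3 := S.D_lip a y (S.pr b y)
  have t1 := S.D_tri a x (S.pr b x) y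
  have t2 := S.D_tri a (S.pr b x) (S.pr b y) y
  simp only [S.D_comm] at *
  omega

theorem Split.three {z z' z'' : G} (h1 : S.Split z z') (h2 : S.Split z z'') :
    S.dq z z' ≤ 1000 * S.θ ∨ S.dq z z'' ≤ 1000 * S.θ ∨ S.dq z' z'' ≤ 1000 * S.θ := by
  obtain ⟨a, y, q1, a1, a2, a3, a4, a5⟩ := h1
  obtain ⟨b, y', q2, b1, b2, b3, b4, b5⟩ := h2
  rw [← dq_congr q1, ← dq_congr q2, ← dq_congr q2, S.dq_comm z' y', ← dq_congr q1]
  have k1 := S.dq_le z y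
  have k2 := S.dq_le z y'
  have k3 := S.dq_le y' y
  have k4 := near_le (S := S) a z y
  have k5 := near_le (S := S) b z y'
  have t1 := S.D_tri a z 1 y
  have t2 := S.D_tri b z 1 y'
  have c1 := S.D_comm a z 1
  have c2 := S.D_comm b z 1
  by_cases hab : a = b
  · subst hab
    have k6 := same a a5 b5 (e := 180 * S.θ) (by omega) (by omega)
    have k7 := near_le (S := S) a y' y
    have := S.D_comm a y y'
    omega
  · have := two_axes (S := S) hab 1 z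
    omega

/-- Points of the quotient lying deep on a circle and far from its antipode. -/
def Special (S : Sys M A) (ζ : G ⧸ S.N) : Prop :=
  ∃ z a, S.q z = ζ ∧ S.Sh z ∧ M.d z (S.pr a z) ≤ 62 * S.θ ∧ 20000 * S.θ ≤ S.D a 1 z ∧
    2 * S.D a 1 z + 40000 * S.θ ≤ S.L

theorem Split.special {z z' : G} (h1 : S.Split z z') (hz : S.Sh z) :
    S.dq z z' ≤ 41000 * S.θ ∨ S.Special (S.q z) := by
  obtain ⟨a, y, q1, a1, a2, a3, a4, a5⟩ := h1
  rw [← dq_congr q1]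
  by_cases h : 20000 * S.θ ≤ S.D a 1 z ∧ 2 * S.D a 1 z + 40000 * S.θ ≤ S.L
  · exact Or.inr ⟨z, a, rfl, hz, a1, h.1, h.2⟩
  left
  have k1 := S.dq_le z y
  have k4 := near_le (S := S) a z y
  have t1 := S.D_tri a z 1 y
  have c1 := S.D_comm a z 1
  obtain ⟨η, ρ, hη, hle⟩ := S.orient a y z
  have k2 := S.dq_le (ρ * z) y
  rw [S.dq_N (S.rot_le_N hη.mem)] at k2
  have k5 := near_le (S := S) a (ρ * z) y
  rw [S.pr_rot hη.mem, M.d_mul] at k5
  have k6 := hη.sh z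
  have k7 := hη.ge z y
  have k8 := hη.le z y
  have k9 := hη.ge (ρ * z) y
  have k10 := hz.arc a
  omega

theorem back {z y : G} {a : A} {T : ℕ} (h1 : M.d z (S.pr a z) ≤ 62 * S.θ)
    (h2 : T + 2 * S.θ ≤ S.D a 1 z) (hy : M.d 1 y + M.d y z = M.d 1 z) (hT : M.d y z = T) :
    M.d y (S.pr a y) ≤ 63 * S.θ ∧ T ≤ S.D a y z + 125 * S.θ ∧ S.D a y z ≤ T + S.θ ∧
      S.D a 1 y + T ≤ S.D a 1 z + 126 * S.θ := by
  have hθ := S.θ_pos
  have k1 := S.D_far a 1 z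
  have e0 : ∀ u v, S.D a u v = M.d (S.pr a u) (S.pr a v) := fun _ _ => rfl
  have k2 := S.hyp.bt_right (u := 1) (z := y) (p := S.pr a 1) (y := z) (c := 0) (by omega)
    (by omega)
  have k3 := S.qc a y _ _ (S.on_pr a 1) (S.on_pr a z)
  have t1 := M.d_tri y z (S.pr a z)
  have t2 := M.d_tri (S.pr a 1) (S.pr a z) z
  have t3 := M.d_tri 1 (S.pr a 1) z
  have t4 := M.d_tri 1 y (S.pr a y)
  have k4 := near_le (S := S) a y z
  have k5 := S.D_lip a y z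
  have k6 := proj (S := S) a 1 (S.on_pr a y)
  have := e0 1 z
  have := e0 1 y
  simp only [M.d_comm] at *
  omega

theorem Special.sparse {ζ ζ' : G ⧸ S.N} (h1 : S.Special ζ) (h2 : S.Special ζ')
    (hl : S.lq ζ = S.lq ζ') (hd : S.Mq.d ζ ζ' ≤ 2000 * S.θ) : S.Mq.d ζ ζ' ≤ 1000 * S.θ := by
  have hL := S.L_big
  have hθ := S.θ_pos
  obtain ⟨z, a, rfl, s1, a1, a2, a3⟩ := h1
  obtain ⟨z', a', rfl, s2, b1, b2, b3⟩ := h2
  change S.dq z z' ≤ _ at hd
  change S.dq z z' ≤ _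
  rw [← S.dq_one, ← S.dq_one, s1.dq, s2.dq] at hl
  have k1 := S.D_lip a 1 z
  obtain ⟨y, y1, y2⟩ := M.d_geo 1 z (M.d 1 z - 8100 * S.θ) (by omega)
  obtain ⟨y', y1', y2'⟩ := M.d_geo 1 z' (M.d 1 z - 8100 * S.θ) (by omega)
  obtain ⟨f1, f2, f3, f4⟩ := back (T := 8100 * S.θ) a1 (by omega) y2 (by omega)
  obtain ⟨g1, g2, g3, g4⟩ := back (T := 8100 * S.θ) b1 (by omega) y2' (by omega)
  have t0 := S.D_tri a 1 y z
  have cl : S.dq y y' ≤ 350 * S.θ → S.dq z z' ≤ 1000 * S.θ := by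
    intro h
    obtain ⟨n, hn, h3⟩ := S.dq_lift y y'
    have e1 : M.d (n * y') (n * z') = M.d y' z' := M.d_mul _ _ _
    have t1 := M.d_tri z y (n * z')
    have t2 := M.d_tri y (n * y') (n * z')
    have c1 := M.d_comm z y
    have k2 := iso (S := S) (x := z) (y := n * z') (by omega)
    rw [S.dq_N' hn] at k2
    have e2 : ∀ u, M.d (n * u) (S.pr (n • a') (n * u)) = M.d u (S.pr a' u) := by
      intro u; rw [S.pr_smul, M.d_mul]
    have e3 := e2 y'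
    have e4 := e2 z'
    have k3 := S.D_lip a y (n * y')
    have k4 := S.D_lip a z (n * z')
    have t3 := S.D_tri a y (n * y') z
    have t4 := S.D_tri a (n * y') (n * z') z
    have c2 := S.D_comm a z (n * z')
    by_cases hab : a = n • a'
    · have e5 : S.D a (n * y') (n * z') = S.D a' y' z' := by rw [hab, S.D_smul]
      rw [← hab] at e3 e4
      have k5 := near_le (S := S) a z (n * z')
      obtain ⟨η, ρ, hη, -⟩ := S.orient a 1 1
      have j1 := hη.ge y z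
      have j2 := hη.ge (n * y') (n * z')
      have j3 := hη.ge z (n * z')
      have j4 := hη.le y z
      have j5 := hη.le z y
      have j6 := hη.le (n * y') (n * z')
      have j7 := hη.le (n * z') (n * y')
      have j8 := hη.le y (n * y')
      have j9 := hη.le (n * y') y
      have j10 := hη.le z (n * z')
      have j11 := hη.le (n * z') z
      simp only [S.D_comm] at *
      omega
    · have := other_axis (S := S) hab (n * y') (n * z')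
      omega
  rcases dich s1 s2 hl hd y2 y2' (by omega) (by omega) with h | ⟨b, w, q1, w1, w2, w3, w4, w5⟩
  · exact cl (by omega)
  by_cases hab : a = b
  · exfalso
    subst hab
    have k2 : S.dq y w ≤ 18200 * S.θ := by
      rw [dq_congr q1]
      have := S.dq_tri y z y'
      have := S.dq_tri z z' y'
      have := S.dq_le y z
      have := S.dq_le z' y'
      have := M.d_comm y' z'
      omega
    have k3 := short (S := S) (x := y) (y := w) (by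
      intro c
      by_cases hc : c = a
      · subst hc
        have := S.D_tri c y 1 w
        have := S.D_comm c y 1
        omega
      · have := other_axis (S := S) hc y w
        omega)
    have := S.D_lip a y w
    omega
  · apply cl
    rw [← dq_congr q1]
    have := two_axes (S := S) hab 1 y
    have := S.dq_le y w
    have := near_le (S := S) b y w
    have := S.D_tri b y 1 w
    have := S.D_comm b y 1
    omega

/-- Radial projections in the quotient and their three point property. -/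
theorem exists_proj (S : Sys M A) (s : ℕ) : ∃ f : G ⧸ S.N → G ⧸ S.N,
    (∀ ξ, s ≤ S.Mq.l ξ → S.Mq.l (f ξ) = s ∧ s + S.Mq.d (f ξ) ξ = S.Mq.l ξ) ∧
    (∀ r ξ₁ ξ₂ ξ₃, S.Mq.l ξ₁ = S.Mq.l ξ₂ → S.Mq.l ξ₁ = S.Mq.l ξ₃ →
      s + 4 * r + 30 * S.θ ≤ S.Mq.l ξ₁ → S.Mq.d ξ₁ ξ₂ ≤ r → S.Mq.d ξ₁ ξ₃ ≤ r →
      S.Mq.d (f ξ₁) (f ξ₂) ≤ 1000 * S.θ ∨ S.Mq.d (f ξ₁) (f ξ₃) ≤ 1000 * S.θ ∨
        S.Mq.d (f ξ₂) (f ξ₃) ≤ 1000 * S.θ) ∧
    (∀ r ξ₁ ξ₂, S.Mq.l ξ₁ = S.Mq.l ξ₂ → s + 4 * r + 30 * S.θ ≤ S.Mq.l ξ₁ → S.Mq.d ξ₁ ξ₂ ≤ r →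
      S.Mq.d (f ξ₁) (f ξ₂) ≤ 41000 * S.θ ∨ S.Special (f ξ₁)) := by
  choose lf h1 h2 using S.lq_lift
  have hs : ∀ ξ, S.Sh (lf ξ) := fun ξ => S.sh_of (by rw [h1, h2])
  have hz : ∀ ξ, ∃ z, s ≤ S.lq ξ → M.d 1 z = s ∧ M.d 1 z + M.d z (lf ξ) = M.d 1 (lf ξ) := by
    intro ξ
    by_cases h : s ≤ S.lq ξ
    · obtain ⟨z, hz⟩ := M.d_geo 1 (lf ξ) s (by rw [M.d_one, h2]; exact h)
      exact ⟨z, fun _ => hz⟩
    · exact ⟨1, fun h' => absurd h' h⟩
  choose z hz using hz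
  have h3 : ∀ ξ, M.d 1 (lf ξ) = S.lq ξ := fun ξ => by rw [M.d_one, h2]
  have hb : ∀ ξ, s ≤ S.lq ξ → S.dq 1 (z ξ) = s := by
    intro ξ h
    obtain ⟨k1, k2⟩ := hz ξ h
    have := (hs ξ).bt (p := z ξ) (c := 0) (by omega)
    have := S.dq_le 1 (z ξ)
    omega
  have hd : ∀ r ξ₁ ξ₂, S.lq ξ₁ = S.lq ξ₂ → s + 4 * r + 30 * S.θ ≤ S.lq ξ₁ → S.Mq.d ξ₁ ξ₂ ≤ r →
      S.dq (z ξ₁) (z ξ₂) ≤ 20 * S.θ ∨ S.Split (z ξ₁) (z ξ₂) := by
    intro r ξ₁ ξ₂ e1 e2 e3
    obtain ⟨k1, k2⟩ := hz ξ₁ (by omega)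
    obtain ⟨k3, k4⟩ := hz ξ₂ (by omega)
    exact dich (r := r) (hs ξ₁) (hs ξ₂) (by rw [h3, h3, e1]) (by unfold dq; rw [h1, h1]; exact e3)
      k2 k4 (by omega) (by rw [h3]; omega)
  refine ⟨fun ξ => S.q (z ξ), ?_, ?_, ?_⟩
  · intro ξ h
    rw [Mq_l] at h
    obtain ⟨k1, k2⟩ := hz ξ h
    have k3 := hb ξ h
    have k4 := S.dq_le (z ξ) (lf ξ)
    have k5 := S.dq_tri 1 (z ξ) (lf ξ)
    have k6 := (hs ξ).dq
    have k7 := h3 ξ
    have k8 : S.Mq.d (S.q (z ξ)) ξ = S.dq (z ξ) (lf ξ) := by unfold dq; rw [h1]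
    simp only [Mq_l, ← S.dq_one]
    omega
  · intro r ξ₁ ξ₂ ξ₃ e1 e2 e3 e4 e5
    change S.dq _ _ ≤ _ ∨ S.dq _ _ ≤ _ ∨ S.dq _ _ ≤ _
    rcases hd r ξ₁ ξ₂ e1 e3 e4 with k1 | k1
    · omega
    rcases hd r ξ₁ ξ₃ e2 e3 e5 with k2 | k2
    · omega
    exact k1.three k2
  · intro r ξ₁ ξ₂ e1 e3 e4
    change S.dq _ _ ≤ _ ∨ _
    rcases hd r ξ₁ ξ₂ e1 e3 e4 with k1 | k1
    · omega
    refine k1.special (S.sh_of ?_)
    rw [Mq_l] at e3
    rw [← S.dq_one, hb ξ₁ (by omega), ← M.d_one, (hz ξ₁ (by omega)).1]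

end Sys

end Pool.Agent.TorAN
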