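import Pool.Agent.P.MP_aa4716_al.Limit

set_option autoImplicit false

namespace Pool.Agent.TorAN

namespace Nm

variable {G : Type} [Group G] {M : Nm G}

theorem Sph.ring {D r : ℕ} (h : M.Sph D) (hr : D ≤ r) (h0 : 0 < r) (k ρ : ℕ) :
    Col M.d Bool {x | M.l x / r = k} ρ (26 * ρ + 54 * r) := by
  have k3 : ∀ y, ∃ z, M.l z = M.l y / r * r ∧ M.d z y < r := by
    intro y
    obtain ⟨z, h1, h2⟩ := M.geo y (M.l y / r * r) (Nat.div_mul_le_self _ _)
    refine ⟨z, h1, ?_⟩
    have := Nat.div_add_mod' (M.l y) r
    have := Nat.mod_lt (M.l y) h0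
    unfold d
    omega
  choose p p1 p2 using k3
  refine (h (ρ + 2 * r) (by omega) (k * r)).pull p (fun y hy => ?_) (fun a _ b _ hab => ?_)
    (fun a _ b _ hab => ?_)
  · change M.l (p y) = _
    rw [p1, hy]
  · have := p2 a
    have := p2 b
    have := M.d_tri (p a) a (p b)
    have := M.d_tri a b (p b)
    have := M.d_comm b (p b)
    omega
  · have := p2 a
    have := p2 b
    have := M.d_tri a (p a) b
    have := M.d_tri (p a) (p b) b
    have := M.d_comm a (p a)
    omega

/-- Three colours suffice: neighbouring rings are coloured at three different scales. -/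
theorem Sph.three {D r : ℕ} (h : M.Sph D) (hr : D ≤ r) :
    Col M.d (Fin 3) Set.univ r (62000 * r) := by
  rcases Nat.eq_zero_or_pos r with rfl | h0
  · exact Col.zero M.pm _ _
  let ρ : ℕ → ℕ := fun k => if k % 3 = 0 then r else if k % 3 = 1 then 82 * r else 2188 * r
  choose χ hχ using fun k => h.ring hr h0 k (ρ k)
  let s : G → ℕ := fun x => M.l x / r + (χ (M.l x / r) x).toNat
  have k1 : ∀ a b, M.d a b ≤ r → M.l b / r ≤ M.l a / r + 1 := by
    intro a b hab
    have := M.d_tri 1 a b
    rw [M.d_one, M.d_one] at this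
    rw [← Nat.add_div_right _ h0]
    exact Nat.div_le_div_right (by omega)
  have k2 : ∀ n, Bd M.d {x | s x = n} r (62000 * r) := by
    intro n
    have hA := hχ n false
    have hB := hχ (n - 1) true
    have sub : ∀ x, s x = n → (M.l x / r = n ∧ χ n x = false) ∨
        (0 < n ∧ M.l x / r = n - 1 ∧ χ (n - 1) x = true) := by
      intro x hx
      simp only [s] at hx
      cases e : χ (M.l x / r) x
      · rw [e, Bool.toNat_false, add_zero] at hx
        exact Or.inl ⟨hx, hx ▸ e⟩
      · rw [e, Bool.toNat_true] at hx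
        have e' : M.l x / r = n - 1 := Nat.eq_sub_of_add_eq hx
        exact Or.inr ⟨hx ▸ Nat.succ_pos _, e', e' ▸ e⟩
    rcases Nat.eq_zero_or_pos n with rfl | hn
    · have e1 : ρ 0 = r := if_pos rfl
      rw [e1] at hA
      refine hA.mono (fun x hx => ?_) le_rfl (by omega)
      rcases sub x hx with k | k
      · exact k
      · omega
    by_cases c : n % 3 = 0
    · have e1 : ρ n = r := if_pos c
      have e2 : ρ (n - 1) = 2188 * r := by
        have c2 : (n - 1) % 3 = 2 := by omega
        exact (if_neg (by omega)).trans (if_neg (by omega))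
      rw [e1] at hA
      rw [e2] at hB
      refine (hA.union M.pm (hB.mono le_rfl (by omega) le_rfl)).mono (fun x hx => ?_) le_rfl
        (by omega)
      exact (sub x hx).imp id fun k => k.2
    · have e1 : r ≤ ρ (n - 1) ∧ 26 * ρ (n - 1) + 54 * r + 2 * r ≤ ρ n ∧ ρ n ≤ 2188 * r := by
        by_cases c1 : n % 3 = 1
        · have a1 : ρ (n - 1) = r := if_pos (by omega)
          have a2 : ρ n = 82 * r := (if_neg c).trans (if_pos c1)
          omega
        · have a1 : ρ (n - 1) = 82 * r := (if_neg (by omega)).trans (if_pos (by omega))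
          have a2 : ρ n = 2188 * r := (if_neg c).trans (if_neg c1)
          omega
      refine ((hB.mono le_rfl e1.1 le_rfl).union M.pm (hA.mono le_rfl e1.2.1 le_rfl)).mono
        (fun x hx => ?_) le_rfl (by omega)
      exact ((sub x hx).imp id fun k => k.2).symm
  refine ⟨fun x => ⟨s x % 3, Nat.mod_lt _ (by norm_num)⟩, fun i x hx y hc => k2 (s x) x rfl y ?_⟩
  have key : s y = s x ∧ Ch M.d {z | s z = s x} r x y := by
    induction hc with
    | refl => exact ⟨rfl, Relation.ReflTransGen.refl⟩
    | @tail u v _ hs ih =>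
      have h1 := k1 u v hs.2.2
      have h2 := k1 v u (by rw [M.d_comm]; exact hs.2.2)
      have h3 : s u % 3 = s v % 3 := congrArg Fin.val (hs.1.2.trans hs.2.1.2.symm)
      have h4 : s v = s u := by
        have := Bool.toNat_le (χ (M.l u / r) u)
        have := Bool.toNat_le (χ (M.l v / r) v)
        simp only [s] at h3 ⊢
        generalize (χ (M.l u / r) u).toNat = a at *
        generalize (χ (M.l v / r) v).toNat = b at *
        generalize M.l u / r = a' at *
        generalize M.l v / r = b' at *
        omega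
      exact ⟨h4.trans ih.1, ih.2.tail ⟨ih.1, h4.trans ih.1, hs.2.2⟩⟩
  exact key.2

end Nm

end Pool.Agent.TorAN
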