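import Pool.Agent.P.MP_aa4716_al.Turn

set_option autoImplicit false

namespace Pool.Agent.TorAN

namespace Sys

variable {G : Type} [Group G] {M : Nm G} {A : Type} [MulAction G A] (S : Sys M A)

/-- The quotient map. -/
def q : G →* G ⧸ S.N := QuotientGroup.mk' S.N

theorem q_surj (y : G ⧸ S.N) : ∃ x, S.q x = y := QuotientGroup.mk'_surjective S.N y

theorem q_N {n : G} (hn : n ∈ S.N) : S.q n = 1 := (QuotientGroup.eq_one_iff n).mpr hn

theorem q_mul {n : G} (hn : n ∈ S.N) (x : G) : S.q (n * x) = S.q x := by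
  rw [map_mul, S.q_N hn, one_mul]

theorem q_eq {x y : G} (h : S.q x = S.q y) : x * y⁻¹ ∈ S.N := by
  apply (QuotientGroup.eq_one_iff _).mp
  change S.q (x * y⁻¹) = 1
  rw [map_mul, map_inv, h, mul_inv_cancel]

/-- The quotient norm. -/
noncomputable def lq (y : G ⧸ S.N) : ℕ := sInf {n | ∃ x, S.q x = y ∧ M.l x = n}

theorem lq_le (x : G) : S.lq (S.q x) ≤ M.l x := Nat.sInf_le ⟨x, rfl, rfl⟩

theorem lq_lift (y : G ⧸ S.N) : ∃ x, S.q x = y ∧ M.l x = S.lq y := by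
  obtain ⟨x, hx⟩ := S.q_surj y
  exact Nat.sInf_mem (s := {n | ∃ x, S.q x = y ∧ M.l x = n}) ⟨_, x, hx, rfl⟩

/-- The quotient as a normed group. -/
noncomputable def Mq : Nm (G ⧸ S.N) where
  l := S.lq
  l_one := by have := S.lq_le 1; rw [map_one, M.l_one] at this; omega
  l_inv := by
    have key : ∀ y, S.lq y⁻¹ ≤ S.lq y := by
      intro y
      obtain ⟨x, rfl, h⟩ := S.lq_lift y
      rw [← h, ← map_inv, ← M.l_inv]; exact S.lq_le _
    intro y
    have := key y⁻¹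
    rw [inv_inv] at this
    exact le_antisymm (key y) this
  l_mul := by
    intro y y'
    obtain ⟨x, rfl, h⟩ := S.lq_lift y
    obtain ⟨x', rfl, h'⟩ := S.lq_lift y'
    rw [← h, ← h', ← map_mul]
    exact (S.lq_le _).trans (M.l_mul _ _)
  l_eq := by
    intro y hy
    obtain ⟨x, rfl, h⟩ := S.lq_lift y
    rw [M.l_eq x (by omega), map_one]
  fin := by
    intro R
    refine ((M.fin R).image S.q).subset ?_
    intro y hy
    obtain ⟨x, rfl, h⟩ := S.lq_lift y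
    exact ⟨x, by simp only [Set.mem_ofPred_eq] at *; omega, rfl⟩
  geo := by
    intro y s hs
    obtain ⟨x, rfl, h⟩ := S.lq_lift y
    obtain ⟨z, h1, h2⟩ := M.geo x s (by omega)
    have k1 := S.lq_le z
    have k2 := S.lq_le (z⁻¹ * x)
    have k3 : S.lq (S.q x) ≤ S.lq (S.q z) + S.lq (S.q (z⁻¹ * x)) := by
      obtain ⟨a, ha, ha'⟩ := S.lq_lift (S.q z)
      obtain ⟨b, hb, hb'⟩ := S.lq_lift (S.q (z⁻¹ * x))
      have : S.q x = S.q (a * b) := by rw [map_mul, ha, hb, ← map_mul]; simp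
      rw [this, ← ha', ← hb']
      exact (S.lq_le _).trans (M.l_mul _ _)
    refine ⟨S.q z, by omega, ?_⟩
    rw [← map_inv, ← map_mul]; omega

theorem Mq_l (y : G ⧸ S.N) : S.Mq.l y = S.lq y := rfl

/-- Quotient distance of two elements of `G`. -/
noncomputable def dq (x y : G) : ℕ := S.Mq.d (S.q x) (S.q y)

theorem dq_eq (x y : G) : S.dq x y = S.lq (S.q (x⁻¹ * y)) := by
  rw [map_mul, map_inv]; rfl

theorem dq_le (x y : G) : S.dq x y ≤ M.d x y := by rw [dq_eq]; exact S.lq_le _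

theorem dq_one (x : G) : S.dq 1 x = S.lq (S.q x) := by rw [dq_eq]; simp

theorem dq_comm (x y : G) : S.dq x y = S.dq y x := S.Mq.d_comm _ _

theorem dq_tri (x y z : G) : S.dq x z ≤ S.dq x y + S.dq y z := S.Mq.d_tri _ _ _

theorem dq_mul (g x y : G) : S.dq (g * x) (g * y) = S.dq x y := by
  unfold dq; rw [map_mul, map_mul, Nm.d_mul]

theorem dq_N {n : G} (hn : n ∈ S.N) (x y : G) : S.dq (n * x) y = S.dq x y := by
  unfold dq; rw [S.q_mul hn]

theorem dq_N' {n : G} (hn : n ∈ S.N) (x y : G) : S.dq x (n * y) = S.dq x y := by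
  unfold dq; rw [S.q_mul hn]

theorem dq_lift (x y : G) : ∃ n ∈ S.N, M.d x (n * y) = S.dq x y := by
  obtain ⟨v, h1, h2⟩ := S.lq_lift (S.q (x⁻¹ * y))
  refine ⟨x * v * y⁻¹, S.q_eq (by rw [map_mul, h1, ← map_mul]; simp), ?_⟩
  rw [dq_eq, ← h2, inv_mul_cancel_right, M.d_right]

theorem sh_of {x : G} (h : M.l x ≤ S.lq (S.q x)) : S.Sh x := by
  intro n hn
  have := S.lq_le (n * x)
  rw [S.q_mul hn] at this
  omega

variable {S}

theorem Sh.dq {x : G} (h : S.Sh x) : S.dq 1 x = M.d 1 x := by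
  obtain ⟨n, hn, h1⟩ := S.dq_lift 1 x
  have := h n hn
  have := S.dq_le 1 x
  rw [M.d_one] at *
  omega

theorem Sh.bt {x p : G} (h : S.Sh x) {c : ℕ} (hp : M.d 1 p + M.d p x ≤ M.d 1 x + c) :
    M.d 1 p ≤ S.dq 1 p + c := by
  have := h.dq
  have := S.dq_tri 1 p x
  have := S.dq_le p x
  omega

theorem short {x y : G} (h : ∀ a, S.D a x y + S.dq x y + 14 * S.θ < S.L) :
    S.dq x y = M.d x y := by
  obtain ⟨n, hn, h1⟩ := S.dq_lift x y
  by_cases h2 : n = 1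
  · rw [← h1, h2, one_mul]
  have h3 : y⁻¹ * n * y⁻¹⁻¹ ∈ S.N := S.N_normal.conj_mem n hn _
  obtain ⟨a, ha⟩ := green h3 (by
    intro hh; apply h2
    have : n = y * (y⁻¹ * n * y⁻¹⁻¹) * y⁻¹ := by group
    rw [this, hh]; simp)
  rw [← S.D_smul y] at ha
  have e : y * (y⁻¹ * n * y⁻¹⁻¹) = n * y := by group
  rw [e, mul_one] at ha
  have k1 := h (y • a)
  have k2 := S.D_lip (y • a) x (n * y)
  have t := S.D_tri (y • a) y x (n * y)
  have := S.D_comm (y • a) x y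
  omega

theorem iso {x y : G} (h : 2 * M.d x y + 15 * S.θ < S.L) : S.dq x y = M.d x y := by
  apply short
  intro a
  have := S.D_lip a x y
  have := S.dq_le x y
  omega

theorem inj_of_arc {x y : G} (hx : ∀ a, 4 * S.D a 1 x ≤ S.L)
    (hy : ∀ a, 2 * S.D a 1 y < S.L + 8 * S.θ) (h : S.q x = S.q y) : x = y := by
  by_contra hc
  obtain ⟨a, ha⟩ := green (S.q_eq h) (fun hh => hc (mul_inv_eq_one.mp hh))
  have k1 := hx a
  have k2 := hy ((x * y⁻¹)⁻¹ • a)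
  rw [S.D_inv, mul_one, inv_mul_cancel_right] at k2
  have t := S.D_tri a 1 x (x * y⁻¹)
  have := S.D_comm a x (x * y⁻¹)
  have := S.L_big
  have := S.θ_pos
  omega

theorem lq_of_arc {x : G} (hx : ∀ a, 4 * S.D a 1 x ≤ S.L) : S.lq (S.q x) = M.l x := by
  obtain ⟨y, h1, h2⟩ := S.lq_lift (S.q x)
  have hy : S.Sh y := S.sh_of (by rw [h1]; omega)
  rw [← h2, inj_of_arc hx hy.arc h1.symm]

theorem MT.loc {x y z : G} (h : S.MT x none y) {c : ℕ} (hz : M.d 1 z + M.d z y ≤ M.d 1 y + c) :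
    ∃ ν ∈ S.N, M.d 1 (ν * z) + M.d (ν * z) x ≤ M.d 1 x + 2 * c + 17 * S.θ ∨
      S.Arc x ν (ν * z) (ν * y) (2 * c + 5 * S.θ) := by
  have := h.locate c 1 z ⟨fun _ => rfl, by simp⟩ hz (by simp)
  simpa only [mul_one] using this

theorem MT.bound {x y z : G} (h : S.MT x none y) {c : ℕ}
    (hz : M.d 1 z + M.d z y ≤ M.d 1 y + c) :
    S.dq 1 z ≤ 4 * M.d 1 x + 2 * c + 17 * S.θ ∧
      S.dq 1 z + S.dq z x ≤ M.d 1 x + 2 * S.L + 4 * c := by
  have hL := S.L_big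
  have hθ := S.θ_pos
  obtain ⟨ν, hν, h1⟩ := h.loc hz
  have k1 := S.dq_le 1 (ν * z)
  have k2 := S.dq_le (ν * z) x
  rw [S.dq_N' hν] at k1
  rw [S.dq_N hν] at k2
  rcases h1 with h1 | ⟨a, ρ, _, _, h3, h4, h5, h6, h7, h8⟩
  · omega
  · have k3 := S.D_far a 1 x
    have t1 := M.d_tri 1 (S.pr a 1) (ν * z)
    have t2 := M.d_tri (S.pr a 1) (S.pr a ν) (ν * z)
    have t3 := S.D_tri a ν 1 (ν * y)
    have t4 := S.D_tri a 1 (ρ * x) (ν * y)
    have t5 := M.d_tri (ν * z) (S.pr a 1) x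
    have t6 := M.d_tri (S.pr a 1) (S.pr a x) x
    unfold D at *
    simp only [M.d_comm] at *
    omega

theorem hyp_q : S.Mq.Hyp (6 * S.L + 1) := by
  have hL := S.L_big
  have hθ := S.θ_pos
  have e : 6 * S.L + 1 = 2 * (3 * S.L) + 1 := by ring
  rw [e]
  apply Nm.hyp_of_thin
  intro x y w z hz
  obtain ⟨x, rfl⟩ := S.q_surj x
  obtain ⟨y, rfl⟩ := S.q_surj y
  obtain ⟨w, rfl⟩ := S.q_surj w
  obtain ⟨z, rfl⟩ := S.q_surj z
  change S.dq x z + S.dq z y = S.dq x y at hz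
  change S.dq x z + S.dq z w ≤ S.dq x w + 3 * S.L ∨ S.dq y z + S.dq z w ≤ S.dq y w + 3 * S.L
  obtain ⟨n1, hn1, h1⟩ := S.dq_lift x z
  obtain ⟨n2, hn2, h2⟩ := S.dq_lift (n1 * z) y
  obtain ⟨n3, hn3, h3⟩ := S.dq_lift x w
  obtain ⟨n4, hn4, h4⟩ := S.dq_lift (n2 * y) w
  rw [← S.dq_N' hn1 x z, ← S.dq_N hn1 z y, ← S.dq_N' hn2 x y, ← S.dq_N' hn2 _ y] at hz
  rw [← S.dq_N' hn1 x z, ← S.dq_N hn1 z w, ← S.dq_N' hn1 y z, ← S.dq_N hn2 y w,
    ← S.dq_N hn2 y _]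
  rw [← S.dq_N' hn1 x z] at h1
  rw [← S.dq_N' hn2 _ y] at h2
  generalize n1 * z = z at *
  generalize n2 * y = y at *
  have t1 := M.d_tri x z y
  have t2 := S.dq_le x y
  have s1 : S.Sh (x⁻¹ * y) := S.sh_of (by rw [← dq_eq]; change M.d x y ≤ _; omega)
  have s2 : S.Sh (y⁻¹ * (n4 * w)) :=
    S.sh_of (by rw [← dq_eq, S.dq_N' hn4]; change M.d y _ ≤ _; omega)
  have s3 : S.Sh (x⁻¹ * (n3 * w)) :=
    S.sh_of (by rw [← dq_eq, S.dq_N' hn3]; change M.d x _ ≤ _; omega)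
  obtain ⟨w', m1, m2⟩ := close s1 s2 s3 (by
    apply S.q_eq
    simp only [map_mul, S.q_N hn3, S.q_N hn4, map_inv]; group)
  have e1 : ∀ g u v, M.d (g⁻¹ * u) v = M.d u (g * v) := by
    intro g u v; rw [← M.d_mul g, mul_inv_cancel_left]
  have e2 : ∀ g u, M.d 1 (g⁻¹ * u) = M.d g u := by
    intro g u; rw [← M.d_mul g, mul_inv_cancel_left, mul_one]
  have e3 : ∀ g u, S.dq 1 (g⁻¹ * u) = S.dq g u := by
    intro g u; rw [← S.dq_mul g, mul_inv_cancel_left, mul_one]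
  have hh := S.hyp z (y * w') x y
  have c1 := M.d_comm z x
  have c2 := M.d_comm z y
  have c3 := M.d_comm (y * w') x
  have c4 := M.d_comm (y * w') y
  rcases hh with hh | hh
  · right
    have := (m1.bound (z := y⁻¹ * z) (c := S.θ) (by
      rw [e1, e2, ← M.d_mul y 1, mul_one]; omega)).2
    rw [e3, S.dq_mul, S.dq_N' hn4, e2] at this
    omega
  · left
    have := (m2.bound (z := x⁻¹ * z) (c := S.θ) (by
      rw [mul_assoc, M.d_mul, e2, e2]; omega)).2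
    rw [e3, S.dq_mul, S.dq_N' hn3, e2] at this
    omega

theorem opp (a : A) {o v w x y : G} {c c' : ℕ} (h1 : S.D a o v + 4 * S.θ < S.D a v w)
    (h2 : S.D a o w + 4 * S.θ < S.D a v w) (h0 : 4 * S.θ < S.D a o v) (h0' : 4 * S.θ < S.D a o w)
    (h3 : S.D a o x + S.D a x v ≤ S.D a o v + c) (h4 : S.D a o y + S.D a y w ≤ S.D a o w + c') :
    S.D a o x + S.D a o y ≤ S.D a x y + c + c' + 5 * S.θ := by
  obtain ⟨η, ρ, h, hle⟩ := S.orient a o v
  have k1 := h.ge o v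
  have k2 := h.ge o w
  have k3 := h.ge v w
  have k4 := h.le v o
  have k5 := h.le w o
  have k6 := h.le v x
  have k7 := h.le y w
  have k8 := h.le x y
  simp only [S.D_comm] at *
  omega

theorem same (a : A) {o z y y' : G} {c e : ℕ} (h1 : S.D a o z + S.D a o y ≤ S.D a z y + c)
    (h2 : S.D a o z + S.D a o y' ≤ S.D a z y' + c) (h3 : S.D a o y ≤ S.D a o y' + e)
    (h4 : S.D a o y' ≤ S.D a o y + e) :
    2 * S.D a o z ≤ c + 3 * S.θ ∨ S.D a y y' ≤ e + c + 4 * S.θ := by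
  obtain ⟨η, ρ, h, hle⟩ := S.orient a o z
  have k1 := h.ge o z
  have k2 := h.ge z y
  have k3 := h.ge z y'
  have k4 := h.ge y y'
  have k5 := h.le y o
  have k6 := h.le o y
  have k7 := h.le y' o
  have k8 := h.le o y'
  have k9 := h.le z o
  simp only [S.D_comm] at *
  omega

theorem proj (a : A) (x : G) {p : G} (hp : S.On a p) :
    M.d x (S.pr a x) + M.d (S.pr a x) p ≤ M.d x p + S.θ := by
  have := S.qc a x _ p (S.on_pr a x) hp
  omega

/-- Two points lying on opposite sides of a circle at equal depth. -/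
def Split (S : Sys M A) (z z' : G) : Prop :=
  ∃ a y, S.q y = S.q z' ∧ M.d z (S.pr a z) ≤ 62 * S.θ ∧ M.d y (S.pr a y) ≤ 62 * S.θ ∧
    S.D a 1 y ≤ S.D a 1 z + 90 * S.θ ∧ S.D a 1 z ≤ S.D a 1 y + 90 * S.θ ∧
    S.D a 1 z + S.D a 1 y ≤ S.D a z y + 300 * S.θ

theorem dich {x v z z' : G} {r : ℕ} (hx : S.Sh x) (hv : S.Sh v) (ht : M.d 1 x = M.d 1 v)
    (hr : S.dq x v ≤ r) (hz : M.d 1 z + M.d z x = M.d 1 x) (hz' : M.d 1 z' + M.d z' v = M.d 1 v)
    (hs : M.d 1 z = M.d 1 z') (hf : M.d 1 z + 4 * r + 30 * S.θ ≤ M.d 1 x) :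
    S.dq z z' ≤ 20 * S.θ ∨ S.Split z z' := by
  have hL := S.L_big
  have hθ := S.θ_pos
  obtain ⟨n, hn, h1⟩ := S.dq_lift x v
  have s2 : S.Sh (x⁻¹ * (n * v)) :=
    S.sh_of (by rw [← dq_eq, S.dq_N' hn]; change M.d x _ ≤ _; omega)
  obtain ⟨w', m1, m2⟩ := close hx s2 hv (by simpa [mul_assoc] using hn)
  have side : ∀ e c, M.d x e + M.d e (x * w') ≤ M.d x (x * w') + c →
      M.d 1 x ≤ S.dq 1 e + 4 * r + 2 * c + 17 * S.θ := by
    intro e c he
    have := (m1.bound (z := x⁻¹ * e) (c := c) (by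
      rw [← M.d_mul x, ← M.d_mul x (x⁻¹ * e), ← M.d_mul x 1 w', mul_inv_cancel_left, mul_one]
      exact he)).1
    rw [← S.dq_mul x, ← M.d_mul x, mul_inv_cancel_left, mul_inv_cancel_left, mul_one] at this
    have k1 := hx.dq
    have k2 := S.dq_tri 1 e x
    have k3 := S.dq_comm x e
    omega
  set y := x * w' with hy
  have b1 : M.d 1 z + M.d z y ≤ M.d 1 y + S.θ := by
    have k1 := S.hyp z y 1 x
    have k2 := side z S.θ
    have k3 := S.dq_le 1 z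
    simp only [M.d_comm] at *
    omega
  have sz := hx.bt (p := z) (c := 0) (by omega)
  obtain ⟨ν, hν, h2⟩ := m2.loc b1
  have hν' := S.N.inv_mem hν
  rcases h2 with h2 | ⟨a, ρ, r1, r2, h3, h4, h5, h6, h7, h8⟩
  · left
    have k1 := S.dq_le 1 (ν * z)
    have k2 := S.dq_le (ν * z) v
    have k3 := S.dq_le (ν * z) z'
    rw [S.dq_N' hν] at k1
    rw [S.dq_N hν] at k2 k3
    have k4 := hv.dq
    have k5 := S.dq_tri 1 z v
    have k6 := S.dq_le 1 z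
    have k7 := S.hyp (ν * z) z' 1 v
    simp only [M.d_comm] at *
    omega
  right
  have e0 : ∀ u v, S.D a u v = M.d (S.pr a u) (S.pr a v) := fun _ _ => rfl
  have i1 : M.d (ν * z) (S.pr a (ν * z)) ≤ 4 * S.θ := by
    have := S.qc a (ν * z) _ _ (S.on_pr a ν) (S.on_pr a (ν * y))
    have := M.d_comm (S.pr a ν) (ν * z)
    have := e0 ν (ν * y)
    omega
  have e1 : M.d ν (ν * z) = M.d 1 z := by rw [← M.d_mul ν 1 z, mul_one]
  have f1 := S.D_far a 1 v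
  have u1 := M.d_tri (S.pr a 1) (S.pr a v) v
  have u2 := M.d_tri 1 (S.pr a 1) (S.pr a v)
  have u3 := e0 1 v
  have i2 : M.d ν (S.pr a ν) + S.D a ν (ν * z) ≤ M.d 1 z + 5 * S.θ := by
    have := proj a ν (S.on_pr a (ν * z))
    have := M.d_tri ν (ν * z) (S.pr a (ν * z))
    have := e0 ν (ν * z)
    omega
  have i3 : M.d 1 z ≤ M.d ν (S.pr a ν) + S.D a ν (ν * z) + 4 * S.θ := by
    have := M.d_tri ν (S.pr a ν) (ν * z)
    have := M.d_tri (S.pr a ν) (S.pr a (ν * z)) (ν * z)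
    have := M.d_comm (S.pr a (ν * z)) (ν * z)
    have := e0 ν (ν * z)
    omega
  have e2 : ∀ u, M.d 1 (ν⁻¹ * u) = M.d ν u := by
    intro u; rw [← M.d_mul ν, mul_inv_cancel_left, mul_one]
  have e3 : ∀ u v, M.d (ν⁻¹ * u) v = M.d u (ν * v) := by
    intro u v; rw [← M.d_mul ν, mul_inv_cancel_left]
  have i4 : M.d 1 (S.pr a 1) ≤ M.d ν (S.pr a ν) + 3 * S.θ := by
    have k1 := hv.bt (p := S.pr a 1) (c := S.θ) (by omega)
    have k2 := S.dq_le 1 (ν⁻¹ * S.pr a ν)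
    rw [S.dq_N' hν', e2] at k2
    have k3 := S.dq_tri 1 (S.pr a ν) (S.pr a 1)
    have k4 := S.dq_le (S.pr a ν) (S.pr a 1)
    have := e0 ν 1
    omega
  have i5 : M.d ν (S.pr a ν) ≤ M.d 1 (S.pr a 1) + 11 * S.θ := by
    have k0 := M.d_tri (S.pr a ν) (S.pr a (ν * z)) (ν * z)
    have k0' := M.d_comm (S.pr a (ν * z)) (ν * z)
    have k0'' := e0 ν (ν * z)
    have k1 := hx.bt (p := ν⁻¹ * S.pr a ν) (c := 9 * S.θ) (by
      have := M.d_tri (ν⁻¹ * S.pr a ν) z x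
      rw [e3 _ z] at this
      rw [e2]; omega)
    rw [S.dq_N' hν', e2] at k1
    have k3 := S.dq_tri 1 (S.pr a 1) (S.pr a ν)
    have k4 := S.dq_le (S.pr a 1) (S.pr a ν)
    have k5 := S.dq_le 1 (S.pr a 1)
    have := e0 1 ν
    have := S.D_comm a 1 ν
    omega
  have t1 := S.D_tri a 1 ν (ρ * v)
  have t2 := S.D_tri a ν (ν * y) (ρ * v)
  have c1 := S.D_comm a 1 ν
  have i6 : S.D a ν (ν * z) + S.D a (ν * z) (ν * y) ≤ S.D a ν (ν * y) + 15 * S.θ := by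
    have := M.d_tri (S.pr a ν) (ν * z) (S.pr a (ν * z))
    have := M.d_tri (S.pr a (ν * z)) (ν * z) (S.pr a (ν * y))
    have := M.d_comm (S.pr a (ν * z)) (ν * z)
    have := e0 ν (ν * z)
    have := e0 (ν * z) (ν * y)
    omega
  have i7 : S.D a ν (ν * z) ≤ S.D a 1 v + 31 * S.θ := by
    have k1 := S.D_far a ν (ν * y)
    have k2 := M.d_tri ν (S.pr a ν) (S.pr a (ν * y))
    have k3 := e0 ν (ν * y)
    have k4 : M.d ν (ν * y) = M.d 1 y := by rw [← M.d_mul ν 1 y, mul_one]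
    have k5 := S.hyp (ν⁻¹ * S.pr a (ν * y)) x 1 y
    have k6 := e2 (S.pr a (ν * y))
    have k7 := e3 (S.pr a (ν * y)) y
    have k8 := side (ν⁻¹ * S.pr a (ν * y)) (2 * S.θ)
    have k9 := hx.bt (p := ν⁻¹ * S.pr a (ν * y)) (c := 2 * S.θ)
    rw [S.dq_N' hν'] at k8 k9
    have k10 := S.dq_tri 1 (ρ * S.pr a v) (S.pr a (ν * y))
    have k11 := S.dq_le (ρ * S.pr a v) (S.pr a (ν * y))
    have k12 := S.dq_le 1 (S.pr a v)
    rw [S.dq_N' (S.rot_le_N r1), ← S.pr_rot r1] at k10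
    rw [← S.pr_rot r1] at k11
    have k13 := e0 (ν * y) (ρ * v)
    have k14 := proj a ν (S.on_pr a (ν * y))
    simp only [M.d_comm] at *
    omega
  have p1 := proj a 1 (S.on_pr a v)
  have i8 : M.d (S.pr a 1) z' + M.d z' (S.pr a v) ≤ S.D a 1 v + 123 * S.θ := by
    have k1 := S.hyp z' (S.pr a 1) 1 v
    have k2 := S.hyp z' (S.pr a v) 1 v
    simp only [M.d_comm] at *
    omega
  have i9 : M.d z' (S.pr a z') ≤ 62 * S.θ := by
    have := S.qc a z' _ _ (S.on_pr a 1) (S.on_pr a v)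
    have := M.d_comm (S.pr a 1) z'
    omega
  have i10 : M.d 1 (S.pr a 1) + S.D a 1 z' ≤ M.d 1 z' + 63 * S.θ := by
    have := proj a 1 (S.on_pr a z')
    have := M.d_tri 1 z' (S.pr a z')
    have := e0 1 z'
    omega
  have i11 : M.d 1 z' ≤ M.d 1 (S.pr a 1) + S.D a 1 z' + 62 * S.θ := by
    have := M.d_tri 1 (S.pr a 1) z'
    have := M.d_tri (S.pr a 1) (S.pr a z') z'
    have := M.d_comm (S.pr a z') z'
    have := e0 1 z'
    omega
  have i12 : S.D a 1 z' + S.D a z' v ≤ S.D a 1 v + 247 * S.θ := by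
    have := M.d_tri (S.pr a 1) z' (S.pr a z')
    have := M.d_tri (S.pr a z') z' (S.pr a v)
    have := M.d_comm (S.pr a z') z'
    have := e0 1 z'
    have := e0 z' v
    omega
  have t3 := S.D_tri a 1 ν z'
  have t4 := S.D_tri a ν 1 z'
  have t5 := S.D_tri a 1 ν (ν * z)
  have t6 := S.D_tri a ν 1 (ν * z)
  have i13 := opp a (o := 1) (v := v) (w := ρ * v) (x := z') (y := ν * z) (c := 247 * S.θ)
    (c' := 23 * S.θ) (by have := S.D_big r1 r2 v; have := hv.arc a; omega)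
    (by have := S.D_big r1 r2 v; omega) (by omega) (by omega) i12 (by
      have := S.D_tri a (ν * z) (ν * y) (ρ * v)
      have := S.D_tri a ν 1 (ν * y)
      have := S.D_tri a 1 (ρ * v) (ν * y)
      have := S.D_comm a (ρ * v) (ν * y)
      omega)
  have e4 : ∀ u, M.d u (S.pr (ν⁻¹ • a) u) = M.d (ν * u) (S.pr a (ν * u)) := by
    intro u
    rw [← M.d_mul ν, ← S.pr_smul, smul_inv_smul]
  refine ⟨ν⁻¹ • a, ν⁻¹ * z', S.q_mul hν' _, ?_, ?_, ?_, ?_, ?_⟩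
  · rw [e4]; omega
  · rw [e4, mul_inv_cancel_left]; exact i9
  · simp only [S.D_inv, mul_one, mul_inv_cancel_left]; omega
  · simp only [S.D_inv, mul_one, mul_inv_cancel_left]; omega
  · simp only [S.D_inv, mul_one, mul_inv_cancel_left]
    have := S.D_comm a z' (ν * z)
    omega

end Sys

end Pool.Agent.TorAN
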