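import Pool.Agent.P.MP_aa4716_al.Three

set_option autoImplicit false

namespace Pool.Agent.TorAN

namespace Tower

variable (T : Tower)

/-- The injectivity radii are large enough for three colours. -/
def Big : Prop := ∀ j, 2 * (KK 62000 3 * (KK 62000 3 + 2)) * (T.s (j + 1)).D ≤ T.I (j + 1)

theorem col0_3 (l : ℕ) {r : ℕ} (hr : (T.s l).D ≤ r) :
    Col (T.s l).d (Fin 3) Set.univ r (62000 * r) :=
  ((T.s l).sph.three hr).pull (T.s l).π (by simp) (fun x _ y _ h => by rwa [← Stage.d_eq])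
    (fun x _ y _ h => by rwa [Stage.d_eq])

theorem col_3 (hb3 : T.Big) (l k : ℕ) : ∀ j, j + k = l → ∀ r, (T.s j).D ≤ r →
    Col (T.s l).d (Fin 3) Set.univ r (KK 62000 3 * r) := by
  have h62000 : 62000 ≤ KK 62000 3 := by simp [KK]
  induction k with
  | zero =>
    rintro j rfl r hr
    exact (T.col0_3 j hr).mono le_rfl le_rfl (Nat.mul_le_mul_right _ h62000)
  | succ k ih =>
    intro j hj r hr
    by_cases h1 : (T.s (j + 1)).D ≤ r
    · exact ih (j + 1) (by omega) r h1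
    have hb := hb3 j
    set R := (KK 62000 3 + 2) * (T.s (j + 1)).D with hR
    obtain ⟨χ, hχ⟩ := ih (j + 1) (by omega) R (Nat.le_mul_of_pos_left _ (by omega))
    let enc : Fin 3 → ℕ := Fin.val
    have enc1 : ∀ c, enc c < 3 := fun c => c.2
    have enc2 : ∀ c c', enc c = enc c' → c = c' := fun _ _ => Fin.ext
    have pm := (T.s l).pm
    refine Col.fin_union pm (fun x => enc (χ x)) (R := R) 3 _ (fun x _ => enc1 _)
      (Nat.mul_le_mul_left _ (by omega)) (fun i r' h2 h3 => Col.comp pm h3 (fun x hx => ?_))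
    choose w w1 w2 using fun y => T.lift' (j := j) (l := l) (by omega) (x⁻¹ * y)
    have key : ∀ y z, Ch (T.s l).d {x | x ∈ Set.univ ∧ enc (χ x) = i} R x y →
        Ch (T.s l).d {x | x ∈ Set.univ ∧ enc (χ x) = i} R x z →
        (T.s j).d (w y) (w z) = (T.s l).d y z := by
      have k0 : ∀ y, Ch (T.s l).d {x | x ∈ Set.univ ∧ enc (χ x) = i} R x y →
          (T.s j).p (w y) ≤ KK 62000 3 * R := by
        intro y hy
        rw [w2]
        exact hχ (χ x) x ⟨trivial, rfl⟩ y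
          (hy.mono (fun z hz => by exact ⟨trivial, enc2 _ _ (hz.2.trans hx.2.symm)⟩) le_rfl)
      intro y z hy hz
      have k1 := k0 y hy
      have k2 := k0 z hz
      have k3 := (T.s j).p_mul (w y)⁻¹ (w z)
      rw [Stage.p_inv] at k3
      have k4 : 2 * (KK 62000 3 * R) ≤ T.I (j + 1) := by
        rw [hR, ← mul_assoc (KK 62000 3), ← mul_assoc]; exact hb
      unfold Stage.d
      rw [← T.iso' (j := j) (l := l) (by omega) (by omega)]
      unfold Stage.p
      rw [map_mul, map_inv, w1, w1]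
      simp [mul_assoc]
    exact (T.col0_3 j (r := r') (by omega)).pull w (by simp)
      (fun y hy z hz h => by rw [key y z hy hz]; exact h)
      (fun y hy z hz h => by rw [← key y z hy hz]; exact h)

theorem col_lim_3 (hb3 : T.Big) (r : ℕ) : Col T.M.d (Fin 3) Set.univ r (KK 62000 3 * r) := by
  choose χ hχ using fun l => T.col_3 hb3 l l 0 (by omega) r (by rw [T.D0]; omega)
  let U := Filter.hyperfilter ℕ
  have h1 : ∀ x, ∃ c, ∀ᶠ l in (U : Filter ℕ), χ l x = c := by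
    intro x
    obtain ⟨c, hc⟩ := Ultrafilter.eq_pure_of_finite (U.map (fun l => χ l x))
    refine ⟨c, ?_⟩
    have : {c} ∈ U.map (fun l => χ l x) := by rw [hc]; simp
    exact this
  choose c hc using h1
  have h2 : Col (fun x y => T.p (x⁻¹ * y)) (Fin 3) Set.univ r (KK 62000 3 * r) := by
    refine ⟨c, fun i x hx y hy => ?_⟩
    have key : ∀ᶠ l in (U : Filter ℕ), Ch (T.s l).d {z | z ∈ Set.univ ∧ χ l z = i} r x y := by
      induction hy with
      | refl => exact Filter.Eventually.of_forall (fun _ => Relation.ReflTransGen.refl)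
      | @tail u v _ hs ih =>
        obtain ⟨j, hj⟩ := T.p_ev (u⁻¹ * v)
        have h3 : ∀ᶠ l in (U : Filter ℕ), j ≤ l :=
          Nat.hyperfilter_le_atTop (Filter.eventually_ge_atTop j)
        filter_upwards [ih, hc u, hc v, h3] with l a1 a2 a3 a4
        exact a1.tail ⟨⟨trivial, a2.trans hs.1.2⟩, ⟨trivial, a3.trans hs.2.1.2⟩,
          (le_of_eq (hj l a4)).trans hs.2.2⟩
    obtain ⟨l, a1, a2⟩ := (key.and (hc x)).exists
    exact (T.p_le l _).trans (hχ l i x ⟨trivial, a2.trans hx.2⟩ y a1)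
  have h3 : ∀ x y : FreeGroup Bool ⧸ T.K, T.p (x.out⁻¹ * y.out) = T.M.d x y := by
    intro x y
    rw [← l_mk, QuotientGroup.mk_mul, QuotientGroup.mk_inv, QuotientGroup.out_eq',
      QuotientGroup.out_eq']
    rfl
  exact h2.pull Quotient.out (by simp) (fun x _ y _ h => by rw [← h3] at h; exact h)
    (fun x _ y _ h => by rw [← h3]; exact h)

end Tower

theorem Col.cover3 {α : Type} {d : α → α → ℕ} (hd : PM d) {ρ D : ℕ}
    (h : Col d (Fin 3) Set.univ ρ D) : ∃ U : Fin 3 → Set (Set α),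
      (∀ x, ∃ i, ∃ A ∈ U i, x ∈ A) ∧ (∀ i, ∀ A ∈ U i, ∀ x ∈ A, ∀ y ∈ A, d x y ≤ D) ∧
      (∀ i, ∀ A ∈ U i, ∀ B ∈ U i, A ≠ B → ∀ x ∈ A, ∀ y ∈ B, ρ < d x y) := by
  obtain ⟨χ, hχ⟩ := h
  let e : Fin 3 ≃ Fin 3 := Equiv.refl _
  refine ⟨fun i => {A | ∃ x, χ x = e.symm i ∧
    A = {y | Ch d {z | z ∈ Set.univ ∧ χ z = e.symm i} ρ x y}}, fun x => ?_, ?_, ?_⟩
  · exact ⟨e (χ x), _, ⟨x, by simp, rfl⟩, Relation.ReflTransGen.refl⟩
  · rintro i _ ⟨a, ha, rfl⟩ x hx y hy
    exact hχ _ x (Ch.mem (by exact ⟨trivial, ha⟩) hx) y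
      (Relation.ReflTransGen.trans (Ch.symm hd hx) hy)
  · rintro i _ ⟨a, ha, rfl⟩ _ ⟨b, hb, rfl⟩ hne x hx y hy
    by_contra hc
    apply hne
    apply Ch.comp_eq hd
    exact Relation.ReflTransGen.trans (Relation.ReflTransGen.tail hx
      ⟨Ch.mem (by exact ⟨trivial, ha⟩) hx, Ch.mem (by exact ⟨trivial, hb⟩) hy, by omega⟩)
      (Ch.symm hd hy)

end Pool.Agent.TorAN
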