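import Pool.Agent.P.MP_aa4716_al.Wind

set_option autoImplicit false

namespace Pool.Agent.TorAN

namespace Nm

variable {G : Type} [Group G] {M : Nm G} {δ : ℕ}

theorem Hyp.bt_left (h : M.Hyp δ) {u z q y : G} {c e : ℕ}
    (h1 : M.d u z + M.d z y ≤ M.d u y + c) (h2 : M.d u q + M.d q y ≤ M.d u y + e)
    (h3 : M.d u z ≤ M.d u q) : M.d u z + M.d z q ≤ M.d u q + c + e + δ := by
  have := h z q u y
  have := M.d_comm z u
  have := M.d_comm q u
  omega

theorem Hyp.bt_right (h : M.Hyp δ) {u z p y : G} {c : ℕ}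
    (h1 : M.d u z + M.d z y ≤ M.d u y + c) (h3 : M.d u p ≤ M.d u z) :
    M.d p z + M.d z y ≤ M.d p y + 2 * c + δ := by
  have := h z p u y
  have := M.d_tri u p y
  have := M.d_comm z u
  have := M.d_comm p u
  have := M.d_comm p z
  omega

end Nm

namespace Sys

variable {G : Type} [Group G] {M : Nm G} {A : Type} [MulAction G A] (S : Sys M A)

/-- Seen from the base point, the axis `b` lies behind the optional axis `o`. -/
def Rt (o : Option A) (b : A) : Prop :=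
  ∀ a, o = some a → a ≠ b ∧ ∀ p, S.On a p → S.D b 1 p ≤ S.θ

/-- Multi-turns of `x` along axes lying behind `o`. -/
inductive MT (x : G) : Option A → G → Prop
  | nil (o : Option A) : MT x o x
  | cons (o : Option A) (a : A) (ρ y : G) : S.Rt o a → ρ ∈ S.Rot a → ρ ≠ 1 →
      S.L ≤ 5 * S.D a 1 x → S.L ≤ 5 * S.D a 1 (ρ * x) → 9 * S.D a 1 (ρ * x) ≤ 7 * S.L →
      MT x (some a) y → MT x o (ρ * y)

/-- The condition on a moving start point. -/
def Cu (x : G) (o : Option A) (u : G) : Prop :=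
  (o = none → u = 1) ∧ ∀ a, o = some a → S.L ≤ 5 * S.D a 1 x ∧ S.L ≤ 5 * S.D a u x + 10 * S.θ

variable {S}

theorem MT.memN {x : G} {o : Option A} {y : G} (h : S.MT x o y) : y * x⁻¹ ∈ S.N := by
  induction h with
  | nil o => simp
  | cons o a ρ y _ h1 _ _ _ _ _ ih => rw [mul_assoc]; exact S.N.mul_mem (S.rot_le_N h1) ih

theorem Rt.see {o : Option A} {a b : A} (h : S.Rt o b) (ho : o = some a) {x : G}
    (hx : 2 * S.θ < S.D b 1 x) {p : G} (hp : S.On b p) : S.D a x p ≤ S.θ := by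
  obtain ⟨h1, h2⟩ := h a ho
  have k1 := h2 _ (S.on_pr a 1)
  have k2 := S.D_beh h1 hp (S.on_pr a 1) x
  have t := S.D_tri b 1 (S.pr a 1) x
  have := S.D_comm b x (S.pr a 1)
  omega

theorem MT.near {x : G} {o : Option A} {y : G} (h : S.MT x o y) :
    ∀ a, o = some a → S.D a x y ≤ 2 * S.θ := by
  induction h with
  | nil o => intro a _; rw [S.D_self]; omega
  | cons o b ρ y h0 h1 h2 h3 h4 h5 _ ih =>
    intro a ha
    have hL := S.L_big
    have hθ := S.θ_pos
    have k1 := ih b rfl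
    rw [← S.D_rot h1] at k1
    have t := S.D_tri b 1 (ρ * y) (ρ * x)
    have := S.D_comm b (ρ * y) (ρ * x)
    have k2 := h0.see ha (x := x) (by omega) (S.on_pr b 1)
    have k3 := h0.see ha (x := ρ * y) (by omega) (S.on_pr b 1)
    have t2 := S.D_tri a x (S.pr b 1) (ρ * y)
    have := S.D_comm a (S.pr b 1) (ρ * y)
    omega

theorem Cu.start {x u : G} {o : Option A} (hu : S.Cu x o u) {b : A} (hb : S.Rt o b)
    (hl : S.L ≤ 5 * S.D b 1 x) : S.D b u 1 ≤ 2 * S.θ := by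
  have hL := S.L_big
  have hθ := S.θ_pos
  cases o with
  | none => rw [hu.1 rfl, S.D_self]; omega
  | some a =>
    obtain ⟨h1, h2⟩ := hu.2 a rfl
    obtain ⟨h3, h4⟩ := hb a rfl
    have k1 := hb.see rfl (x := x) (by omega) (S.on_pr b 1)
    have k2 := S.D_beh h3 (S.on_pr b 1) (S.on_pr a 1) u
    have k3 := h4 _ (S.on_pr a 1)
    have t1 := S.D_tri a u (S.pr b 1) x
    have t2 := S.D_tri b u (S.pr a 1) 1
    simp only [S.D_comm] at *
    omega

theorem Cu.next {x u : G} {o : Option A} (hu : S.Cu x o u) {b : A} (hb : S.Rt o b)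
    (hl : S.L ≤ 5 * S.D b 1 x) {ρ : G} (h1 : ρ ∈ S.Rot b) (h2 : S.L ≤ 5 * S.D b 1 (ρ * x)) :
    S.Cu x (some b) (ρ⁻¹ * u) := by
  refine ⟨by simp, ?_⟩
  rintro a ⟨rfl⟩
  refine ⟨hl, ?_⟩
  have k1 := hu.start hb hl
  rw [← S.D_rot h1, mul_inv_cancel_left]
  have t := S.D_tri b 1 u (ρ * x)
  have := S.D_comm b u 1
  omega

theorem Rt.trans {x : G} {o : Option A} {b c : A} (hb : S.Rt o b) (hc : S.Rt (some b) c)
    (ho : ∀ a, o = some a → S.L ≤ 5 * S.D a 1 x) (hl : S.L ≤ 5 * S.D b 1 x)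
    (hl' : S.L ≤ 5 * S.D c 1 x) : S.Rt o c := by
  intro a ha
  have hL := S.L_big
  have hθ := S.θ_pos
  have h0 := ho a ha
  obtain ⟨h1, h2⟩ := hb a ha
  have k1 := hc.see rfl (x := x) (by omega) (S.on_pr c 1)
  have t1 := S.D_tri b 1 (S.pr c 1) x
  have e1 := S.D_comm b x (S.pr c 1)
  have k2 := hb.see ha (x := S.pr c 1) (by omega) (S.on_pr b 1)
  have k3 := hb.see ha (x := x) (by omega) (S.on_pr b 1)
  have hac : a ≠ c := by
    rintro rfl
    have := h2 _ (S.on_pr a 1)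
    omega
  refine ⟨hac, fun p hp => ?_⟩
  have k4 := S.D_beh hac (S.on_pr c 1) hp 1
  have t2 := S.D_tri a 1 (S.pr c 1) x
  have t3 := S.D_tri a (S.pr c 1) (S.pr b 1) x
  have := S.D_comm a x (S.pr b 1)
  omega

theorem MT.weaken {x y : G} {o : Option A} {b : A} (h : S.MT x (some b) y) (hb : S.Rt o b)
    (ho : ∀ a, o = some a → S.L ≤ 5 * S.D a 1 x) (hl : S.L ≤ 5 * S.D b 1 x) : S.MT x o y := by
  cases h with
  | nil o => exact MT.nil _
  | cons o c ρ y h0 h1 h2 h3 h4 h5 h6 =>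
    exact MT.cons _ c ρ y (hb.trans h0 ho hl h3) h1 h2 h3 h4 h5 h6

theorem MT.cright {x y u : G} {o : Option A} (h : S.MT x o y) (hu : S.Cu x o u) {c : A}
    (hc : ∀ a, o = some a → c ≠ a ∧ ∀ p, S.On c p → S.D a p y ≤ S.θ) :
    S.Rt o c ∧ S.D c u 1 ≤ 2 * S.θ := by
  have hL := S.L_big
  have hθ := S.θ_pos
  cases o with
  | none => exact ⟨by intro a ha; simp at ha, by rw [hu.1 rfl, S.D_self]; omega⟩
  | some a =>
    obtain ⟨h1, h2⟩ := hu.2 a rfl
    obtain ⟨h3, h4⟩ := hc a rfl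
    have k1 := h.near a rfl
    have k2 := h4 _ (S.on_pr c 1)
    have t1 := S.D_tri a 1 (S.pr c 1) x
    have t2 := S.D_tri a u (S.pr c 1) x
    have t3 := S.D_tri a (S.pr c 1) y x
    have e1 := S.D_comm a x y
    have k3 : ∀ p, S.On a p → S.D c 1 p ≤ S.θ := by
      intro p hp
      have := S.D_beh h3.symm (S.on_pr c 1) hp 1
      omega
    refine ⟨?_, ?_⟩
    · rintro a' ⟨rfl⟩; exact ⟨h3.symm, k3⟩
    · have k4 := k3 _ (S.on_pr a 1)
      have k5 := S.D_beh h3.symm (S.on_pr c 1) (S.on_pr a 1) u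
      have t4 := S.D_tri c u (S.pr a 1) 1
      have := S.D_comm c 1 (S.pr a 1)
      omega

theorem MT.toggle {x : G} (hx : ∀ a, 9 * S.D a 1 x ≤ 7 * S.L) {o : Option A} {y : G}
    (h : S.MT x o y) : ∀ u c, S.Cu x o u →
      (∀ a, o = some a → c ≠ a ∧ ∀ p, S.On c p → S.D a p y ≤ S.θ) →
      S.L + 20 * S.θ ≤ 5 * S.D c u y →
      9 * S.D c u y ≤ 7 * S.L + 36 * S.θ ∧
      ∀ σ ∈ S.Rot c, σ ≠ 1 → S.L + 20 * S.θ ≤ 5 * S.D c u (σ * y) →
        9 * S.D c u (σ * y) + 36 * S.θ ≤ 7 * S.L → S.MT x o (σ * y) := by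
  have hL := S.L_big
  have hθ := S.θ_pos
  induction h with
  | nil o =>
    intro u c hu hc hl
    obtain ⟨k1, k2⟩ := (MT.nil o).cright hu hc
    have k3 := hx c
    have t1 := S.D_tri c u 1 x
    refine ⟨by omega, fun σ h1 h2 h3 h4 => ?_⟩
    have t2 := S.D_tri c u 1 (σ * x)
    have t3 := S.D_tri c 1 u (σ * x)
    have := S.D_comm c u 1
    exact MT.cons o c σ x k1 h1 h2 (by omega) (by omega) (by omega) (MT.nil _)
  | cons o b ρ y h0 h1 h2 h3 h4 h5 h6 ih =>
    intro u c hu hc hl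
    have k1 := hu.start h0 h3
    have k2 := h6.near b rfl
    have k2' := k2
    rw [← S.D_rot h1] at k2'
    have e1 := S.D_comm b u 1
    have e2 := S.D_comm b (ρ * x) (ρ * y)
    have t1 := S.D_tri b u 1 (ρ * y)
    have t2 := S.D_tri b 1 (ρ * x) (ρ * y)
    have t3 := S.D_tri b 1 u (ρ * y)
    have t4 := S.D_tri b 1 (ρ * y) (ρ * x)
    by_cases hcb : c = b
    · subst hcb
      refine ⟨by omega, fun σ s1 s2 s3 s4 => ?_⟩
      rw [← mul_assoc] at *
      by_cases s5 : σ * ρ = 1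
      · rw [s5, one_mul]; exact h6.weaken h0 (fun a ha => (hu.2 a ha).1) h3
      · have m := (S.Rot c).mul_mem s1 h1
        rw [← S.D_rot m] at k2
        have e3 := S.D_comm c (σ * ρ * x) (σ * ρ * y)
        have t5 := S.D_tri c u 1 (σ * ρ * y)
        have t6 := S.D_tri c 1 (σ * ρ * x) (σ * ρ * y)
        have t7 := S.D_tri c 1 u (σ * ρ * y)
        have t8 := S.D_tri c 1 (σ * ρ * y) (σ * ρ * x)
        exact MT.cons o c _ y h0 m s5 h3 (by omega) (by omega) h6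
    by_cases hlr : ∀ q, S.On c q → S.D b u q ≤ S.θ
    · have hm : S.MT x o (ρ * y) := MT.cons o b ρ y h0 h1 h2 h3 h4 h5 h6
      obtain ⟨k3, k4⟩ := hm.cright hu hc
      have k5 := hlr _ (S.on_pr c 1)
      have k6 := S.D_beh hcb (S.on_pr b 1) (S.on_pr c 1) (ρ * y)
      have k7 := S.D_beh hcb (S.on_pr b 1) (S.on_pr c 1) x
      have t5 := S.D_tri b u (S.pr c 1) (ρ * y)
      have t6 := S.D_tri b u (S.pr c 1) x
      have t7 := S.D_tri b 1 u x
      have e3 := S.D_comm b (ρ * y) (S.pr c 1)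
      have e4 := S.D_comm b x (S.pr c 1)
      have k8 : S.D c (ρ * y) (S.pr b 1) ≤ S.θ := by omega
      have k9 : S.D c x (S.pr b 1) ≤ S.θ := by omega
      have t8 := S.D_tri c x (S.pr b 1) (ρ * y)
      have e5 := S.D_comm c (ρ * y) (S.pr b 1)
      have t9 := S.D_tri c u 1 (ρ * y)
      have t10 := S.D_tri c 1 x (ρ * y)
      have k10 := hx c
      refine ⟨by omega, fun σ s1 s2 s3 s4 => ?_⟩
      have k11 : S.D c (σ * x) (σ * (ρ * y)) ≤ 2 * S.θ := by rw [S.D_rot s1]; omega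
      have e6 := S.D_comm c (σ * x) (σ * (ρ * y))
      have e7 := S.D_comm c u 1
      have t11 := S.D_tri c u 1 (σ * (ρ * y))
      have t12 := S.D_tri c 1 (σ * x) (σ * (ρ * y))
      have t13 := S.D_tri c 1 u (σ * (ρ * y))
      have t14 := S.D_tri c 1 (σ * (ρ * y)) (σ * x)
      refine MT.cons o c σ _ k3 s1 s2 (by omega) (by omega) (by omega)
        (MT.cons _ b ρ y ?_ h1 h2 h3 h4 h5 h6)
      rintro a ⟨rfl⟩
      refine ⟨hcb, fun q hq => ?_⟩
      have k12 := S.D_beh hcb (S.on_pr b 1) hq 1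
      have t15 := S.D_tri c 1 (S.pr b 1) (ρ * y)
      omega
    · push Not at hlr
      obtain ⟨q, hq, hq'⟩ := hlr
      have k3 : S.D c u (S.pr b 1) ≤ S.θ := by
        have := S.D_beh hcb (S.on_pr b 1) hq u
        omega
      have e3 : ∀ v, S.D (ρ⁻¹ • c) (ρ⁻¹ * u) v = S.D c u (ρ * v) := by
        intro v; rw [S.D_inv, mul_inv_cancel_left]
      obtain ⟨i1, i2⟩ := ih (ρ⁻¹ * u) (ρ⁻¹ • c) (hu.next h0 h3 h1 h4) (by
        rintro a ⟨rfl⟩
        refine ⟨fun hh => hcb ?_, fun p hp => ?_⟩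
        · rw [← S.rot_smul b ρ h1, ← hh, smul_inv_smul]
        · have hp' := S.on_smul ρ _ p hp
          rw [smul_inv_smul] at hp'
          have k4 := S.D_beh hcb (S.on_pr b 1) hp' (ρ * y)
          have t5 := S.D_tri c u (S.pr b 1) (ρ * y)
          have e4 := S.D_comm c (ρ * y) (S.pr b 1)
          rw [S.D_rot h1, S.D_comm b y p] at k4
          omega) (by rw [e3]; exact hl)
      rw [e3] at i1
      refine ⟨i1, fun σ s1 s2 s3 s4 => ?_⟩
      have e4 : ρ * (ρ⁻¹ * σ * ρ⁻¹⁻¹ * y) = σ * (ρ * y) := by group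
      have := i2 _ (S.rot_conj ρ⁻¹ c σ s1) (by
        intro hh; apply s2
        have : σ = ρ * (ρ⁻¹ * σ * ρ⁻¹⁻¹) * ρ⁻¹ := by group
        rw [this, hh]; simp) (by rw [e3, e4]; exact s3) (by rw [e3, e4]; exact s4)
      rw [← e4]
      exact MT.cons o b ρ _ h0 h1 h2 h3 h4 h5 this

/-- The point `z` lies along the turned arc of `y` on the axis `a`. -/
def Arc (S : Sys M A) (x u z y : G) (c : ℕ) : Prop :=
  ∃ a ρ, ρ ∈ S.Rot a ∧ ρ ≠ 1 ∧ S.L ≤ 5 * S.D a 1 x ∧ S.L ≤ 5 * S.D a 1 (ρ * x) ∧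
    9 * S.D a 1 (ρ * x) ≤ 7 * S.L ∧ S.D a u 1 ≤ 2 * S.θ ∧ S.D a y (ρ * x) ≤ 2 * S.θ ∧
    M.d (S.pr a u) z + M.d z (S.pr a y) ≤ S.D a u y + c

theorem MT.locate {x : G} {o : Option A} {y : G} (h : S.MT x o y) (c : ℕ) :
    ∀ u z, S.Cu x o u → M.d u z + M.d z y ≤ M.d u y + c →
      (∀ a, o = some a → M.d u (S.pr a y) ≤ M.d u z) →
      ∃ ν ∈ S.N, M.d 1 (ν * z) + M.d (ν * z) x ≤ M.d 1 x + 2 * c + 17 * S.θ ∨
        S.Arc x (ν * u) (ν * z) (ν * y) (2 * c + 5 * S.θ) := by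
  have hL := S.L_big
  have hθ := S.θ_pos
  induction h with
  | nil o =>
    intro u z hu hz ho
    refine ⟨1, S.N.one_mem, Or.inl ?_⟩
    rw [one_mul]
    cases o with
    | none => rw [hu.1 rfl] at hz; omega
    | some a =>
      have k1 := S.hyp.bt_right hz (ho a rfl)
      have k2 := S.D_far a 1 x
      have k3 := (hu.2 a rfl).1
      have t1 := M.d_tri 1 (S.pr a x) z
      have t2 := M.d_tri 1 (S.pr a 1) (S.pr a x)
      unfold D at *
      omega
  | cons o b ρ y h0 h1 h2 h3 h4 h5 h6 ih =>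
    intro u z hu hz ho
    have k1 := hu.start h0 h3
    have k2 := h6.near b rfl
    rw [← S.D_rot h1] at k2
    have e1 := S.D_comm b u 1
    have e2 := S.D_comm b (ρ * x) (ρ * y)
    have t3 := S.D_tri b 1 u (ρ * y)
    have t4 := S.D_tri b 1 (ρ * y) (ρ * x)
    have k3 := S.D_far b u (ρ * y)
    have t5 := M.d_tri u (S.pr b u) (S.pr b (ρ * y))
    have t6 := M.d_tri (S.pr b u) (S.pr b (ρ * y)) (ρ * y)
    have t7 := M.d_tri u (S.pr b (ρ * y)) (ρ * y)
    have e3 : S.D b u (ρ * y) = M.d (S.pr b u) (S.pr b (ρ * y)) := rfl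
    by_cases c1 : M.d u (S.pr b (ρ * y)) ≤ M.d u z
    · obtain ⟨ν, hν, hh⟩ := ih (ρ⁻¹ * u) (ρ⁻¹ * z) (hu.next h0 h3 h1 h4) (by
        rw [← M.d_mul ρ (ρ⁻¹ * z), ← M.d_mul ρ (ρ⁻¹ * u) y, M.d_mul ρ⁻¹, mul_inv_cancel_left,
          mul_inv_cancel_left]
        exact hz) (by
        rintro a ⟨rfl⟩
        rw [← M.d_mul ρ, M.d_mul ρ⁻¹, mul_inv_cancel_left, ← S.pr_rot h1]
        exact c1)
      refine ⟨ν * ρ⁻¹, S.N.mul_mem hν (S.N.inv_mem (S.rot_le_N h1)), ?_⟩
      simpa only [mul_assoc, inv_mul_cancel_left] using hh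
    refine ⟨1, S.N.one_mem, ?_⟩
    simp only [one_mul]
    by_cases c2 : M.d u (S.pr b u) ≤ M.d u z
    · right
      have k4 := S.hyp.bt_left (q := S.pr b (ρ * y)) (e := S.θ) hz (by omega) (by omega)
      have k5 := S.hyp.bt_right (c := c + 2 * S.θ) (y := S.pr b (ρ * y)) (by omega) c2
      exact ⟨b, ρ, h1, h2, h3, h4, h5, k1, by omega, by omega⟩
    · left
      have k4 := S.hyp.bt_left (q := S.pr b u) (e := S.θ) hz (by omega) (by omega)
      have k5 := S.D_far b 1 x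
      have t8 := M.d_tri (S.pr b 1) (S.pr b x) x
      have e4 : S.D b 1 x = M.d (S.pr b 1) (S.pr b x) := rfl
      have t9 := M.d_tri z (S.pr b u) x
      cases o with
      | none => obtain rfl := hu.1 rfl; omega
      | some a =>
        have k6 := S.hyp.bt_right (c := c + 2 * S.θ) (y := S.pr b u) (by omega) (ho a rfl)
        have k7 := (MT.cons _ b ρ y h0 h1 h2 h3 h4 h5 h6).near a rfl
        have k8 := h0.see rfl (x := x) (by omega) (S.on_pr b 1)
        have k9 := S.D_far a 1 (S.pr b 1)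
        have k10 := (hu.2 a rfl).1
        have t10 := S.D_tri a 1 (S.pr b 1) x
        have t11 := S.D_tri a (ρ * y) x (S.pr b 1)
        have t12 := M.d_tri 1 (S.pr a (ρ * y)) z
        have t13 := M.d_tri 1 (S.pr a 1) (S.pr a (ρ * y))
        have t14 := M.d_tri (S.pr a 1) (S.pr a (S.pr b 1)) (S.pr a (ρ * y))
        have t15 := M.d_tri (S.pr a (ρ * y)) (S.pr b 1) (S.pr b u)
        have t16 := M.d_tri (S.pr a (ρ * y)) (S.pr a (S.pr b 1)) (S.pr b 1)
        have t17 := M.d_tri (S.pr b u) (S.pr b 1) x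
        unfold D at *
        simp only [M.d_comm] at *
        omega

/-- Closing up a triangle by multi-turns of two of its sides. -/
theorem close {x w v : G} (hx : S.Sh x) (hw : S.Sh w) (hv : S.Sh v) (hN : x * w * v⁻¹ ∈ S.N) :
    ∃ w', S.MT w none w' ∧ S.MT v none (x * w') := by
  have hL := S.L_big
  have hθ := S.θ_pos
  have key : ∀ n w' v', S.MT w none w' → S.MT v none v' → x * w' * v'⁻¹ ∈ S.N →
      M.l (x * w' * v'⁻¹) < n → ∃ w', S.MT w none w' ∧ S.MT v none (x * w') := by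
    intro n
    induction n with
    | zero => intro _ _ _ _ _ h; omega
    | succ n ih =>
      intro w' v' h1 h2 h3 h4
      by_cases h5 : x * w' * v'⁻¹ = 1
      · exact ⟨w', h1, by rw [mul_inv_eq_one.mp h5]; exact h2⟩
      obtain ⟨a, ha⟩ := green h3 h5
      set u := x * w' * v'⁻¹ with hu
      obtain ⟨η, ρ, hη, hle⟩ := S.orient a 1 u
      have sh := S.shorten hη hle (by omega)
      rw [M.d_one, M.d_one] at sh
      have hN' : ρ * u ∈ S.N := S.N.mul_mem (S.rot_le_N hη.mem) h3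
      have k1 := hη.ge 1 u
      have k2 := hη.le x 1
      have k3 := hx.arc a
      have e1 := S.D_comm a x 1
      have cu : ∀ y, S.Cu y none 1 := fun y => ⟨fun _ => rfl, by simp⟩
      by_cases hc : η u - η (x * w') ≤ η (x * w') - η x
      · have k4 := hη.le (x * w') x
        have e2 := S.D_comm a (x * w') x
        have e3 : ∀ y, S.D (x⁻¹ • a) 1 y = S.D a x (x * y) := by
          intro y; rw [S.D_inv, mul_one]
        obtain ⟨i1, i2⟩ := h1.toggle (fun b => by have := hw.arc b; omega) 1 (x⁻¹ • a) (cu w)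
          (by simp) (by rw [e3]; omega)
        rw [e3] at i1
        have e4 : x * (x⁻¹ * ρ * x⁻¹⁻¹ * w') = ρ * (x * w') := by group
        have k5 := hη.sh (x * w')
        have k6 := hη.le x (ρ * (x * w'))
        have k7 := hη.ge x (ρ * (x * w'))
        have := i2 _ (S.rot_conj x⁻¹ a ρ hη.mem) (by
          intro hh; apply hη.ne_one
          have : ρ = x * (x⁻¹ * ρ * x⁻¹⁻¹) * x⁻¹ := by group
          rw [this, hh]; simp) (by rw [e3, e4]; omega) (by rw [e3, e4]; omega)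
        have e5 : x * (x⁻¹ * ρ * x⁻¹⁻¹ * w') * v'⁻¹ = ρ * u := by rw [hu]; group
        exact ih _ v' this h2 (by rw [e5]; exact hN') (by rw [e5]; omega)
      · have e0 : u * v' = x * w' := by rw [hu]; group
        have k4 := hη.le u (x * w')
        have e3 : ∀ y, S.D (u⁻¹ • a) 1 y = S.D a u (u * y) := by
          intro y; rw [S.D_inv, mul_one]
        obtain ⟨i1, i2⟩ := h2.toggle (fun b => by have := hv.arc b; omega) 1 (u⁻¹ • a) (cu v)
          (by simp) (by rw [e3, e0]; omega)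
        rw [e3, e0] at i1
        have e4 : u * (u⁻¹ * ρ⁻¹ * u⁻¹⁻¹ * v') = ρ⁻¹ * (x * w') := by rw [← e0]; group
        have k5 := hη.sh (ρ⁻¹ * (x * w'))
        rw [mul_inv_cancel_left] at k5
        have k6 := hη.le (ρ⁻¹ * (x * w')) u
        have k7 := hη.ge u (ρ⁻¹ * (x * w'))
        have e6 := S.D_comm a u (ρ⁻¹ * (x * w'))
        have := i2 _ (S.rot_conj u⁻¹ a ρ⁻¹ ((S.Rot a).inv_mem hη.mem)) (by
          intro hh; apply hη.ne_one
          have : ρ = (u * (u⁻¹ * ρ⁻¹ * u⁻¹⁻¹) * u⁻¹)⁻¹ := by group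
          rw [this, hh]; simp) (by rw [e3, e4]; omega) (by rw [e3, e4]; omega)
        have e5 : x * w' * (u⁻¹ * ρ⁻¹ * u⁻¹⁻¹ * v')⁻¹ = ρ * u := by rw [← e0]; group
        exact ih w' _ h1 this (by rw [e5]; exact hN') (by rw [e5]; omega)
  exact key _ w v (MT.nil _) (MT.nil _) hN (Nat.lt_succ_self _)

end Sys

end Pool.Agent.TorAN
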