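import Pool.Agent.P.MP_aa4716_al.Sys

set_option autoImplicit false

namespace Pool.Agent.TorAN

namespace Sys

variable {G : Type} [Group G] {M : Nm G} {A : Type} [MulAction G A] (S : Sys M A)

/-- A windmill: a subgroup `H`, an `H`-invariant region `W` and the set `T` of treated axes. -/
structure Mill (k : ℕ) (H : Subgroup G) (W : Set G) (T : Set A) : Prop where
  inv : ∀ h ∈ H, ∀ w ∈ W, h * w ∈ W
  invT : ∀ h ∈ H, ∀ a ∈ T, h • a ∈ T
  rot : ∀ a ∈ T, ∀ ρ ∈ S.Rot a, ρ ∈ H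
  small : ∀ a, a ∉ T → ∀ x ∈ W, ∀ y ∈ W, S.D a x y ≤ 6 * S.θ
  green : ∀ h ∈ H, h ≠ 1 → ∃ a, S.L ≤ S.D a 1 h + 13 * S.θ
  ball : ∀ x, M.l x ≤ k → x ∈ W

/-- Normal forms for the group generated by `H` and the rotations about axes of `P`. -/
inductive NF (H : Subgroup G) (P : Set A) : Option A → G → Prop
  | base (o : Option A) (h : G) : h ∈ H → NF H P o h
  | cons (o : Option A) (a : A) (ρ g : G) : a ∈ P → some a ≠ o → ρ ∈ S.Rot a → ρ ≠ 1 →
      NF H P (some a) g → NF H P o (ρ * g)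

variable {S}

theorem NF.weaken {H : Subgroup G} {P : Set A} {o : Option A} {g : G} (h : S.NF H P o g) :
    S.NF H P none g := by
  cases h with
  | base o h hh => exact NF.base _ _ hh
  | cons o a ρ g ha _ h1 h2 h3 => exact NF.cons _ a ρ g ha (by simp) h1 h2 h3

theorem NF.mulH {H : Subgroup G} {P : Set A} (hP : ∀ h ∈ H, ∀ a ∈ P, h • a ∈ P) {h : G}
    (hh : h ∈ H) {o : Option A} {g : G} (hg : S.NF H P o g) :
    S.NF H P (o.map (fun a => h • a)) (h * g) := by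
  induction hg with
  | base o g hg => exact NF.base _ _ (H.mul_mem hh hg)
  | cons o a ρ g ha h0 h1 h2 _ ih =>
    have e : h * (ρ * g) = (h * ρ * h⁻¹) * (h * g) := by group
    rw [e]
    refine NF.cons _ (h • a) _ _ (hP h hh a ha) ?_ (S.rot_conj h a ρ h1) ?_ ih
    · cases o with
      | none => simp
      | some b =>
        intro hc
        apply h0
        simp only [Option.map_some, Option.some.injEq, smul_left_cancel_iff] at hc
        rw [hc]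
    · intro hc; apply h2
      have : ρ = h⁻¹ * (h * ρ * h⁻¹) * h := by group
      rw [this, hc]; simp

theorem NF.mulR {H : Subgroup G} {P : Set A} {a : A} (ha : a ∈ P) {ρ : G} (hρ : ρ ∈ S.Rot a)
    {g : G} (hg : S.NF H P none g) : S.NF H P none (ρ * g) := by
  by_cases h1 : ρ = 1
  · rw [h1, one_mul]; exact hg
  cases hg with
  | base o h hh => exact NF.cons _ a ρ _ ha (by simp) hρ h1 (NF.base _ _ hh)
  | cons o b σ g hb _ h2 h3 h4 =>
    by_cases hab : b = a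
    · subst hab
      by_cases h5 : ρ * σ = 1
      · rw [← mul_assoc, h5, one_mul]; exact h4.weaken
      · rw [← mul_assoc]
        exact NF.cons _ b _ _ hb (by simp) ((S.Rot b).mul_mem hρ h2) h5 h4
    · exact NF.cons _ a ρ _ ha (by simp) hρ h1
        (NF.cons _ b σ g hb (by simpa using hab) h2 h3 h4)

theorem NF.of_closure {H : Subgroup G} {P : Set A} (hP : ∀ h ∈ H, ∀ a ∈ P, h • a ∈ P) {g : G}
    (hg : g ∈ Subgroup.closure ((H : Set G) ∪ {ρ | ∃ a ∈ P, ρ ∈ S.Rot a})) : S.NF H P none g := by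
  induction hg using Subgroup.closure_induction_left with
  | one => exact NF.base _ _ H.one_mem
  | mul_left x hx y _ ih =>
    rcases hx with hx | ⟨a, ha, hx⟩
    · exact ih.mulH hP hx
    · exact ih.mulR ha hx
  | inv_mul_cancel x hx y _ ih =>
    rcases hx with hx | ⟨a, ha, hx⟩
    · exact ih.mulH hP (H.inv_mem hx)
    · exact ih.mulR ha ((S.Rot a).inv_mem hx)

theorem touch {V : Set G} {a c : A} (ha : ∃ x ∈ V, ∃ y ∈ V, 2 * S.θ < S.D a x y) (hc : a ≠ c)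
    {p : G} (hp : S.On a p) : ∃ x ∈ V, S.D c x p ≤ S.θ := by
  obtain ⟨x, hx, y, hy, h⟩ := ha
  have t := S.D_tri a x (S.pr c 1) y
  have e := S.D_comm a y (S.pr c 1)
  rcases S.D_beh hc (S.on_pr c 1) hp x with h1 | h1
  · rcases S.D_beh hc (S.on_pr c 1) hp y with h2 | h2
    · omega
    · exact ⟨y, hy, h2⟩
  · exact ⟨x, hx, h1⟩

section step

variable {H : Subgroup G} {V : Set G} {P : Set A}
  (hV : ∀ h ∈ H, ∀ w ∈ V, h * w ∈ V)
  (hPl : ∀ a ∈ P, ∃ x ∈ V, ∃ y ∈ V, 2 * S.θ < S.D a x y)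
  (hPs : ∀ a ∈ P, ∀ x ∈ V, ∀ y ∈ V, S.D a x y ≤ 10 * S.θ)

include hV hPl hPs in
theorem canoe {o : Option A} {g : G} (hg : S.NF H P o g) {w : G} (hw : w ∈ V) :
    ∀ a ∈ P, o = some a → ∃ w' ∈ V, S.D a w' (g * w) ≤ 2 * S.θ := by
  induction hg with
  | base o h hh => intro a _ _; exact ⟨h * w, hV h hh w hw, by rw [S.D_self]; omega⟩
  | cons o b ρ g hb h0 h1 h2 _ ih =>
    intro a ha ho
    have hab : a ≠ b := by rintro rfl; exact h0 ho.symm
    obtain ⟨w', hw', h3⟩ := ih b hb rfl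
    obtain ⟨x, hx, h4⟩ := touch (hPl a ha) hab (S.on_pr a 1)
    obtain ⟨x', hx', h5⟩ := touch (hPl b hb) hab.symm (S.on_pr b 1)
    refine ⟨x', hx', ?_⟩
    have h6 := S.D_big h1 h2 (g * w)
    have h7 := hPs b hb x hx w' hw'
    have h8 := S.D_beh hab (S.on_pr b 1) (S.on_pr a 1) (ρ * (g * w))
    have t1 := S.D_tri b (g * w) w' (ρ * (g * w))
    have t2 := S.D_tri b w' x (ρ * (g * w))
    have t3 := S.D_tri b x (S.pr a 1) (ρ * (g * w))
    have t4 := S.D_tri a x' (S.pr b 1) (ρ * (g * w))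
    have := S.L_big
    have := S.θ_pos
    rw [mul_assoc]
    simp only [S.D_comm] at *
    omega

include hV hPl hPs in
theorem narrow {Z : Set A} (hZ : ∀ c ∈ Z, c ∉ P ∧ (∀ x ∈ V, ∀ y ∈ V, S.D c x y ≤ 2 * S.θ))
    (hZr : ∀ c ∈ Z, ∀ a ∈ P, ∀ ρ ∈ S.Rot a, ρ⁻¹ • c ∈ Z)
    {o : Option A} {g : G} (hg : S.NF H P o g) {w : G} (hw : w ∈ V) :
    ∀ c ∈ Z, ∀ u, (∀ w' ∈ V, S.D c u w' ≤ 4 * S.θ) →
      (∀ a ∈ P, some a ≠ o → ∀ w' ∈ V, S.D a u w' ≤ 12 * S.θ) → S.D c u (g * w) ≤ 6 * S.θ := by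
  induction hg with
  | base o h hh => intro c _ u h1 _; have := h1 _ (hV h hh w hw); omega
  | cons o b ρ g hb h0 h1 h2 h3 ih =>
    intro c hc u u1 u2
    have hL := S.L_big
    have hθ := S.θ_pos
    have hbc : b ≠ c := by rintro rfl; exact (hZ b hc).1 hb
    obtain ⟨w', hw', k1⟩ := canoe hV hPl hPs h3 hw b hb rfl
    have k2 := u2 b hb h0 w' hw'
    have k3 := S.D_big h1 h2 (g * w)
    have t1 := S.D_tri b (g * w) u (ρ * (g * w))
    have t2 := S.D_tri b u w' (g * w)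
    rw [mul_assoc]
    rcases S.D_beh hbc (S.on_pr c 1) (S.on_pr b 1) (ρ * (g * w)) with k4 | k4
    · have k5 : S.D c u (S.pr b 1) ≤ S.θ := by
        have k6 := S.D_beh hbc (S.on_pr c 1) (S.on_pr b 1) u
        have t3 := S.D_tri b u (S.pr c 1) (ρ * (g * w))
        simp only [S.D_comm] at *
        omega
      have hc' := hZr c hc b hb ρ h1
      have hp' : S.On b (ρ⁻¹ * S.pr b 1) := S.on_rot ((S.Rot b).inv_mem h1) (S.on_pr b 1)
      have hbc' : b ≠ ρ⁻¹ • c := by rintro hh; exact (hZ _ hc').1 (hh ▸ hb)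
      have := ih (ρ⁻¹ • c) hc' (ρ⁻¹ * u) ?_ ?_
      · rwa [S.D_inv, mul_inv_cancel_left] at this
      · intro v hv
        obtain ⟨x, hx, k7⟩ := touch (hPl b hb) hbc' hp'
        have k8 := (hZ _ hc').2 x hx v hv
        have k9 : S.D (ρ⁻¹ • c) (ρ⁻¹ * u) (ρ⁻¹ * S.pr b 1) ≤ S.θ := by rw [S.D_smul]; exact k5
        have t4 := S.D_tri (ρ⁻¹ • c) (ρ⁻¹ * u) (ρ⁻¹ * S.pr b 1) v
        have t5 := S.D_tri (ρ⁻¹ • c) (ρ⁻¹ * S.pr b 1) x v
        simp only [S.D_comm] at *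
        omega
      · intro a ha hne v hv
        have hab : a ≠ b := by rintro rfl; exact hne rfl
        obtain ⟨x, hx, k7⟩ := touch (hPl a ha) hab (S.on_pr a 1)
        obtain ⟨x', hx', k8⟩ := touch (hPl b hb) hab.symm (S.on_pr b 1)
        have k9 := S.D_big ((S.Rot b).inv_mem h1) (inv_ne_one.mpr h2) u
        have k10 := u2 b hb h0 x hx
        have k11 := S.D_beh hab (S.on_pr b 1) (S.on_pr a 1) (ρ⁻¹ * u)
        have k12 := hPs a ha x' hx' v hv
        have t4 := S.D_tri b u x (ρ⁻¹ * u)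
        have t5 := S.D_tri b x (S.pr a 1) (ρ⁻¹ * u)
        have t6 := S.D_tri a (ρ⁻¹ * u) (S.pr b 1) v
        have t7 := S.D_tri a (S.pr b 1) x' v
        simp only [S.D_comm] at *
        omega
    · obtain ⟨x, hx, k7⟩ := touch (hPl b hb) hbc (S.on_pr b 1)
      have k8 := u1 x hx
      have t4 := S.D_tri c u x (ρ * (g * w))
      have t5 := S.D_tri c x (S.pr b 1) (ρ * (g * w))
      simp only [S.D_comm] at *
      omega

end step

theorem Mill.step {k : ℕ} {H : Subgroup G} {W : Set G} {T : Set A} (m : S.Mill k H W T) :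
    ∃ H' W' T', S.Mill (k + 1) H' W' T' := by
  have hθ := S.θ_pos
  have hL := S.L_big
  let V : Set G := {x | ∃ w ∈ W, M.d w x ≤ 1}
  let P : Set A := {a | a ∉ T ∧ ∃ x ∈ V, ∃ y ∈ V, 2 * S.θ < S.D a x y}
  have hV : ∀ h ∈ H, ∀ w ∈ V, h * w ∈ V := by
    rintro h hh x ⟨w, hw, h1⟩
    exact ⟨h * w, m.inv h hh w hw, by rw [M.d_mul]; exact h1⟩
  have hVs : ∀ a, a ∉ T → ∀ x ∈ V, ∀ y ∈ V, S.D a x y ≤ 10 * S.θ := by
    rintro a ha x ⟨w, hw, h1⟩ y ⟨w', hw', h2⟩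
    have k1 := m.small a ha w hw w' hw'
    have k2 := S.D_lip a w x
    have k3 := S.D_lip a w' y
    have t1 := S.D_tri a x w y
    have t2 := S.D_tri a w w' y
    have := S.D_comm a x w
    omega
  have hPl : ∀ a ∈ P, ∃ x ∈ V, ∃ y ∈ V, 2 * S.θ < S.D a x y := fun a ha => ha.2
  have hPs : ∀ a ∈ P, ∀ x ∈ V, ∀ y ∈ V, S.D a x y ≤ 10 * S.θ := fun a ha => hVs a ha.1
  have hP : ∀ h ∈ H, ∀ a ∈ P, h • a ∈ P := by
    rintro h hh a ⟨h1, x, hx, y, hy, h2⟩
    refine ⟨fun hc => h1 ?_, h * x, hV h hh x hx, h * y, hV h hh y hy, by rwa [S.D_smul]⟩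
    simpa using m.invT h⁻¹ (H.inv_mem hh) _ hc
  have h1V : (1 : G) ∈ V := ⟨1, m.ball 1 (by rw [M.l_one]; omega), by rw [M.d_self]; omega⟩
  let H' := Subgroup.closure ((H : Set G) ∪ {ρ | ∃ a ∈ P, ρ ∈ S.Rot a})
  have hrot : ∀ a ∈ P, ∀ ρ ∈ S.Rot a, ρ ∈ H' := fun a ha ρ hρ =>
    Subgroup.subset_closure (Or.inr ⟨a, ha, hρ⟩)
  let T' : Set A := {c | ∃ g ∈ H', ∃ a, (a ∈ T ∨ a ∈ P) ∧ c = g • a}
  have hT' : ∀ h ∈ H', ∀ a ∈ T', h • a ∈ T' := by
    rintro h hh _ ⟨g, hg, a, ha, rfl⟩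
    exact ⟨h * g, H'.mul_mem hh hg, a, ha, by rw [mul_smul]⟩
  refine ⟨H', {x | ∃ g ∈ H', ∃ v ∈ V, x = g * v}, T', ?_, hT', ?_, ?_, ?_, ?_⟩
  · rintro h hh _ ⟨g, hg, v, hv, rfl⟩
    exact ⟨h * g, H'.mul_mem hh hg, v, hv, by rw [mul_assoc]⟩
  · rintro _ ⟨g, hg, a, ha, rfl⟩ ρ hρ
    have h1 := S.rot_conj g⁻¹ _ ρ hρ
    rw [inv_smul_smul] at h1
    have h2 : g⁻¹ * ρ * g⁻¹⁻¹ ∈ H' := by
      rcases ha with ha | ha
      · exact Subgroup.subset_closure (Or.inl (m.rot a ha _ h1))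
      · exact hrot a ha _ h1
    have h3 := H'.mul_mem (H'.mul_mem hg h2) (H'.inv_mem hg)
    simpa [mul_assoc] using h3
  · rintro c hc _ ⟨g, hg, v, hv, rfl⟩ _ ⟨g', hg', v', hv', rfl⟩
    have hZ : ∀ c ∈ T'ᶜ, c ∉ P ∧ (∀ x ∈ V, ∀ y ∈ V, S.D c x y ≤ 2 * S.θ) := by
      intro c hc
      have h1 : c ∉ P := fun h => hc ⟨1, H'.one_mem, c, Or.inr h, by simp⟩
      have h2 : c ∉ T := fun h => hc ⟨1, H'.one_mem, c, Or.inl h, by simp⟩
      refine ⟨h1, fun x hx y hy => ?_⟩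
      by_contra h3
      exact h1 ⟨h2, x, hx, y, hy, by omega⟩
    have hZ' : ∀ c ∈ T'ᶜ, ∀ g ∈ H', g⁻¹ • c ∈ T'ᶜ := by
      intro c hc g hg h
      exact hc (by simpa using hT' g hg _ h)
    have hnf : S.NF H P none (g⁻¹ * g') :=
      NF.of_closure hP (H'.mul_mem (H'.inv_mem hg) hg')
    have hc' := hZ' c hc g hg
    have := narrow hV hPl hPs hZ (fun c hc a ha ρ hρ => hZ' c hc ρ (hrot a ha ρ hρ)) hnf hv'
      (g⁻¹ • c) hc' v (fun w hw => by have := (hZ _ hc').2 v hv w hw; omega)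
      (fun a ha _ w hw => by have := hPs a ha v hv w hw; omega)
    rw [S.D_inv] at this
    simpa [mul_assoc] using this
  · intro h hh h1
    have hnf : S.NF H P none h := NF.of_closure hP hh
    cases hnf with
    | base o h hh => exact m.green h hh h1
    | cons o b ρ g hb _ h2 h3 h4 =>
      obtain ⟨w', hw', k1⟩ := canoe hV hPl hPs h4 h1V b hb rfl
      refine ⟨b, ?_⟩
      have k2 := S.D_big h2 h3 g
      have k3 := hPs b hb 1 h1V w' hw'
      have t1 := S.D_tri b g 1 (ρ * g)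
      have t2 := S.D_tri b 1 w' g
      rw [mul_one] at k1
      have := S.D_comm b g 1
      omega
  · intro x hx
    refine ⟨1, H'.one_mem, x, ?_, by simp⟩
    obtain ⟨z, h1, h2⟩ := M.geo x (M.l x - 1) (by omega)
    exact ⟨z, m.ball z (by omega), by unfold Nm.d; omega⟩

theorem exists_mill (k : ℕ) : ∃ H W T, S.Mill k H W T := by
  induction k with
  | zero =>
    refine ⟨⊥, {1}, ∅, ?_, by simp, by simp, ?_, by simp, ?_⟩
    · intro h hh w hw; simp_all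
    · intro a _ x hx y hy
      simp only [Set.mem_singleton_iff] at hx hy
      rw [hx, hy, S.D_self]; omega
    · intro x hx; exact M.l_eq x (by omega)
  | succ k ih => obtain ⟨H, W, T, m⟩ := ih; exact m.step

/-- Greendlinger's lemma. -/
theorem green {h : G} (hh : h ∈ S.N) (h1 : h ≠ 1) : ∃ a, S.L ≤ S.D a 1 h + 13 * S.θ := by
  have key : ∃ k₀, ∀ k, k₀ ≤ k → ∀ H W T, S.Mill k H W T → h ∈ H := by
    clear h1
    induction hh using Subgroup.closure_induction with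
    | mem x hx =>
      obtain ⟨a, ha⟩ := hx
      obtain ⟨η, ρ, h1, -⟩ := S.orient a 1 1
      refine ⟨M.l ρ, fun k hk H W T m => m.rot a ?_ x ha⟩
      by_contra hc
      have k1 := m.small a hc 1 (m.ball 1 (by rw [M.l_one]; omega)) ρ (m.ball ρ hk)
      have k2 := S.D_big h1.mem h1.ne_one 1
      rw [mul_one] at k2
      have := S.L_big
      have := S.θ_pos
      omega
    | one => exact ⟨0, fun _ _ H _ _ _ => H.one_mem⟩
    | mul x y _ _ hx hy =>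
      obtain ⟨k1, h1⟩ := hx
      obtain ⟨k2, h2⟩ := hy
      exact ⟨k1 + k2, fun k hk H W T m =>
        H.mul_mem (h1 k (by omega) H W T m) (h2 k (by omega) H W T m)⟩
    | inv x _ hx =>
      obtain ⟨k1, h1⟩ := hx
      exact ⟨k1, fun k hk H W T m => H.inv_mem (h1 k hk H W T m)⟩
  obtain ⟨k, hk⟩ := key
  obtain ⟨H, W, T, m⟩ := S.exists_mill k
  exact m.green h (hk k le_rfl H W T m) h1

end Sys

end Pool.Agent.TorAN
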