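import Pool.Agent.P.MP_aa4716_al.Basic
import Pool.Agent.P.MP_aa4716_al.Sys
import Pool.Agent.P.MP_aa4716_al.Wind
import Pool.Agent.P.MP_aa4716_al.Turn
import Pool.Agent.P.MP_aa4716_al.Tight
import Pool.Agent.P.MP_aa4716_al.Dim
import Pool.Agent.P.MP_aa4716_al.Free
import Pool.Agent.P.MP_aa4716_al.Lox
import Pool.Agent.P.MP_aa4716_al.Axis
import Pool.Agent.P.MP_aa4716_al.Special
import Pool.Agent.P.MP_aa4716_al.DimStep
import Pool.Agent.P.MP_aa4716_al.Limit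

set_option autoImplicit false

namespace Pool.Agent.TorAN.VariantBallForm

theorem wordLength {G : Type} [Group G] (M : TorAN.Nm G) (g : G) :
    IsLeast {k : ℕ | ∃ w : List G, (∀ s ∈ w, s ∈ M.ball 1 ∨ s⁻¹ ∈ M.ball 1) ∧ w.prod = g ∧
      w.length = k} (M.l g) := by
  constructor
  · induction h : M.l g generalizing g with
    | zero => exact ⟨[], by simp, by rw [M.l_eq g h]; rfl, rfl⟩
    | succ n ih =>
      obtain ⟨z, h1, h2⟩ := M.geo g n (by omega)
      obtain ⟨w, w1, w2, w3⟩ := ih z h1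
      refine ⟨w ++ [z⁻¹ * g], fun s hs => ?_, by simp [w2], by simp [w3]⟩
      rcases List.mem_append.1 hs with e | e
      · exact w1 s e
      · rw [List.mem_singleton.1 e, M.mem_ball]
        exact Or.inl (by omega)
  · rintro k ⟨w, w1, rfl, rfl⟩
    induction w with
    | nil => simp [M.l_one]
    | cons a w ih =>
      have h1 := ih (fun s hs => w1 s (List.mem_cons_of_mem _ hs))
      have h2 := w1 a List.mem_cons_self
      rw [M.mem_ball, M.mem_ball, M.l_inv, or_self] at h2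
      have h3 := M.l_mul a w.prod
      rw [List.prod_cons, List.length_cons]
      omega

/-- An infinite finitely generated torsion group of Assouad-Nagata dimension at most three, with
the dimension defined by the number of sets of the cover that a ball meets. -/
theorem result :
    ∃ (G : Type) (_ : Group G), Infinite G ∧ (∀ g : G, IsOfFinOrder g) ∧
      ∃ (S : Finset G) (len : G → ℕ),
        (∀ g : G, IsLeast {k : ℕ | ∃ w : List G, (∀ s ∈ w, s ∈ S ∨ s⁻¹ ∈ S) ∧ w.prod = g ∧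
          w.length = k} (len g)) ∧
        ∃ C : ℝ, 0 < C ∧ ∀ r : ℝ, 0 < r → ∃ 𝒰 : Set (Set G),
          (∀ x : G, ∃ A ∈ 𝒰, x ∈ A) ∧
          (∀ A ∈ 𝒰, ∀ x ∈ A, ∀ y ∈ A, (len (x⁻¹ * y) : ℝ) ≤ C * r) ∧
          ∀ x : G, {A ∈ 𝒰 | ∃ y ∈ A, (len (x⁻¹ * y) : ℝ) ≤ r}.encard ≤ 4 := by
  obtain ⟨T⟩ := TorAN.exists_tower
  refine ⟨_, inferInstance, T.infinite, T.torsion, T.M.ball 1, T.M.l, wordLength T.M,
    2 * ((TorAN.KK 80 4 : ℕ) + 1), by positivity, fun r hr => ?_⟩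
  obtain ⟨U, u1, u2, u3⟩ := (T.col_lim ⌊2 * r⌋₊).cover T.M.pm
  refine ⟨{A | ∃ i, A ∈ U i}, fun x => ?_, ?_, fun x => ?_⟩
  · obtain ⟨i, A, a, b⟩ := u1 x
    exact ⟨A, ⟨i, a⟩, b⟩
  · rintro A ⟨i, hA⟩ x hx y hy
    have k1 : ((T.M.l (x⁻¹ * y) : ℕ) : ℝ) ≤ (TorAN.KK 80 4 : ℕ) * (⌊2 * r⌋₊ : ℝ) := by
      exact_mod_cast u2 i A hA x hx y hy
    have k2 : (⌊2 * r⌋₊ : ℝ) ≤ 2 * r := Nat.floor_le (by positivity)
    have k3 : (0 : ℝ) ≤ (TorAN.KK 80 4 : ℕ) := Nat.cast_nonneg _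
    nlinarith
  · classical
    let f : Set _ → Fin (3 + 1) := fun A => if h : ∃ i, A ∈ U i then h.choose else 0
    have hf : ∀ A, (∃ i, A ∈ U i) → A ∈ U (f A) := fun A h => by
      simp only [f, dif_pos h]; exact h.choose_spec
    refine (Set.encard_le_encard_of_injOn (f := f) (t := Set.univ) (fun _ _ => trivial) ?_).trans
      (by simp [Set.encard_univ])
    rintro A ⟨hA, y, y1, y2⟩ B ⟨hB, z, z1, z2⟩ e
    by_contra hne
    have h1 := u3 (f A) A (hf A hA) B (e ▸ hf B hB) hne y y1 z z1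
    have h2 := T.M.d_tri y x z
    rw [T.M.d_comm y x] at h2
    have h3 : ((T.M.d y z : ℕ) : ℝ) ≤ 2 * r := by
      have : ((T.M.d y z : ℕ) : ℝ) ≤ (T.M.l (x⁻¹ * y) : ℕ) + (T.M.l (x⁻¹ * z) : ℕ) := by
        exact_mod_cast h2
      linarith
    exact absurd (Nat.le_floor h3) (not_le.2 h1)

end Pool.Agent.TorAN.VariantBallForm
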